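import Mathlib

/-!
# Groups with finitely many conjugacy classes: torsion of bounded exponent, or Baumslag-Solitar
relations and exponential growth
-/

set_option autoImplicit false

namespace Pool.Agent.Q11.FM

open scoped Pointwise

universe u v

/-- the ball of radius `r` around `1` for the word length of `S` -/
def ball {G : Type u} [Group G] (S : Set G) (r : ℕ) : Set G := (insert 1 (S ∪ S⁻¹)) ^ r

lemma exponent_of_torsion {G : Type u} [Group G] [Finite (ConjClasses G)]
    (h : ∀ g : G, IsOfFinOrder g) : ∃ n : ℕ, 1 ≤ n ∧ ∀ g : G, g ^ n = 1 := by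
  classical
  have : Fintype (ConjClasses G) := Fintype.ofFinite _
  let f : ConjClasses G → G := fun c => Quotient.out c
  have hf : ∀ c, ConjClasses.mk (f c) = c := fun c => Quotient.out_eq c
  refine ⟨∏ c : ConjClasses G, orderOf (f c), ?_, ?_⟩
  · exact Finset.prod_pos (fun c _ => (h (f c)).orderOf_pos)
  · intro g
    have h1 : IsConj (f (ConjClasses.mk g)) g := ConjClasses.mk_eq_mk_iff_isConj.1 (hf _)
    obtain ⟨c, hc⟩ := isConj_iff.1 h1
    have h2 : orderOf (f (ConjClasses.mk g)) ∣ ∏ c : ConjClasses G, orderOf (f c) :=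
      Finset.dvd_prod_of_mem _ (Finset.mem_univ _)
    have h3 := orderOf_dvd_iff_pow_eq_one.1 h2
    have h4 : g ^ (∏ c : ConjClasses G, orderOf (f c)) =
        c * (f (ConjClasses.mk g)) ^ (∏ c : ConjClasses G, orderOf (f c)) * c⁻¹ := by
      rw [← conj_pow, hc]
    rw [h4, h3, mul_one, mul_inv_cancel]

lemma bs_of_nontorsion {G : Type u} [Group G] [Finite (ConjClasses G)] {g : G}
    (hg : ¬ IsOfFinOrder g) {N : ℕ} (hN : 2 ≤ N) :
    ∃ m : ℕ, 1 ≤ m ∧ m ≤ Nat.card (ConjClasses G) ∧ ∃ h t : G, ¬ IsOfFinOrder h ∧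
      t * h * t⁻¹ = h ^ (N ^ m) := by
  classical
  have : Fintype (ConjClasses G) := Fintype.ofFinite _
  obtain ⟨i, j, hij, hc⟩ := Fintype.exists_ne_map_eq_of_card_lt
    (fun i : Fin (Nat.card (ConjClasses G) + 1) => ConjClasses.mk (g ^ (N ^ (i : ℕ))))
    (by rw [Fintype.card_fin, Nat.card_eq_fintype_card]; exact Nat.lt_succ_self _)
  wlog hlt : i < j generalizing i j with H
  · exact H j i hij.symm hc.symm (lt_of_le_of_ne (not_lt.1 hlt) hij.symm)
  obtain ⟨t, ht⟩ := isConj_iff.1 (ConjClasses.mk_eq_mk_iff_isConj.1 hc)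
  have hlt' : (i : ℕ) < j := hlt
  have hj := j.2
  refine ⟨j - i, by omega, by omega, g ^ (N ^ (i : ℕ)), t, ?_, ?_⟩
  · intro h
    exact hg (h.of_pow (pow_ne_zero _ (by omega)))
  · rw [ht, ← pow_mul, ← pow_add]
    congr 2
    omega

section growth

variable {G : Type u} [Group G]

lemma ball_zero (S : Set G) : ball S 0 = 1 := pow_zero _

lemma ball_add (S : Set G) (m n : ℕ) : ball S (m + n) = ball S m * ball S n := pow_add _ _ _

lemma one_mem_ball (S : Set G) (n : ℕ) : (1 : G) ∈ ball S n := by
  induction n with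
  | zero => rw [ball_zero]; exact Set.mem_one.2 rfl
  | succ n ih =>
    rw [ball_add]
    refine ⟨1, ih, 1, ?_, one_mul 1⟩
    unfold ball
    rw [pow_one]
    exact Set.mem_insert _ _

lemma ball_mono (S : Set G) {m n : ℕ} (h : m ≤ n) : ball S m ⊆ ball S n := by
  obtain ⟨k, rfl⟩ := Nat.exists_eq_add_of_le h
  rw [ball_add]
  intro x hx
  exact ⟨x, hx, 1, one_mem_ball S k, mul_one x⟩

lemma ball_finite {S : Set G} (hS : S.Finite) (n : ℕ) : (ball S n).Finite := by
  induction n with
  | zero => rw [ball_zero]; exact Set.finite_one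
  | succ n ih =>
    rw [ball_add]
    apply ih.mul
    unfold ball
    rw [pow_one]
    exact (hS.union hS.inv).insert _

lemma exists_ball {S : Set G} (hgen : Subgroup.closure S = ⊤) (g : G) : ∃ n, g ∈ ball S n := by
  have hg : g ∈ Subgroup.closure S := by rw [hgen]; exact Subgroup.mem_top g
  induction hg using Subgroup.closure_induction'' with
  | mem x hx =>
    refine ⟨1, ?_⟩
    unfold ball
    rw [pow_one]
    exact Set.mem_insert_of_mem _ (Or.inl hx)
  | inv_mem x hx =>
    refine ⟨1, ?_⟩
    unfold ball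
    rw [pow_one]
    exact Set.mem_insert_of_mem _ (Or.inr (Set.inv_mem_inv.2 hx))
  | one => exact ⟨0, one_mem_ball S 0⟩
  | mul x y _ _ ihx ihy =>
    obtain ⟨m, hm⟩ := ihx
    obtain ⟨n, hn⟩ := ihy
    exact ⟨m + n, by rw [ball_add]; exact ⟨x, hm, y, hn, rfl⟩⟩

/-- the word `h^{e_0} t h^{e_1} t ⋯ h^{e_{r-1}} t` -/
lemma word_formula {h t : G} {q : ℕ} (ht : t * h * t⁻¹ = h ^ q) (n : ℕ) :
    t * h ^ n = h ^ (q * n) * t := by
  have : t * h ^ n * t⁻¹ = h ^ (q * n) := by
    rw [← conj_pow, ht, ← pow_mul]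
  rw [← this]
  group

/-- value of the word given by the digits of `x` in base two: for every `x < 2 ^ r` an element of the
ball of radius `2 L r` -/
lemma many {S : Set G} (hS : S.Finite) {h t : G} {q : ℕ} (hq : 2 ≤ q)
    (ht : t * h * t⁻¹ = h ^ q) (hh : ¬ IsOfFinOrder h) {L : ℕ} (hhL : h ∈ ball S L)
    (htL : t ∈ ball S L) (r : ℕ) : 2 ^ r ≤ Nat.card ↥(ball S (2 * L * r)) := by
  classical
  -- exponents
  have key : ∀ r : ℕ, ∃ E : Finset ℕ, E.card = 2 ^ r ∧
      ∀ e ∈ E, h ^ e * t ^ r ∈ ball S (2 * L * r) := by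
    intro r
    induction r with
    | zero =>
      refine ⟨{0}, rfl, ?_⟩
      intro e he
      rw [Finset.mem_singleton] at he
      subst he
      simpa using one_mem_ball S 0
    | succ r ih =>
      obtain ⟨E, hE, hmem⟩ := ih
      let a : ℕ ↪ ℕ := ⟨fun e => q * e, fun x y hxy => Nat.eq_of_mul_eq_mul_left (by omega) hxy⟩
      let b : ℕ ↪ ℕ := ⟨fun e => 1 + q * e, fun x y hxy => by
        have : q * x = q * y := by
          have : 1 + q * x = 1 + q * y := hxy
          omega
        exact Nat.eq_of_mul_eq_mul_left (by omega) this⟩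
      have hdis : Disjoint (E.map a) (E.map b) := by
        rw [Finset.disjoint_left]
        intro x hx hy
        obtain ⟨e, he, rfl⟩ := Finset.mem_map.1 hx
        obtain ⟨e', he', h'⟩ := Finset.mem_map.1 hy
        have h1 : 1 + q * e' = q * e := h'
        have h2 : q ∣ 1 := by
          have : q ∣ 1 + q * e' := h1 ▸ Dvd.intro _ rfl
          exact (Nat.dvd_add_left (Dvd.intro _ rfl)).1 this
        have := Nat.le_of_dvd one_pos h2
        omega
      refine ⟨(E.map a).disjUnion (E.map b) hdis, ?_, ?_⟩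
      · rw [Finset.card_disjUnion, Finset.card_map, Finset.card_map, hE, pow_succ]
        ring
      · intro x hx
        rw [Finset.mem_disjUnion] at hx
        have hsum : 2 * L * (r + 1) = (L + L) + 2 * L * r := by ring
        have hb1 : t ∈ ball S (L + L) := ball_mono S (by omega) htL
        have hb2 : h * t ∈ ball S (L + L) := by rw [ball_add]; exact ⟨h, hhL, t, htL, rfl⟩
        rcases hx with hx | hx
        · obtain ⟨e, he, rfl⟩ := Finset.mem_map.1 hx
          rw [hsum, ball_add]
          refine ⟨t, hb1, h ^ e * t ^ r, hmem e he, ?_⟩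
          show t * (h ^ e * t ^ r) = h ^ (q * e) * t ^ (r + 1)
          rw [← mul_assoc, word_formula ht, mul_assoc, ← pow_succ']
        · obtain ⟨e, he, rfl⟩ := Finset.mem_map.1 hx
          rw [hsum, ball_add]
          refine ⟨h * t, hb2, h ^ e * t ^ r, hmem e he, ?_⟩
          show h * t * (h ^ e * t ^ r) = h ^ (1 + q * e) * t ^ (r + 1)
          have e1 : h * t * (h ^ e * t ^ r) = h * ((t * h ^ e) * t ^ r) := by
            simp only [mul_assoc]
          rw [e1, word_formula ht, pow_add h 1, pow_one, pow_succ' t r]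
          simp only [mul_assoc]
  obtain ⟨E, hE, hmem⟩ := key r
  have hinj : Function.Injective (fun e : E => (⟨h ^ (e : ℕ) * t ^ r, hmem e e.2⟩ :
      ↥(ball S (2 * L * r)))) := by
    intro x y hxy
    have h1 : h ^ (x : ℕ) * t ^ r = h ^ (y : ℕ) * t ^ r := congrArg Subtype.val hxy
    have h2 : h ^ (x : ℕ) = h ^ (y : ℕ) := mul_right_cancel h1
    have h3 : Function.Injective (fun n : ℕ => h ^ n) := injective_pow_iff_not_isOfFinOrder.2 hh
    exact Subtype.ext (h3 h2)
  have hfin : Finite ↥(ball S (2 * L * r)) := (ball_finite hS _).to_subtype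
  have h1 := Nat.card_le_card_of_injective _ hinj
  rw [Nat.card_eq_fintype_card, Fintype.card_coe, hE] at h1
  exact h1

theorem exp_growth {S : Set G} (hS : S.Finite) (hgen : Subgroup.closure S = ⊤) {h t : G} {q : ℕ}
    (hq : 2 ≤ q) (ht : t * h * t⁻¹ = h ^ q) (hh : ¬ IsOfFinOrder h) :
    ∃ c : ℝ, 0 < c ∧ ∀ r : ℕ, Real.exp (c * r) ≤ Nat.card ↥(ball S r) := by
  obtain ⟨L1, hL1⟩ := exists_ball hgen h
  obtain ⟨L2, hL2⟩ := exists_ball hgen t
  set L := L1 + L2 + 1 with hL
  have hhL : h ∈ ball S L := ball_mono S (by omega) hL1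
  have htL : t ∈ ball S L := ball_mono S (by omega) hL2
  have hL0 : (0 : ℝ) < L := by
    have : 0 < L := by omega
    exact_mod_cast this
  have hl2 : 0 < Real.log 2 := Real.log_pos (by norm_num)
  refine ⟨Real.log 2 / (4 * L), by positivity, ?_⟩
  intro r
  have hfin : Finite ↥(ball S r) := (ball_finite hS _).to_subtype
  rcases Nat.eq_zero_or_pos r with rfl | hr
  · rw [Nat.cast_zero, mul_zero, Real.exp_zero]
    have : Nonempty ↥(ball S 0) := ⟨⟨1, one_mem_ball S 0⟩⟩
    exact_mod_cast Nat.card_pos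
  · -- pass to `k = r / (2 L)`
    have h1 : 2 ^ (r / (2 * L)) ≤ Nat.card ↥(ball S r) := by
      refine (many hS hq ht hh hhL htL (r / (2 * L))).trans ?_
      exact Nat.card_mono (ball_finite hS _) (ball_mono S (Nat.mul_div_le r (2 * L)))
    have h2 : 2 ≤ Nat.card ↥(ball S r) := by
      -- some generator is not one
      have : ∃ s ∈ S, s ≠ 1 := by
        by_contra hcon
        push Not at hcon
        have : Subgroup.closure S = ⊥ := by
          rw [Subgroup.closure_eq_bot_iff]
          intro s hs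
          exact hcon s hs
        have h3 : h = 1 := by
          have h4 : h ∈ (⊤ : Subgroup G) := Subgroup.mem_top h
          rw [← hgen, this] at h4
          exact Subgroup.mem_bot.1 h4
        exact hh (h3 ▸ IsOfFinOrder.one)
      obtain ⟨s, hs, hs1⟩ := this
      have hsb : s ∈ ball S r := ball_mono S hr (by
        unfold ball
        rw [pow_one]
        exact Set.mem_insert_of_mem _ (Or.inl hs))
      have : Nontrivial ↥(ball S r) := ⟨⟨⟨s, hsb⟩, ⟨1, one_mem_ball S r⟩, fun h => hs1
        (congrArg Subtype.val h)⟩⟩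
      exact Finite.one_lt_card
    have h3 : Real.log 2 / (4 * L) * r ≤ Real.log 2 * (max 1 (r / (2 * L)) : ℕ) := by
      rw [div_mul_eq_mul_div, div_le_iff₀ (by positivity), mul_assoc]
      apply mul_le_mul_of_nonneg_left _ hl2.le
      have h4 : r < 2 * L * (r / (2 * L) + 1) := Nat.lt_mul_div_succ r (by omega)
      have h5 : r ≤ max 1 (r / (2 * L)) * (4 * L) := by
        rcases Nat.eq_zero_or_pos (r / (2 * L)) with h0 | h0
        · rw [h0] at h4 ⊢
          rw [max_eq_left (by omega)]
          omega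
        · rw [max_eq_right h0]
          nlinarith
      exact_mod_cast h5
    calc Real.exp (Real.log 2 / (4 * L) * r) ≤ Real.exp (Real.log 2 * (max 1 (r / (2 * L)) : ℕ)) :=
          Real.exp_le_exp.2 h3
      _ = 2 ^ (max 1 (r / (2 * L))) := by
          rw [mul_comm, Real.exp_nat_mul, Real.exp_log (by norm_num)]
      _ ≤ Nat.card ↥(ball S r) := by
          have : 2 ^ (max 1 (r / (2 * L))) ≤ Nat.card ↥(ball S r) := by
            rcases Nat.eq_zero_or_pos (r / (2 * L)) with h0 | h0
            · rw [h0, max_eq_left (by omega), pow_one]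
              exact h2
            · rw [max_eq_right h0]
              exact h1
          exact_mod_cast this

end growth

end Pool.Agent.Q11.FM
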