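import Mathlib

/-!
# Subgroups of finite index of finitely presented groups are finitely presented
-/

set_option autoImplicit false

namespace Pool.Agent.Q11.FM

universe u v

/-- A finitely generated free group has a finite basis. -/
lemma finite_of_fg {ι : Type u} [hfg : Group.FG (FreeGroup ι)] : Finite ι := by
  obtain ⟨S, hS⟩ := hfg.out
  have h1 : Finite (FreeGroup ι →* Multiplicative (ZMod 2)) := by
    have hinj : Function.Injective
        (fun (f : FreeGroup ι →* Multiplicative (ZMod 2)) => fun s : S => f s) := by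
      intro f g hfg
      apply MonoidHom.eq_of_eqOn_dense (s := (S : Set (FreeGroup ι))) hS
      intro x hx
      exact congrFun hfg ⟨x, hx⟩
    exact Finite.of_injective _ hinj
  have h2 : Finite (ι → Multiplicative (ZMod 2)) := Finite.of_equiv _ FreeGroup.lift.symm
  by_contra hinf
  rw [not_finite_iff_infinite] at hinf
  have : Infinite (ι → Multiplicative (ZMod 2)) := by
    have : Nontrivial (Multiplicative (ZMod 2)) := inferInstance
    infer_instance
  exact not_finite (ι → Multiplicative (ZMod 2))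

/-- A finitely generated free group is finitely presented. -/
lemma fp_of_free_fg {K : Type u} [Group K] [IsFreeGroup K] [Group.FG K] :
    Group.IsFinitelyPresented K := by
  obtain ⟨ι, ⟨b⟩⟩ := (inferInstance : IsFreeGroup K).nonempty_basis
  have e : K ≃* FreeGroup ι := b.repr
  have : Group.FG (FreeGroup ι) := Group.fg_of_surjective (f := e.toMonoidHom) e.surjective
  have hfin : Finite ι := finite_of_fg
  exact Group.IsFinitelyPresented.equiv e.symm

/-- **Reidemeister-Schreier**: a subgroup of finite index of a finitely presented group is finitely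
presented. -/
theorem fp_of_index {G : Type u} [Group G] [hG : Group.IsFinitelyPresented G] (H : Subgroup G)
    [hH : H.FiniteIndex] : Group.IsFinitelyPresented H := by
  obtain ⟨n, φ, hφ, S, hS, hker⟩ := hG.out
  set K : Subgroup (FreeGroup (Fin n)) := H.comap φ with hK
  have hKi : K.FiniteIndex := by
    refine ⟨?_⟩
    rw [hK, Subgroup.index_comap_of_surjective _ hφ]
    exact hH.index_ne_zero
  have hKfg : Group.FG K := by
    infer_instance
  have hKfree : IsFreeGroup K := inferInstance
  have hKfp : Group.IsFinitelyPresented K := fp_of_free_fg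
  set ψ : K →* H := φ.subgroupComap H with hψ
  have hψs : Function.Surjective ψ := by
    rintro ⟨h, hh⟩
    obtain ⟨x, rfl⟩ := hφ h
    exact ⟨⟨x, hh⟩, rfl⟩
  refine Group.IsFinitelyPresented.of_surjective ψ hψs ?_
  -- relators
  have hSK : ∀ s ∈ S, ∀ g, g * s * g⁻¹ ∈ K := by
    intro s hs g
    have h1 : s ∈ φ.ker := hker ▸ Subgroup.subset_normalClosure hs
    have h2 : φ (g * s * g⁻¹) = 1 := by
      rw [map_mul, map_mul, MonoidHom.mem_ker.1 h1, mul_one, ← map_mul, mul_inv_cancel, map_one]
    show φ (g * s * g⁻¹) ∈ H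
    rw [h2]
    exact H.one_mem
  -- right transversal
  let T : Set (FreeGroup (Fin n)) := Set.range (fun q : FreeGroup (Fin n) ⧸ K => (q.out)⁻¹)
  have hT : T.Finite := Set.finite_range _
  let R : Set K := {k | ∃ t ∈ T, ∃ s ∈ S, (k : FreeGroup (Fin n)) = t * s * t⁻¹}
  have hR : R.Finite := by
    have : R ⊆ Subtype.val ⁻¹' (Set.image2 (fun t s => t * s * t⁻¹) T S) := by
      rintro k ⟨t, ht, s, hs, hk⟩
      exact ⟨t, ht, s, hs, hk.symm⟩
    exact Set.Finite.subset ((hT.image2 _ hS).preimage Subtype.val_injective.injOn) this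
  refine ⟨R, hR, le_antisymm ?_ ?_⟩
  · apply Subgroup.normalClosure_le_normal
    rintro k ⟨t, ht, s, hs, hk⟩
    rw [SetLike.mem_coe, MonoidHom.mem_ker]
    apply Subtype.ext
    show φ (k : FreeGroup (Fin n)) = 1
    have h1 : s ∈ φ.ker := hker ▸ Subgroup.subset_normalClosure hs
    rw [hk, map_mul, map_mul, MonoidHom.mem_ker.1 h1, mul_one, ← map_mul, mul_inv_cancel, map_one]
  · intro k hk
    have h1 : (k : FreeGroup (Fin n)) ∈ Subgroup.normalClosure S := by
      rw [hker, MonoidHom.mem_ker]
      have := congrArg Subtype.val (MonoidHom.mem_ker.1 hk)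
      exact this
    have h2 : Subgroup.normalClosure S ≤ (Subgroup.normalClosure R).map K.subtype := by
      rw [Subgroup.normalClosure, Subgroup.closure_le]
      intro x hx
      obtain ⟨s, hs, g, rfl⟩ := (Group.mem_conjugatesOfSet_iff.1 hx) |> fun ⟨s, hs, h⟩ =>
        (⟨s, hs, isConj_iff.1 h⟩ : ∃ s ∈ S, ∃ c, c * s * c⁻¹ = x)
      let q : FreeGroup (Fin n) ⧸ K := (g⁻¹ : FreeGroup (Fin n))
      have hq : (g⁻¹)⁻¹ * q.out ∈ K := by
        have : (q : FreeGroup (Fin n) ⧸ K) = (q.out : FreeGroup (Fin n)) := (Quotient.out_eq' q).symm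
        exact QuotientGroup.eq.1 this
      rw [inv_inv] at hq
      have hr : (q.out)⁻¹ * s * ((q.out)⁻¹)⁻¹ ∈ K := hSK s hs _
      refine ⟨(⟨g * q.out, hq⟩ : K) * ⟨_, hr⟩ * (⟨g * q.out, hq⟩ : K)⁻¹, ?_, ?_⟩
      · apply Subgroup.normalClosure_normal.conj_mem
        exact Subgroup.subset_normalClosure ⟨_, ⟨q, rfl⟩, s, hs, rfl⟩
      · simp only [Subgroup.coe_subtype, Subgroup.coe_mul, Subgroup.coe_inv]
        group
    obtain ⟨k', hk', hkk⟩ := h2 h1
    have : k' = k := Subtype.ext hkk
    rw [← this]
    exact hk'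

end Pool.Agent.Q11.FM
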