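import Pool.Agent.Q11.FM.WrWord

/-!
# From generators of orders two and three to a Hurwitz pair
-/

set_option autoImplicit false
set_option maxRecDepth 100000

namespace Pool.Agent.Q11.FM

open Wr

namespace A14

def s : Fin 14 → Fin 14 := ![13, 12, 6, 4, 3, 5, 2, 11, 8, 10, 9, 7, 1, 0]

def t : Fin 14 → Fin 14 := ![11, 10, 2, 6, 1, 12, 13, 7, 5, 0, 4, 9, 8, 3]

def t' : Fin 14 → Fin 14 := ![9, 4, 2, 13, 10, 8, 3, 7, 12, 11, 1, 0, 5, 6]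

/-- the labels of `x`, `y`, `y⁻¹`: 0, 1, 2 stand for `a`, `b`, `b⁻¹` -/
def ls : Fin 14 → List (Fin 3) := ![[], [], [], [], [], [0], [], [], [0], [], [], [], [], []]
def lt : Fin 14 → List (Fin 3) := ![[], [], [1], [], [], [], [], [2], [], [], [], [], [], []]
def lt' : Fin 14 → List (Fin 3) := ![[], [], [2], [], [], [], [], [1], [], [], [], [], [], []]

def σ : Equiv.Perm (Fin 14) := ⟨s, s, by decide +kernel, by decide +kernel⟩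

def τ : Equiv.Perm (Fin 14) := ⟨t, t', by decide +kernel, by decide +kernel⟩

/-- words moving the pair `(0, 1)` to each other pair -/
def W : List (List (List (Fin 3))) :=
  [[[], [], [2,0,1,0,2,0,2,0,1,0], [1,0,1,0,2,0,1,0,2,0,1,0,2,0,1], [1,0,1,0,2,0,1,0,2,0,2], [0,1,0,2,0,2,0], [2,0,1,0,1], [2,0,2,0,1], [1,0,2,0,1,0,2,0,2,0,1], [0,1,0,1,0,2,0], [1,0,2,0,1,0], [1,0,2,0,2,0,1,0,2,0], [0,2,0,1,0,1,0,2,0,1], [2,0,2,0,1,0,1,0,2,0,2,0]],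
  [[2,0,1,0,2,0,1], [], [0,2,0,1,0,2,0,1,0,1,0,1], [0,1,0,2,0,2,0,2], [1,0,1,0,2,0,2,0,1], [1,0,1,0], [1,0,2,0,1,0,2,0], [2,0,2,0,1,0,1,0,2,0], [2,0,2,0,2,0,1,0,1,0,2,0,1], [0,2,0,1,0,2,0,1,0,2,0,1], [2,0,1,0,1,0,1], [0,2,0,1,0,2,0,2], [2,0,2,0,1,0,2,0,2,0], [2,0,2]],
  [[2,0,2,0,1,0,2,0,2,0,1,0,2,0], [0,1,0,1,0,2,0,1,0,2,0,2,0], [], [2,0,1,0,1,0,2], [0,1,0,2,0,2,0,1,0,2,0,2], [0,2,0], [0,1,0,1,0,2], [0,2,0,1,0,2,0,1,0], [2,0,2,0], [1,0,2,0,1,0,2,0,2,0,1,0,2,0], [0,1,0,1,0,2,0,1,0,1,0,2,0], [0,2,0,1,0,2,0,2,0,1,0,2,0], [1,0,2,0], [1,0,1,0,1,0,2]],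
  [[1,0,1,0,2,0,1,0], [0,1,0,2,0,2,0,1,0,1,0,2,0,1], [0,1,0,2], [], [2,0,1,0,2,0], [0,1,0,2,0,1,0,2,0,2,0], [1,0,1,0,1,0,2,0,1,0,2,0,2], [1,0,1,0,2,0,2,0,1,0,2,0], [1,0], [1,0,2,0,2,0,1], [0,1,0,1,0,2,0,1], [0,1,0,2,0,1,0,1,0,2,0], [2,0,2,0,2,0], [0,2,0,2,0,1,0,2,0,2]],
  [[2,0,2,0,1,0,2,0,2], [0,2,0,2,0,2,0], [2,0,2,0,1,0,2,0,1,0,1,0,1], [0,2,0,1,0,2,0], [], [1,0,2,0,1,0,2,0,2,0], [1,0,2], [1,0,2,0,1,0,1,0,2,0], [0,1,0], [1,0,1,0,2,0,1], [0,1,0,2,0,2,0,1], [0,1,0,1,0,2,0,2,0,1,0,2,0], [1,0,2,0,2,0,1,0,1,0,2,0,1], [0,1,0,1,0,2,0,1,0]],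
  [[2,0,2,0,2,0,1,0,1,0,2,0], [1,0,1,0,2,0,1,0,2,0,1], [2,0,1,0,2,0,1,0,2,0], [1,0,1,0,2,0,1,0,1,0,1], [2,0,2,0,2,0,1,0,2,0,2,0], [], [2,0,2,0,1,0,2,0,1], [1,0,1,0,2,0,2], [2,0,1,0,1,0], [2,0,2,0,2], [0,2,0,2,0,2], [0,1,0,1,0,2,0,2], [0,1,0,1,0,2,0,1,0,2,0,1], [2,0,1,0,1,0,2,0,2,0,1]],
  [[2,0,2,0,2,0,1], [0,1,0,2,0], [1,0,1,0,2], [1,0,2,0,2,0,1,0,2,0,2], [0,2,0,1,0,1,0,2], [2,0], [], [2,0,1,0,2,0,2,0,1,0,2,0], [0,2,0,2,0], [1,0,1,0,2,0,1,0,1,0,2,0], [0,1,0,2,0,1,0,2,0,2,0,1,0,2,0], [2,0,1,0,2,0,1,0], [1,0,1,0,2,0,1,0,2,0,2,0], [2,0,1,0,1,0,2,0,1,0,2,0,2]],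
  [[1,0,1], [0,1,0,1,0,2,0,2,0], [0,2,0,1,0,2,0,1,0,2,0,1,0,2,0,1], [0,2,0,2,0,1,0], [2,0,1,0,1,0,2,0,2,0], [0,2,0,2,0,1,0,2,0,2,0,1], [1,0,2,0,2,0,1,0], [], [0,1,0,2,0,1,0,1,0,2,0,1], [0,1], [1,0,1,0,1,0,2,0,2,0], [2,0,1], [0,2,0,1,0,2,0,1,0,2,0,2], [2,0,2,0,2,0,1,0]],
  [[1,0,2,0,1,0,1,0,1], [0,1,0,1,0,1,0], [1,0,1,0,2,0,1,0,2,0], [1,0,2,0,1,0,2,0,1], [0,1,0,2,0,1,0,2,0,1], [2,0,1,0,1,0,2,0,1,0,2,0,1], [0,1,0,1,0,2,0,1,0,2,0], [0,1,0,2,0,2], [], [1,0,2,0,2,0,1,0,1,0,2,0], [1,0,2,0,2,0,1,0,2,0,2,0], [1,0,2,0,2], [1,0,1,0,1,0], [0,1,0,2,0,1,0,1,0,1]],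
  [[0,2,0,2,0,1,0,2,0], [0,2,0,1,0], [1,0,1,0,2,0,2,0,1,0], [1,0,1,0,1], [2], [2,0,2,0,1,0,1,0,2,0,1], [1,0,2,0,1,0,1,0,2,0,2,0], [1,0,2,0,1], [2,0,1,0,2,0,2,0], [], [0,1,0,2,0,1,0,2,0,2], [2,0,1,0,1,0,2,0], [0,2,0,1,0,2,0,2,0,1], [0,1,0,2,0,1,0,2,0,1,0,2,0,1]],
  [[1,0,2,0,1,0,2,0,1,0,2,0,1], [2,0,1,0,2,0,2,0,1], [0,1,0,2,0,1,0,1,0,2,0,2,0], [0,2], [0,1,0,1,0,1], [0,2,0,2,0,1,0,1,0,2,0,1], [1,0,1,0,2,0,2,0,2], [0,2,0,1,0,1,0,2,0], [0,2,0,1,0,2,0,2,0], [1,0,2,0,1,0,2,0,2], [], [0,1,0,2,0,1], [2,0,1,0], [2,0,2,0,1,0,2,0]],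
  [[1,0,1,0,1,0,2,0], [2,0,1,0,2,0,1,0,2,0,2], [0,1,0,2,0,2,0,1,0], [0,2,0,1,0,1,0,2,0,2,0], [2,0,2,0,1,0], [2,0,2,0,1,0,2,0,2,0,1], [2,0,1,0,2,0,1,0,2,0,1,0,2,0,1], [0,2,0,1], [1,0,2,0,1,0,1,0,2,0,1], [2,0,2,0,2,0,1,0,2,0], [1], [], [1,0,1,0,2,0,2,0], [0,1,0,1]],
  [[0,2,0,2], [0,2,0,2,0,1,0,2,0,2,0], [0,1,0,2,0,1,0,2,0], [0,1,0,1,0,2,0,2,0,1], [1,0,2,0,2,0,2], [0,1,0,1,0], [2,0,1,0,2,0,1,0,1,0,1], [2,0,1,0,2,0,2], [1,0,1,0,1,0,2,0,1,0,2,0,1], [0,2,0,1,0,1,0,1], [2,0,1,0,2,0,1,0,2,0,1], [0,2,0,2,0,1,0,1,0,2,0], [], [0,2,0,1,0,2,0,1]],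
  [[2,0,1,0,2,0,1,0,1,0,2,0], [2,0,1,0,1,0,2,0,1], [2,0,1,0,2], [0,1,0,1,0,2,0,1,0,2,0,2], [2,0,1,0,2,0,2,0,1,0,1,0,2,0,1], [1,0,2,0,2,0], [0,2,0,1,0,2,0,2,0,1,0], [0,1,0,2,0,2,0,1,0,2,0], [2,0,1,0,2,0,1,0,2,0,2,0], [0,1,0,2,0,1,0], [1,0,1,0,2,0], [0,2,0,2,0,1], [0], []]]

def wd (a b : Fin 14) : List (Fin 3) := (W.getD a []).getD b []

lemma wd_spec : ∀ a b : Fin 14, b ≠ a →
    run s t t' (wd a b) 0 = a ∧ run s t t' (wd a b) 1 = b := by decide +kernel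

def w1 : List (Fin 3) := [2,0,1,0,2,0,1,0,1,0,2,0,1,0,2,0,1,0,1,0,2,0,1,0,2,0,1,0,1,0]
def w2 : List (Fin 3) := [1,0,1,0,2,0,1,0,1,0,2,0,1,0,2,0,1,0,1,0,2,0,1,0,2,0,1,0,1,0,1]

lemma w1_run : run s t t' w1 0 = 0 ∧ run s t t' w1 1 = 1 := by decide +kernel
lemma w2_run : run s t t' w2 0 = 0 ∧ run s t t' w2 1 = 1 := by decide +kernel

def w7 : List (Fin 3) := [0, 1, 0, 1, 0, 1, 0, 1, 0, 1, 0, 1, 0, 1]

lemma w7_run : ∀ i, run s t t' w7 i = i := by decide +kernel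

lemma w7_labs : ∀ i, labs s t t' ls lt lt' w7 i = [1, 2] ∨ labs s t t' ls lt lt' w7 i = [2, 1] ∨
    labs s t t' ls lt lt' w7 i = [0, 0] := by decide +kernel

lemma w1_labs : labs s t t' ls lt lt' w1 0 = [2, 0, 1, 0] ∧
    labs s t t' ls lt lt' w1 1 = [1, 2, 0, 0, 0, 0, 0, 0] := by
  decide +kernel
lemma w2_labs : labs s t t' ls lt lt' w2 0 = [0, 1, 0, 2] ∧
    labs s t t' ls lt lt' w2 1 = [2, 1] := by
  decide +kernel

end A14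

open scoped commutatorElement

/-- a criterion for a subgroup to contain the derived subgroup -/
lemma comm_le {H : Type} [Group H] {S : Set H} (hS : Subgroup.closure S = ⊤) {K : Subgroup H}
    (hn : ∀ s ∈ S, ∀ k ∈ K, s * k * s⁻¹ ∈ K) (hn' : ∀ s ∈ S, ∀ k ∈ K, s⁻¹ * k * s ∈ K)
    (hc : ∀ s ∈ S, ∀ s' ∈ S, ⁅s, s'⁆ ∈ K) : ⁅(⊤ : Subgroup H), ⊤⁆ ≤ K := by
  have h1 : Subgroup.closure S ≤ Subgroup.normalizer (K : Set H) := by
    rw [Subgroup.closure_le]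
    intro s hs
    rw [SetLike.mem_coe, Subgroup.mem_normalizer_iff]
    intro k
    constructor
    · exact hn s hs k
    · intro hk
      have := hn' s hs _ hk
      rwa [show s⁻¹ * (s * k * s⁻¹) * s = k by group] at this
  rw [hS, top_le_iff] at h1
  have hK : K.Normal := Subgroup.normalizer_eq_top_iff.1 h1
  have hcomm : ∀ x y : H, ⁅x, y⁆ ∈ K ↔ Commute (x : H ⧸ K) (y : H ⧸ K) := by
    intro x y
    rw [← QuotientGroup.eq_one_iff, ← commutatorElement_eq_one_iff_commute]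
    rfl
  have h2 : ∀ s ∈ S, ∀ y : H, Commute (s : H ⧸ K) (y : H ⧸ K) := by
    intro s hs y
    have hy : y ∈ Subgroup.closure S := by rw [hS]; trivial
    induction hy using Subgroup.closure_induction with
    | mem x hx => exact (hcomm s x).1 (hc s hs x hx)
    | one => exact Commute.one_right _
    | mul x y _ _ hx hy => exact hx.mul_right hy
    | inv x _ hx => exact hx.inv_right
  have h3 : ∀ x y : H, Commute (x : H ⧸ K) (y : H ⧸ K) := by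
    intro x y
    have hx : x ∈ Subgroup.closure S := by rw [hS]; trivial
    induction hx using Subgroup.closure_induction with
    | mem x hx => exact h2 x hx y
    | one => exact Commute.one_left _
    | mul x z _ _ hx hz => exact hx.mul_left hz
    | inv x _ hx => exact hx.inv_left
  rw [Subgroup.commutator_le]
  intro x _ y _
  rw [hcomm]
  exact h3 x y

/-- the subgroup generated by the two commutators of generators of orders two and three -/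
lemma comm_le_two_three {H : Type} [Group H] {a b : H} (ha : a * a = 1) (hb : b * b * b = 1)
    (hab : Subgroup.closure {a, b} = ⊤) {K : Subgroup H} (h1 : b⁻¹ * a * b * a ∈ K)
    (h2 : a * b * a * b⁻¹ ∈ K) : ⁅(⊤ : Subgroup H), ⊤⁆ ≤ K := by
  have ha' : a⁻¹ = a := by rw [inv_eq_iff_mul_eq_one]; exact ha
  have hb' : b * b = b⁻¹ := by rw [eq_inv_iff_mul_eq_one]; exact hb
  have e1 : ∀ z, a * (a * z) = z := fun z => by rw [← mul_assoc, ha, one_mul]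
  have e2 : ∀ z, b * (b * z) = b⁻¹ * z := fun z => by rw [← mul_assoc, hb']
  have hb'' : b⁻¹ * b⁻¹ = b := by
    rw [← hb', mul_assoc, ← mul_assoc b b b, ← mul_assoc, ← mul_assoc] 
    rw [hb, one_mul]
  have e3 : ∀ z, b⁻¹ * (b⁻¹ * z) = b * z := fun z => by rw [← mul_assoc, hb'']
  set K0 : Subgroup H := Subgroup.closure {b⁻¹ * a * b * a, a * b * a * b⁻¹} with hK0
  have hle : K0 ≤ K := by
    rw [hK0, Subgroup.closure_le]
    rintro z (rfl | rfl)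
    · exact h1
    · exact h2
  refine le_trans ?_ hle
  have mv : b⁻¹ * a * b * a ∈ K0 := Subgroup.subset_closure (by simp)
  have mu : a * b * a * b⁻¹ ∈ K0 := Subgroup.subset_closure (by simp)
  have key : ∀ g : H, g * (b⁻¹ * a * b * a) * g⁻¹ ∈ K0 → g * (a * b * a * b⁻¹) * g⁻¹ ∈ K0 →
      ∀ k ∈ K0, g * k * g⁻¹ ∈ K0 := by
    intro g g1 g2 k hk
    induction hk using Subgroup.closure_induction with
    | mem x hx =>
      rcases hx with rfl | rfl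
      · exact g1
      · exact g2
    | one => rw [mul_one, mul_inv_cancel]; exact K0.one_mem
    | mul x y _ _ hx hy =>
      have := K0.mul_mem hx hy
      rwa [show g * x * g⁻¹ * (g * y * g⁻¹) = g * (x * y) * g⁻¹ by group] at this
    | inv x _ hx =>
      have := K0.inv_mem hx
      rwa [show (g * x * g⁻¹)⁻¹ = g * x⁻¹ * g⁻¹ by group] at this
  -- conjugation by a
  have ca : ∀ k ∈ K0, a * k * a⁻¹ ∈ K0 := by
    apply key a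
    · have := K0.inv_mem mv
      have e : (b⁻¹ * a * b * a)⁻¹ = a * (b⁻¹ * a * b * a) * a⁻¹ := by
        simp only [mul_inv_rev, inv_inv, ha', mul_assoc, ha, mul_one]
      rwa [e] at this
    · have := K0.inv_mem mu
      have e : (a * b * a * b⁻¹)⁻¹ = a * (a * b * a * b⁻¹) * a⁻¹ := by
        simp only [mul_inv_rev, inv_inv, ha', mul_assoc, e1]
      rwa [e] at this
  have cb : ∀ k ∈ K0, b * k * b⁻¹ ∈ K0 := by
    apply key b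
    · have e : b * (b⁻¹ * a * b * a) * b⁻¹ = a * b * a * b⁻¹ := by group
      rw [e]; exact mu
    · have e : b * (a * b * a * b⁻¹) * b⁻¹ = (a * b * a * b⁻¹)⁻¹ * (b⁻¹ * a * b * a)⁻¹ := by
        simp only [mul_inv_rev, inv_inv, ha', mul_assoc, hb'', e1, e3]
      rw [e]
      exact K0.mul_mem (K0.inv_mem mu) (K0.inv_mem mv)
  have ca' : ∀ k ∈ K0, a⁻¹ * k * a ∈ K0 := by
    intro k hk
    have := ca k hk
    rwa [ha'] at this ⊢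
  have cb' : ∀ k ∈ K0, b⁻¹ * k * b ∈ K0 := by
    intro k hk
    have := cb _ (cb k hk)
    rwa [show b * (b * k * b⁻¹) * b⁻¹ = (b * b) * k * (b⁻¹ * b⁻¹) by group, hb', hb''] at this
  apply comm_le hab
  · rintro g (rfl | rfl)
    · exact ca
    · exact cb
  · rintro g (rfl | rfl)
    · exact ca'
    · exact cb'
  · have mab : ⁅a, b⁆ ∈ K0 := by
      rw [commutatorElement_def, ha']; exact mu
    rintro g (rfl | rfl) g' (rfl | rfl)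
    · rw [commutatorElement_self]; exact K0.one_mem
    · exact mab
    · rw [← commutatorElement_inv]; exact K0.inv_mem mab
    · rw [commutatorElement_self]; exact K0.one_mem

namespace A14

/-- the labelled permutations and the labels they produce -/
theorem pair {G : Type} [Group G] (a b : G) (ha : a ^ 2 = 1) (hb : b ^ 3 = 1)
    (hgen : Subgroup.closure {a, b} = ⊤) :
    ∃ x y : Wr G (Fin 14), x ^ 2 = 1 ∧ y ^ 3 = 1 ∧ (x * y) ^ 7 = 1 ∧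
      (∀ S : Set G, 1 ∈ S → a ∈ S → b ∈ S → b⁻¹ ∈ S → ∀ i, lab x i ∈ S ∧ lab y i ∈ S) ∧
      (∀ c d : Fin 14, d ≠ c → ∃ γ ∈ Subgroup.closure {x, y}, γ.right 0 = c ∧ γ.right 1 = d) ∧
      ⁅(⊤ : Subgroup G), ⊤⁆ ≤ T (Subgroup.closure {x, y}) 0 1 := by
  have ha1 : a * a = 1 := by rw [← pow_two]; exact ha
  have hb1 : b * b * b = 1 := by rw [← pow_two, ← pow_succ]; exact hb
  have hb2 : b * (b * b) = 1 := by rw [← mul_assoc]; exact hb1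
  have hb3 : b⁻¹ * (b⁻¹ * b⁻¹) = 1 := by
    rw [← mul_inv_rev, ← mul_inv_rev, hb1, inv_one]
  let φ : Fin 3 → G := ![a, b, b⁻¹]
  let x : Wr G (Fin 14) := el (fun i => ((ls i).map φ).prod) σ
  let y : Wr G (Fin 14) := el (fun i => ((lt i).map φ).prod) τ
  have hs : ∀ i, x.right i = s i := fun i => rfl
  have ht : ∀ i, y.right i = t i := fun i => rfl
  have ht' : ∀ i, (y⁻¹).right i = t' i := fun i => rfl
  have ks : ∀ i, lab x i = ((ls i).map φ).prod := fun i => el_lab _ _ _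
  have kt : ∀ i, lab y i = ((lt i).map φ).prod := fun i => el_lab _ _ _
  have kt' : ∀ i, lab y⁻¹ i = ((lt' i).map φ).prod := by
    intro i
    rw [el_inv_lab]
    show (((lt (t' i)).map φ).prod)⁻¹ = _
    fin_cases i <;> simp [lt, lt', t', φ]
  have hx : x ^ 2 = 1 := by
    apply ext_iff'
    · intro i
      rw [pow_two, right_mul', hs, hs]
      revert i
      exact show ∀ i, s (s i) = i by decide +kernel
    · intro i
      rw [pow_two, lab_mul, hs, ks, ks]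
      show _ = (1 : G)
      fin_cases i <;> simp [ls, s, φ, ha1]
  have hy : y ^ 3 = 1 := by
    apply ext_iff'
    · intro i
      rw [pow_succ, pow_two, right_mul', right_mul', ht, ht, ht]
      revert i
      exact show ∀ i, t (t (t i)) = i by decide +kernel
    · intro i
      rw [pow_succ, pow_two, lab_mul, lab_mul, kt, kt, kt, ht, ht]
      show _ = (1 : G)
      fin_cases i <;> simp [lt, t, φ, hb2, hb3, mul_assoc]
  have hlab : ∀ q i, lab (ev x y q) i = ((labs s t t' ls lt lt' q i).map φ).prod :=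
    labs_spec φ hs ht ht' ks kt kt'
  have hrun : ∀ q i, (ev x y q).right i = run s t t' q i := run_spec hs ht ht'
  have hxy : (x * y) ^ 7 = ev x y w7 := by
    simp only [w7, ev, pow_succ, pow_zero, one_mul, mul_one, mul_assoc]
    rfl
  have hxy1 : (x * y) ^ 7 = 1 := by
    rw [hxy]
    apply ext_iff'
    · intro i
      rw [hrun, w7_run]; rfl
    · intro i
      rw [hlab]
      show _ = (1 : G)
      rcases w7_labs i with h | h | h <;> rw [h] <;> simp [φ, ha1]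
  refine ⟨x, y, hx, hy, hxy1, ?_, ?_, ?_⟩
  · intro S h1 h2 h3 h4 i
    refine ⟨?_, ?_⟩
    · rw [ks]
      fin_cases i <;> simp [ls, φ, h1, h2]
    · rw [kt]
      fin_cases i <;> simp [lt, φ, h1, h3, h4]
  · intro c d hcd
    refine ⟨ev x y (wd c d), ev_mem x y _, ?_, ?_⟩
    · rw [hrun]; exact (wd_spec c d hcd).1
    · rw [hrun]; exact (wd_spec c d hcd).2
  · have m1 : b⁻¹ * a * b * a ∈ T (Subgroup.closure {x, y}) 0 1 := by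
      refine ⟨ev x y w1, ev_mem x y _, ?_, ?_, ?_, ?_⟩
      · rw [hrun]; exact w1_run.1
      · rw [hrun]; exact w1_run.2
      · rw [hlab, w1_labs.1]; simp [φ, mul_assoc]
      · rw [hlab, w1_labs.2]; simp [φ, ha1]
    have m2 : a * b * a * b⁻¹ ∈ T (Subgroup.closure {x, y}) 0 1 := by
      refine ⟨ev x y w2, ev_mem x y _, ?_, ?_, ?_, ?_⟩
      · rw [hrun]; exact w2_run.1
      · rw [hrun]; exact w2_run.2
      · rw [hlab, w2_labs.1]; simp [φ, mul_assoc]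
      · rw [hlab, w2_labs.2]; simp [φ]
    exact comm_le_two_three ha1 hb1 hgen m1 m2

/-- **From generators of orders two and three to a Hurwitz pair.** -/
theorem step {G : Type} [Group G] (hG : FAb G) (a b : G) (ha : a ^ 2 = 1) (hb : b ^ 3 = 1)
    (hgen : Subgroup.closure {a, b} = ⊤) :
    ∃ x y : Wr G (Fin 14), x ^ 2 = 1 ∧ y ^ 3 = 1 ∧ (x * y) ^ 7 = 1 ∧
      (Subgroup.closure {x, y}).FiniteIndex := by
  obtain ⟨x, y, hx, hy, hxy, -, h2, hT⟩ := pair a b ha hb hgen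
  refine ⟨x, y, hx, hy, hxy, finiteIndex_of_pair hG (i := 0) (j := 1) h2 ?_⟩
  exact finiteIndex_of_le' hT (hG ⊤ inferInstance)

end A14

end Pool.Agent.Q11.FM
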