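import Pool.Agent.Q11.FM.Wr

/-!
# From any finite number of generators to three
-/

set_option autoImplicit false

namespace Pool.Agent.Q11.FM

open Wr

/-- a permutation with two prescribed values -/
lemma exists_perm {Ω : Type} [DecidableEq Ω] {a b i j : Ω} (hab : b ≠ a) (hij : j ≠ i) :
    ∃ π : Equiv.Perm Ω, π a = i ∧ π b = j := by
  refine ⟨Equiv.swap (Equiv.swap a i b) j * Equiv.swap a i, ?_, ?_⟩
  · rw [Equiv.Perm.mul_apply, Equiv.swap_apply_left, Equiv.swap_apply_of_ne_of_ne]
    · intro h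
      apply hab
      have : Equiv.swap a i (Equiv.swap a i b) = Equiv.swap a i i := by rw [← h]
      rwa [Equiv.swap_apply_self, Equiv.swap_apply_right] at this
    · exact fun h => hij h.symm
  · rw [Equiv.Perm.mul_apply, Equiv.swap_apply_left]

/-- three labelled permutations -/
theorem three_pair {G : Type} [Group G] (n : ℕ) (g : Fin n → G)
    (hg : Subgroup.closure (Set.range g) = ⊤) :
    ∃ x y z : Wr G (Fin (n + 2)),
      (∀ S : Set G, 1 ∈ S → (∀ i, g i ∈ S) → ∀ i, lab x i ∈ S ∧ lab y i ∈ S ∧ lab z i ∈ S) ∧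
      ∀ i j : Fin (n + 2), j ≠ i → T (Subgroup.closure {x, y, z}) i j = ⊤ := by
  classical
  let ℓ : Fin (n + 2) → G := fun i => if h : (i : ℕ) < n then g ⟨i, h⟩ else 1
  let x : Wr G (Fin (n + 2)) := SemidirectProduct.inl ℓ
  let c : Equiv.Perm (Fin (n + 2)) := finRotate (n + 2)
  let s : Equiv.Perm (Fin (n + 2)) := Equiv.swap 0 (c 0)
  let Γ : Subgroup (Wr G (Fin (n + 2))) :=
    Subgroup.closure {x, SemidirectProduct.inr c, SemidirectProduct.inr s}
  refine ⟨x, SemidirectProduct.inr c, SemidirectProduct.inr s, ?_, ?_⟩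
  · intro S h1 h2 i
    refine ⟨?_, h1, h1⟩
    show ℓ i ∈ S
    by_cases h : (i : ℕ) < n
    · have : ℓ i = g ⟨i, h⟩ := dif_pos h
      rw [this]; exact h2 _
    · have : ℓ i = 1 := dif_neg h
      rw [this]; exact h1
  show ∀ i j : Fin (n + 2), j ≠ i → T Γ i j = ⊤
  have hx : x ∈ Γ := Subgroup.subset_closure (by simp)
  have hc : (SemidirectProduct.inr c : Wr G (Fin (n + 2))) ∈ Γ := Subgroup.subset_closure (by simp)
  have hs : (SemidirectProduct.inr s : Wr G (Fin (n + 2))) ∈ Γ := Subgroup.subset_closure (by simp)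
  have hperm : ∀ π : Equiv.Perm (Fin (n + 2)), (SemidirectProduct.inr π : Wr G (Fin (n + 2))) ∈ Γ := by
    intro π
    have h1 : π ∈ Subgroup.closure ({c, s} : Set (Equiv.Perm (Fin (n + 2)))) := by
      rw [Equiv.Perm.closure_cycle_adjacent_swap isCycle_finRotate support_finRotate 0]
      trivial
    have h2 : Subgroup.closure ({c, s} : Set (Equiv.Perm (Fin (n + 2)))) ≤
        Γ.comap (SemidirectProduct.inr : _ →* Wr G (Fin (n + 2))) := by
      rw [Subgroup.closure_le]
      rintro z (rfl | rfl)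
      · exact hc
      · exact hs
    exact h2 h1
  intro i j hij
  rw [eq_top_iff, ← hg, Subgroup.closure_le]
  rintro _ ⟨e, rfl⟩
  let a : Fin (n + 2) := ⟨e, by omega⟩
  let b : Fin (n + 2) := ⟨n + 1, by omega⟩
  have hab : b ≠ a := by
    intro h
    have := congrArg Fin.val h
    have h2 := e.2
    simp only [a, b] at this
    omega
  obtain ⟨π, h1, h2⟩ := exists_perm hab hij
  have hla : ℓ a = g e := by
    show (if h : (a : ℕ) < n then g ⟨a, h⟩ else 1) = _
    rw [dif_pos (show (a : ℕ) < n from e.2)]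
  have hlb : ℓ b = 1 := by
    show (if h : (b : ℕ) < n then g ⟨b, h⟩ else 1) = _
    rw [dif_neg (show ¬ ((n + 1 : ℕ) < n) by omega)]
  have hi : (SemidirectProduct.inr π⁻¹ : Wr G (Fin (n + 2))).right i = a := by
    show π⁻¹ i = a
    rw [← h1]; exact π.symm_apply_apply a
  have hj : (SemidirectProduct.inr π⁻¹ : Wr G (Fin (n + 2))).right j = b := by
    show π⁻¹ j = b
    rw [← h2]; exact π.symm_apply_apply b
  refine ⟨SemidirectProduct.inr π * x * SemidirectProduct.inr π⁻¹,
    Γ.mul_mem (Γ.mul_mem (hperm π) hx) (hperm π⁻¹), ?_, ?_, ?_, ?_⟩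
  · rw [right_mul', hi]
    exact h1
  · rw [right_mul', hj]
    exact h2
  · rw [lab_mul, hi, lab_mul, lab_inr, lab_inr, one_mul, mul_one]
    exact hla
  · rw [lab_mul, hj, lab_mul, lab_inr, lab_inr, one_mul, mul_one]
    exact hlb

/-- generators of a closure as elements of the closure -/
lemma closure_pair_top {H : Type} [Group H] (x y : H) :
    ∃ x' y' : Subgroup.closure ({x, y} : Set H), (x' : H) = x ∧ (y' : H) = y ∧
      Subgroup.closure {x', y'} = ⊤ := by
  have hx : x ∈ Subgroup.closure ({x, y} : Set H) := Subgroup.subset_closure (by simp)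
  have hy : y ∈ Subgroup.closure ({x, y} : Set H) := Subgroup.subset_closure (by simp)
  refine ⟨⟨x, hx⟩, ⟨y, hy⟩, rfl, rfl, ?_⟩
  rw [← Subgroup.closure_closure_coe_preimage (k := ({x, y} : Set H))]
  congr 1
  ext z
  simp only [Set.mem_insert_iff, Set.mem_singleton_iff, Set.mem_preimage, Subtype.ext_iff]

lemma closure_triple_top {H : Type} [Group H] (x y z : H) :
    ∃ x' y' z' : Subgroup.closure ({x, y, z} : Set H), (x' : H) = x ∧ (y' : H) = y ∧
      (z' : H) = z ∧ Subgroup.closure {x', y', z'} = ⊤ := by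
  have hx : x ∈ Subgroup.closure ({x, y, z} : Set H) := Subgroup.subset_closure (by simp)
  have hy : y ∈ Subgroup.closure ({x, y, z} : Set H) := Subgroup.subset_closure (by simp)
  have hz : z ∈ Subgroup.closure ({x, y, z} : Set H) := Subgroup.subset_closure (by simp)
  refine ⟨⟨x, hx⟩, ⟨y, hy⟩, ⟨z, hz⟩, rfl, rfl, rfl, ?_⟩
  rw [← Subgroup.closure_closure_coe_preimage (k := ({x, y, z} : Set H))]
  congr 1
  ext w
  simp only [Set.mem_insert_iff, Set.mem_singleton_iff, Set.mem_preimage, Subtype.ext_iff]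

end Pool.Agent.Q11.FM
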