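import Pool.Agent.Q11.FM.WrA
import Pool.Agent.Q11.FM.WrB
import Pool.Agent.Q11.FM.WrC
import Pool.Agent.Q220.GR.JN

/-!
# Balls in wreath products, virtual nilpotency, and independent generators
-/

set_option autoImplicit false

namespace Pool.Agent.Q11.FM

open Wr
open Pool.Agent.Q220.GR (VN JNVN exists_jnvn vn_iff)

/-- the ball of radius `n` -/
def ball {G : Type} [Group G] (X : Set G) (n : ℕ) : Set G :=
  {g | ∃ l : List G, l.length ≤ n ∧ (∀ x ∈ l, x ∈ X ∨ x⁻¹ ∈ X) ∧ l.prod = g}

section
variable {G : Type} [Group G] {X : Set G}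

lemma ball_finite (hX : X.Finite) (n : ℕ) : (ball X n).Finite := by
  classical
  let A : Set G := X ∪ (fun x => x⁻¹) '' X
  have hA : A.Finite := hX.union (hX.image _)
  have : Finite A := hA
  refine ((List.finite_length_lt A (n + 1)).image fun l => (l.map Subtype.val).prod).subset ?_
  rintro g ⟨l, h1, h2, rfl⟩
  have h3 : ∀ x ∈ l, x ∈ A := by
    intro x hx
    rcases h2 x hx with h | h
    · exact Or.inl h
    · exact Or.inr ⟨x⁻¹, h, inv_inv x⟩
  refine ⟨l.attach.map fun x => ⟨x.1, h3 x.1 x.2⟩, ?_, ?_⟩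
  · show (l.attach.map fun x => (⟨x.1, h3 x.1 x.2⟩ : A)).length < n + 1
    rw [List.length_map, List.length_attach]
    omega
  · show ((l.attach.map fun x => (⟨x.1, h3 x.1 x.2⟩ : A)).map Subtype.val).prod = l.prod
    rw [List.map_map]
    congr 1
    have : (Subtype.val ∘ fun x : {x // x ∈ l} => (⟨x.1, h3 x.1 x.2⟩ : A)) = Subtype.val := rfl
    rw [this, List.attach_map_subtype_val]

lemma ball_mono {m n : ℕ} (h : m ≤ n) : ball X m ⊆ ball X n := by
  rintro g ⟨l, h1, h2, h3⟩
  exact ⟨l, h1.trans h, h2, h3⟩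

lemma ball_sub {Y : Set G} (h : X ⊆ Y) (n : ℕ) : ball X n ⊆ ball Y n := by
  rintro g ⟨l, h1, h2, h3⟩
  exact ⟨l, h1, fun x hx => (h2 x hx).imp (fun q => h q) (fun q => h q), h3⟩

lemma one_mem_ball (n : ℕ) : (1 : G) ∈ ball X n := ⟨[], by simp, by simp, rfl⟩

lemma mul_mem_ball {m n : ℕ} {a b : G} (ha : a ∈ ball X m) (hb : b ∈ ball X n) :
    a * b ∈ ball X (m + n) := by
  obtain ⟨l, h1, h2, rfl⟩ := ha
  obtain ⟨l', h1', h2', rfl⟩ := hb
  refine ⟨l ++ l', by rw [List.length_append]; omega, ?_, List.prod_append⟩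
  intro x hx
  rcases List.mem_append.1 hx with h | h
  · exact h2 x h
  · exact h2' x h

lemma mem_ball_one {a : G} (ha : a ∈ X) : a ∈ ball X 1 :=
  ⟨[a], by simp, by simpa using Or.inl ha, by simp⟩

lemma inv_mem_ball {n : ℕ} {a : G} (ha : a ∈ ball X n) : a⁻¹ ∈ ball X n := by
  obtain ⟨l, h1, h2, rfl⟩ := ha
  refine ⟨(l.map fun x => x⁻¹).reverse, by simpa using h1, ?_, by rw [List.prod_inv_reverse]⟩
  intro x hx
  rw [List.mem_reverse, List.mem_map] at hx
  obtain ⟨y, hy, rfl⟩ := hx
  rw [inv_inv]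
  exact (h2 y hy).symm

lemma ball_map {K : Type} [Group K] (f : G →* K) {Y : Set K} (h : ∀ x ∈ X, f x ∈ Y) (n : ℕ) :
    ∀ g ∈ ball X n, f g ∈ ball Y n := by
  rintro _ ⟨l, h1, h2, rfl⟩
  refine ⟨l.map f, by simpa using h1, ?_, by rw [map_list_prod]⟩
  intro x hx
  obtain ⟨y, hy, rfl⟩ := List.mem_map.1 hx
  rcases h2 y hy with q | q
  · exact Or.inl (h y q)
  · right
    rw [← map_inv]
    exact h _ q

lemma ball_inj {K : Type} [Group K] (f : G →* K) (hf : Function.Injective f) {Y : Set K}
    (h : ∀ x ∈ X, f x ∈ Y) (hY : Y.Finite) (n : ℕ) : (ball X n).ncard ≤ (ball Y n).ncard := by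
  rw [← Set.ncard_image_of_injective _ hf]
  refine Set.ncard_le_ncard ?_ (ball_finite hY n)
  rintro _ ⟨g, hg, rfl⟩
  exact ball_map f h n g hg

lemma ball_surj {K : Type} [Group K] (f : G →* K) {Y : Set K} (hX : X.Finite)
    (h : ∀ y ∈ Y, ∃ x ∈ X, f x = y) (n : ℕ) : (ball Y n).ncard ≤ (ball X n).ncard := by
  refine (Set.ncard_le_ncard ?_ ((ball_finite hX n).image f)).trans
    (Set.ncard_image_le (ball_finite hX n))
  rintro _ ⟨l, h1, h2, rfl⟩
  have h3 : ∀ l : List K, (∀ x ∈ l, x ∈ Y ∨ x⁻¹ ∈ Y) → ∃ l' : List G, l'.length = l.length ∧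
      (∀ x ∈ l', x ∈ X ∨ x⁻¹ ∈ X) ∧ f l'.prod = l.prod := by
    intro l
    induction l with
    | nil => intro _; exact ⟨[], rfl, by simp, by simp⟩
    | cons a l ih =>
      intro hl
      obtain ⟨l', e1, e2, e3⟩ := ih fun x hx => hl x (List.mem_cons_of_mem _ hx)
      have h4 : ∃ b : G, (b ∈ X ∨ b⁻¹ ∈ X) ∧ f b = a := by
        rcases hl a List.mem_cons_self with q | q
        · obtain ⟨b, hb, hb'⟩ := h a q
          exact ⟨b, Or.inl hb, hb'⟩
        · obtain ⟨b, hb, hb'⟩ := h _ q
          exact ⟨b⁻¹, Or.inr (by rwa [inv_inv]), by rw [map_inv, hb', inv_inv]⟩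
      obtain ⟨b, hb, rfl⟩ := h4
      refine ⟨b :: l', by simp [e1], ?_, by rw [List.prod_cons, map_mul, e3, List.prod_cons]⟩
      intro x hx
      rcases List.mem_cons.1 hx with rfl | hx
      · exact hb
      · exact e2 x hx
  obtain ⟨l', e1, e2, e3⟩ := h3 l h2
  exact ⟨l'.prod, ⟨l', by omega, e2, rfl⟩, e3⟩

/-- labels of products -/
lemma lab_ball {Ω : Type} {Y : Set (Wr G Ω)} (h : ∀ y ∈ Y, ∀ i, lab y i ∈ ball X 1) (n : ℕ) :
    ∀ γ ∈ ball Y n, ∀ i, lab γ i ∈ ball X n := by
  rintro _ ⟨l, h1, h2, rfl⟩ i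
  refine ball_mono h1 ?_
  clear h1
  induction l generalizing i with
  | nil => exact one_mem_ball _
  | cons a l ih =>
    have ha : ∀ j, lab a j ∈ ball X 1 := by
      intro j
      rcases h2 a List.mem_cons_self with q | q
      · exact h a q j
      · have e := lab_inv a⁻¹ (a.right j)
        rw [right_inv', inv_inv] at e
        rw [e]
        exact inv_mem_ball (h _ q _)
    rw [List.prod_cons, lab_mul, List.length_cons, add_comm]
    exact mul_mem_ball (ha _) (ih (fun x hx => h2 x (List.mem_cons_of_mem _ hx)) i)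

/-- the growth of a subgroup of a wreath product -/
lemma growth_wr {k : ℕ} {Y : Set (Wr G (Fin k))} (hX : X.Finite)
    (h : ∀ y ∈ Y, ∀ i, lab y i ∈ ball X 1) (n : ℕ) :
    (ball Y n).ncard ≤ k.factorial * (ball X n).ncard ^ k := by
  classical
  have := (ball_finite hX n).to_subtype
  let F : ball Y n → Equiv.Perm (Fin k) × (Fin k → ball X n) :=
    fun γ => (γ.1.right, fun i => ⟨lab γ.1 i, lab_ball h n γ.1 γ.2 i⟩)
  have hF : Function.Injective F := by
    intro γ δ hγδ
    apply Subtype.ext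
    apply ext_iff'
    · intro i
      exact congrArg (fun p => p.1 i) hγδ
    · intro i
      exact congrArg (fun p => ((p.2 i : ball X n) : G)) hγδ
  have h1 := Nat.card_le_card_of_injective F hF
  rw [Nat.card_prod, Nat.card_perm, Nat.card_fun, Nat.card_eq_fintype_card (α := Fin k),
    Fintype.card_fin] at h1
  exact h1

end

/-- images of virtually nilpotent groups under the labels -/
lemma vn_of_T {G : Type} [Group G] {Ω : Type} {Γ : Subgroup (Wr G Ω)} {i j : Ω}
    (hT : (T Γ i j).FiniteIndex) (h : VN Γ) : VN G := by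
  obtain ⟨H, hH, hn⟩ := h
  let U : Subgroup Γ :=
    { carrier := {γ | (γ : Wr G Ω).right i = i}
      one_mem' := rfl
      mul_mem' := by
        rintro γ δ h1 h2
        show ((γ : Wr G Ω) * (δ : Wr G Ω)).right i = i
        rw [right_mul', show (δ : Wr G Ω).right i = i from h2]
        exact h1
      inv_mem' := by
        rintro γ h1
        have := right_inv' (γ : Wr G Ω) i
        rwa [show (γ : Wr G Ω).right i = i from h1] at this }
  let φ : U →* G :=
    { toFun := fun γ => lab ((γ : Γ) : Wr G Ω) i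
      map_one' := rfl
      map_mul' := by
        rintro ⟨γ, hγ⟩ ⟨δ, hδ⟩
        show lab ((γ : Wr G Ω) * (δ : Wr G Ω)) i = _
        rw [lab_mul, show (δ : Wr G Ω).right i = i from hδ] }
  have hr : T Γ i j ≤ φ.range := by
    rintro g ⟨γ, h1, h2, -, h3, -⟩
    exact ⟨⟨⟨γ, h1⟩, h2⟩, h3⟩
  have hr' : φ.range.FiniteIndex := finiteIndex_of_le' hr hT
  have h1 : (H.subgroupOf U).FiniteIndex := inferInstance
  refine ⟨(H.subgroupOf U).map φ, ⟨?_⟩, ?_⟩
  · rw [Subgroup.index_map]
    refine mul_ne_zero ?_ hr'.index_ne_zero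
    have : (H.subgroupOf U ⊔ φ.ker).FiniteIndex := finiteIndex_of_le' le_sup_left h1
    exact this.index_ne_zero
  · let ι : H.subgroupOf U →* H :=
      { toFun := fun x => ⟨((x : U) : Γ), x.2⟩
        map_one' := rfl
        map_mul' := fun _ _ => rfl }
    have hι : Function.Injective ι := by
      intro x y hxy
      apply Subtype.ext
      apply Subtype.ext
      have h1 := congrArg (fun z : H => (z : Γ)) hxy
      exact h1
    have h2 : Group.IsNilpotent (H.subgroupOf U) := Pool.Agent.H45R3.UG.nil_inj ι hι hn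
    exact Group.nilpotent_of_surjective (φ.subgroupMap (H.subgroupOf U))
      (φ.subgroupMap_surjective _)

/-- virtually nilpotent groups have virtually nilpotent images -/
lemma vn_surj {G Q : Type} [Group G] [Group Q] (f : G →* Q) (hf : Function.Surjective f)
    (h : VN G) : VN Q := by
  obtain ⟨H, hH, hn⟩ := h
  refine ⟨H.map f, ⟨fun h0 => ?_⟩, Group.nilpotent_of_surjective (f.subgroupMap H)
    (f.subgroupMap_surjective _)⟩
  have h1 : (H.map f).index ∣ H.index := Subgroup.index_map_dvd H hf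
  rw [h0] at h1
  exact hH.index_ne_zero (Nat.eq_zero_of_zero_dvd h1)

/-- each entry is outside of the subgroup generated by the later ones -/
def Ind {G : Type} [Group G] : List G → Prop
  | [] => True
  | a :: l => a ∉ Subgroup.closure {x | x ∈ l} ∧ Ind l

lemma exists_ind {G : Type} [Group G] (X : Finset G) : ∃ l : List G, Ind l ∧ (∀ x ∈ l, x ∈ X) ∧
    (X : Set G) ⊆ Subgroup.closure {x | x ∈ l} := by
  classical
  induction X using Finset.induction_on with
  | empty => exact ⟨[], trivial, by simp, by simp⟩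
  | insert a X _ ih =>
    obtain ⟨l, h1, h2, h3⟩ := ih
    by_cases ha : a ∈ Subgroup.closure {x | x ∈ l}
    · refine ⟨l, h1, fun x hx => Finset.mem_insert_of_mem (h2 x hx), ?_⟩
      intro x hx
      rcases Finset.mem_insert.1 (Finset.mem_coe.1 hx) with rfl | hx
      · exact ha
      · exact h3 hx
    · refine ⟨a :: l, ⟨ha, h1⟩, ?_, ?_⟩
      · intro x hx
        rcases List.mem_cons.1 hx with rfl | hx
        · exact Finset.mem_insert_self _ _
        · exact Finset.mem_insert_of_mem (h2 x hx)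
      · intro x hx
        rcases Finset.mem_insert.1 (Finset.mem_coe.1 hx) with rfl | hx
        · exact Subgroup.subset_closure (List.mem_cons_self)
        · have hsub : ({x | x ∈ l} : Set G) ⊆ {x | x ∈ a :: l} :=
            fun z hz => List.mem_cons_of_mem _ hz
          exact Subgroup.closure_mono hsub (h3 hx)

lemma ind_ball {G : Type} [Group G] (l : List G) (h : Ind l) :
    ∃ P : Finset G, P.card = 2 ^ l.length ∧ (∀ p ∈ P, p ∈ Subgroup.closure {x | x ∈ l}) ∧
      ∀ p ∈ P, p ∈ ball {x | x ∈ l} l.length := by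
  classical
  induction l with
  | nil => 
    refine ⟨{1}, by simp, ?_, ?_⟩
    · intro p hp
      rw [Finset.mem_singleton.1 hp]; exact Subgroup.one_mem _
    · intro p hp
      rw [Finset.mem_singleton.1 hp]; exact one_mem_ball _
  | cons a l ih =>
    obtain ⟨P, h1, h2, h3⟩ := ih h.2
    have hsub : ({x | x ∈ l} : Set G) ⊆ {x | x ∈ a :: l} :=
      fun z hz => List.mem_cons_of_mem _ hz
    refine ⟨P ∪ P.image (fun p => a * p), ?_, ?_, ?_⟩
    · rw [Finset.card_union_of_disjoint, Finset.card_image_of_injective _ (mul_right_injective a),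
        h1, List.length_cons, pow_succ]
      · ring
      · rw [Finset.disjoint_left]
        intro p hp hp'
        obtain ⟨q, hq, rfl⟩ := Finset.mem_image.1 hp'
        apply h.1
        have := Subgroup.mul_mem _ (h2 _ hp) (Subgroup.inv_mem _ (h2 _ hq))
        rwa [mul_inv_cancel_right] at this
    · intro p hp
      rcases Finset.mem_union.1 hp with hp | hp
      · exact Subgroup.closure_mono hsub (h2 p hp)
      · obtain ⟨q, hq, rfl⟩ := Finset.mem_image.1 hp
        exact Subgroup.mul_mem _ (Subgroup.subset_closure (List.mem_cons_self))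
          (Subgroup.closure_mono hsub (h2 q hq))
    · intro p hp
      rcases Finset.mem_union.1 hp with hp | hp
      · exact ball_mono (by simp) (ball_sub hsub _ (h3 p hp))
      · obtain ⟨q, hq, rfl⟩ := Finset.mem_image.1 hp
        rw [List.length_cons, add_comm]
        exact mul_mem_ball (mem_ball_one List.mem_cons_self) (ball_sub hsub _ (h3 q hq))

lemma ind_drop {G : Type} [Group G] (l : List G) (h : Ind l) (k : ℕ) : Ind (l.drop k) := by
  induction l generalizing k with
  | nil => rw [List.drop_nil]; trivial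
  | cons a l ih =>
    cases k with
    | zero => exact h
    | succ k => exact ih h.2 k

lemma ind_growth {G : Type} [Group G] {X : Set G} (hX : X.Finite) (l : List G) (h : Ind l)
    (hl : ∀ x ∈ l, x ∈ X) (m : ℕ) (hm : m ≤ l.length) : 2 ^ m ≤ (ball X m).ncard := by
  obtain ⟨P, h1, -, h3⟩ := ind_ball _ (ind_drop l h (l.length - m))
  have e : (l.drop (l.length - m)).length = m := by
    rw [List.length_drop]; omega
  rw [e] at h1 h3
  rw [← h1, ← Set.ncard_coe_finset]
  refine Set.ncard_le_ncard ?_ (ball_finite hX m)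
  intro p hp
  refine ball_sub ?_ m (h3 p hp)
  intro x hx
  exact hl x (List.mem_of_mem_drop hx)

end Pool.Agent.Q11.FM
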