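import Pool.Agent.Q11.FM.GrBall

/-!
# The reduction to quotients of the triangle group (2, 3, 7)
-/

set_option autoImplicit false

namespace Pool.Agent.Q11.FM

open Wr
open Pool.Agent.Q220.GR (VN JNVN exists_jnvn)
open scoped commutatorElement

lemma fg_pair {H : Type} [Group H] {a b : H} (h : Subgroup.closure {a, b} = ⊤) : Group.FG H :=
  Group.fg_iff.2 ⟨{a, b}, h, Set.toFinite _⟩

/-- classes of groups closed under subgroups, quotients, finite direct powers, finite extensions -/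
structure Cls (P : (G : Type) → [Group G] → Prop) : Prop where
  sub : ∀ (G H : Type) [Group G] [Group H] (f : H →* G), Function.Injective f → P G → P H
  quot : ∀ (G Q : Type) [Group G] [Group Q] (f : G →* Q), Function.Surjective f → P G → P Q
  pow : ∀ (G : Type) [Group G] (m : ℕ), P G → P (Fin m → G)
  ext : ∀ (G : Type) [Group G] (N : Subgroup G), N.Normal → N.FiniteIndex → P N → P G

lemma Cls.wr {P : (G : Type) → [Group G] → Prop} (hP : Cls P) {G : Type} [Group G] (h : P G)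
    (k : ℕ) (Γ : Subgroup (Wr G (Fin k))) : P Γ := by
  refine hP.sub _ _ Γ.subtype Γ.subtype_injective ?_
  let ρ : Wr G (Fin k) →* Equiv.Perm (Fin k) := SemidirectProduct.rightHom
  refine hP.ext _ ρ.ker inferInstance (Subgroup.finiteIndex_ker ρ) ?_
  let f : ρ.ker →* (Fin k → G) :=
    { toFun := fun γ => (γ : Wr G (Fin k)).left
      map_one' := rfl
      map_mul' := by
        rintro ⟨γ, hγ⟩ ⟨δ, hδ⟩
        show (γ * δ).left = γ.left * δ.left
        rw [SemidirectProduct.mul_left, show γ.right = 1 from hγ, map_one]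
        rfl }
  refine hP.sub _ _ f ?_ (hP.pow G k h)
  rintro ⟨γ, hγ⟩ ⟨δ, hδ⟩ hγδ
  apply Subtype.ext
  apply SemidirectProduct.ext
  · exact hγδ
  · rw [show γ.right = 1 from hγ, show δ.right = 1 from hδ]

lemma comm_fi {H : Type} [Group H] {a b : H} (ha : a ^ 2 = 1) (hb : b ^ 3 = 1)
    (h : Subgroup.closure {a, b} = ⊤) : (⁅(⊤ : Subgroup H), (⊤ : Subgroup H)⁆).FiniteIndex := by
  have hfg : Group.FG H := fg_pair h
  have h6 : ∀ z : H, (Abelianization.of z) ^ 6 = 1 := by
    intro z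
    have hz : z ∈ Subgroup.closure {a, b} := by rw [h]; trivial
    induction hz using Subgroup.closure_induction with
    | mem x hx =>
      rcases hx with rfl | rfl
      · rw [← map_pow, show (6 : ℕ) = 2 * 3 from rfl, pow_mul, ha, one_pow, map_one]
      · rw [← map_pow, show (6 : ℕ) = 3 * 2 from rfl, pow_mul, hb, one_pow, map_one]
    | one => rw [map_one, one_pow]
    | mul x y _ _ hx hy => rw [map_mul, mul_pow, hx, hy, one_mul]
    | inv x _ hx => rw [map_inv, inv_pow, hx, inv_one]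
  have hsurj : Function.Surjective (Abelianization.of : H →* Abelianization H) :=
    QuotientGroup.mk'_surjective _
  have hfg' : Group.FG (Abelianization H) := Group.fg_of_surjective hsurj
  have htor : IsMulTorsion (Abelianization H) := by
    intro z
    obtain ⟨w, rfl⟩ := hsurj z
    exact isOfFinOrder_iff_pow_eq_one.2 ⟨6, by norm_num, h6 w⟩
  have hfin : Finite (Abelianization H) := CommGroup.finite_of_fg_isMulTorsion _ htor
  have h2 : (commutator H).FiniteIndex := by
    have : Finite (H ⧸ commutator H) := hfin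
    exact Subgroup.finiteIndex_of_finite_quotient
  rw [commutator_def] at h2
  exact h2

/-- growth of a subgroup with its labels -/
lemma growth_sub {G : Type} [Group G] {X : Set G} {k : ℕ} {Γ : Subgroup (Wr G (Fin k))}
    {Y : Set Γ} (hY : Y.Finite) (hX : X.Finite)
    (h : ∀ y ∈ Y, ∀ i, lab (y : Wr G (Fin k)) i ∈ ball X 1) (n : ℕ) :
    (ball Y n).ncard ≤ k.factorial * (ball X n).ncard ^ k := by
  refine (ball_inj Γ.subtype Γ.subtype_injective (Y := Γ.subtype '' Y)
    (fun x hx => ⟨x, hx, rfl⟩) (hY.image _) n).trans (growth_wr hX ?_ n)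
  rintro _ ⟨y, hy, rfl⟩ i
  exact h y hy i

lemma step1 {P : (G : Type) → [Group G] → Prop} (hP : Cls P) {G : Type} [Group G] (hPG : P G)
    (hG : ¬ VN G) (d : ℕ) (g : Fin d → G)
    (hg : Subgroup.closure (Set.range g) = ⊤) :
    ∃ (H : Type) (_ : Group H) (x y z : H), Subgroup.closure {x, y, z} = ⊤ ∧ P H ∧ ¬ VN H ∧
      ∀ n, (ball ({x, y, z} : Set H) n).ncard ≤
        (d + 2).factorial * (ball (Set.range g) n).ncard ^ (d + 2) := by
  obtain ⟨x, y, z, hl1, hT1⟩ := three_pair d g hg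
  have h01 : (1 : Fin (d + 2)) ≠ 0 := by
    intro h
    have := congrArg Fin.val h
    simp at this
  have hvn1 : ¬ VN (Subgroup.closure {x, y, z}) := by
    intro h
    apply hG
    refine vn_of_T (i := 0) (j := 1) ?_ h
    rw [hT1 0 1 h01]
    infer_instance
  obtain ⟨x', y', z', hx', hy', hz', hgen1⟩ := closure_triple_top x y z
  refine ⟨Subgroup.closure {x, y, z}, inferInstance, x', y', z', hgen1,
    hP.wr hPG _ _, hvn1, ?_⟩
  refine growth_sub (Set.toFinite _) (Set.finite_range g) ?_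
  have hl := hl1 (ball (Set.range g) 1) (one_mem_ball 1)
    (fun i => mem_ball_one (Set.mem_range_self i))
  rintro w (rfl | rfl | rfl) i
  · rw [hx']; exact (hl i).1
  · rw [hy']; exact (hl i).2.1
  · rw [hz']; exact (hl i).2.2

lemma step2 {P : (G : Type) → [Group G] → Prop} (hP : Cls P) {G : Type} [Group G] (hPG : P G)
    (hG : ¬ VN G) (u v w : G)
    (hg : Subgroup.closure {u, v, w} = ⊤) :
    ∃ (H : Type) (_ : Group H) (x y : H), x ^ 2 = 1 ∧ y ^ 3 = 1 ∧
      Subgroup.closure {x, y} = ⊤ ∧ P H ∧ ¬ VN H ∧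
      ∀ n, (ball ({x, y} : Set H) n).ncard ≤
        Nat.factorial 18 * (ball ({u, v, w} : Set G) n).ncard ^ 18 := by
  obtain ⟨p, q, hp, hq, hl2, -, hT2⟩ := A18.pair u v w hg
  have hvn2 : ¬ VN (Subgroup.closure {p, q}) := by
    intro h
    apply hG
    refine vn_of_T (i := 0) (j := 1) ?_ h
    rw [hT2]
    infer_instance
  obtain ⟨p', q', hp', hq', hgen2⟩ := closure_pair_top p q
  refine ⟨Subgroup.closure {p, q}, inferInstance, p', q', ?_, ?_, hgen2,
    hP.wr hPG _ _, hvn2, ?_⟩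
  · apply Subtype.ext
    rw [Subgroup.coe_pow, hp', hp]; rfl
  · apply Subtype.ext
    rw [Subgroup.coe_pow, hq', hq]; rfl
  · refine growth_sub (Set.toFinite _) (Set.toFinite _) ?_
    have hl := hl2 (ball {u, v, w} 1) (one_mem_ball 1) (mem_ball_one (by simp))
      (inv_mem_ball (mem_ball_one (by simp))) (mem_ball_one (by simp))
      (inv_mem_ball (mem_ball_one (by simp))) (mem_ball_one (by simp))
      (inv_mem_ball (mem_ball_one (by simp)))
    rintro w (rfl | rfl) i
    · rw [hp']; exact (hl i).1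
    · rw [hq']; exact (hl i).2

lemma step3 {P : (G : Type) → [Group G] → Prop} (hP : Cls P) {G : Type} [Group G] (hPG : P G)
    (hG : ¬ VN G) (p q : G) (hp : p ^ 2 = 1) (hq : q ^ 3 = 1)
    (hg : Subgroup.closure {p, q} = ⊤) :
    ∃ (H : Type) (_ : Group H) (x y : H), x ^ 2 = 1 ∧ y ^ 3 = 1 ∧ (x * y) ^ 7 = 1 ∧
      Subgroup.closure {x, y} = ⊤ ∧ P H ∧ ¬ VN H ∧
      ∀ n, (ball ({x, y} : Set H) n).ncard ≤
        Nat.factorial 14 * (ball ({p, q} : Set G) n).ncard ^ 14 := by
  obtain ⟨a, b, ha, hb, hab, hl3, -, hT3⟩ := A14.pair p q hp hq hg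
  have hvn3 : ¬ VN (Subgroup.closure {a, b}) := by
    intro h
    apply hG
    exact vn_of_T (i := 0) (j := 1) (finiteIndex_of_le' hT3 (comm_fi hp hq hg)) h
  obtain ⟨a', b', ha', hb', hgen3⟩ := closure_pair_top a b
  refine ⟨Subgroup.closure {a, b}, inferInstance, a', b', ?_, ?_, ?_, hgen3,
    hP.wr hPG _ _, hvn3, ?_⟩
  · apply Subtype.ext
    rw [Subgroup.coe_pow, ha', ha]; rfl
  · apply Subtype.ext
    rw [Subgroup.coe_pow, hb', hb]; rfl
  · apply Subtype.ext
    rw [Subgroup.coe_pow, Subgroup.coe_mul, ha', hb', hab]; rfl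
  · refine growth_sub (Set.toFinite _) (Set.toFinite _) ?_
    have hl := hl3 (ball {p, q} 1) (one_mem_ball 1) (mem_ball_one (by simp))
      (mem_ball_one (by simp)) (inv_mem_ball (mem_ball_one (by simp)))
    rintro w (rfl | rfl) i
    · rw [ha']; exact (hl i).1
    · rw [hb']; exact (hl i).2

lemma step4 {P : (G : Type) → [Group G] → Prop} (hP : Cls P) {G : Type} [Group G] (hPG : P G)
    (hG : ¬ VN G) (a b : G) (ha : a ^ 2 = 1) (hb : b ^ 3 = 1)
    (hab : (a * b) ^ 7 = 1) (hg : Subgroup.closure {a, b} = ⊤) :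
    ∃ (H : Type) (_ : Group H) (x y : H), x ^ 2 = 1 ∧ y ^ 3 = 1 ∧ (x * y) ^ 7 = 1 ∧
      Subgroup.closure {x, y} = ⊤ ∧ P H ∧ JNVN H ∧
      ∀ n, (ball ({x, y} : Set H) n).ncard ≤ (ball ({a, b} : Set G) n).ncard := by
  have hfg : Group.FG G := fg_pair hg
  obtain ⟨N, hN, hJ⟩ := exists_jnvn hfg hG
  let π : G →* G ⧸ N := QuotientGroup.mk' N
  have hπ : Function.Surjective π := QuotientGroup.mk'_surjective N
  refine ⟨G ⧸ N, inferInstance, π a, π b, ?_, ?_, ?_, ?_, hP.quot _ _ π hπ hPG, hJ, ?_⟩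
  · rw [← map_pow, ha, map_one]
  · rw [← map_pow, hb, map_one]
  · rw [← map_mul, ← map_pow, hab, map_one]
  · have h1 : ({π a, π b} : Set (G ⧸ N)) = π '' {a, b} := by
      rw [Set.image_insert_eq, Set.image_singleton]
    rw [h1, ← MonoidHom.map_closure, hg, ← MonoidHom.range_eq_map, MonoidHom.range_eq_top]
    exact hπ
  · refine ball_surj π (X := {a, b}) (Set.toFinite _) ?_
    rintro w (rfl | rfl)
    · exact ⟨a, by simp, rfl⟩
    · exact ⟨b, by simp, rfl⟩

/-- **The reduction.** -/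
theorem core {P : (G : Type) → [Group G] → Prop} (hP : Cls P) {G : Type} [Group G] (hPG : P G)
    (hG : ¬ VN G) (d : ℕ) (g : Fin d → G)
    (hg : Subgroup.closure (Set.range g) = ⊤) :
    ∃ (Q : Type) (_ : Group Q) (x y : Q), x ^ 2 = 1 ∧ y ^ 3 = 1 ∧ (x * y) ^ 7 = 1 ∧
      Subgroup.closure {x, y} = ⊤ ∧ P Q ∧ JNVN Q ∧
      ∀ n, (ball ({x, y} : Set Q) n).ncard ≤ Nat.factorial 14 * (Nat.factorial 18 *
        ((d + 2).factorial * (ball (Set.range g) n).ncard ^ (d + 2)) ^ 18) ^ 14 := by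
  obtain ⟨H1, _, x, y, z, hg1, hP1, hv1, h1⟩ := step1 hP hPG hG d g hg
  obtain ⟨H2, _, p, q, hp, hq, hg2, hP2, hv2, h2⟩ := step2 hP hP1 hv1 x y z hg1
  obtain ⟨H3, _, a, b, ha, hb, hab, hg3, hP3, hv3, h3⟩ := step3 hP hP2 hv2 p q hp hq hg2
  obtain ⟨H4, _, a', b', ha', hb', hab', hg4, hP4, hJ, h4⟩ := step4 hP hP3 hv3 a b ha hb hab hg3
  refine ⟨H4, inferInstance, a', b', ha', hb', hab', hg4, hP4, hJ, fun n => ?_⟩
  refine (h4 n).trans ((h3 n).trans ?_)
  apply Nat.mul_le_mul_left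
  apply Nat.pow_le_pow_left
  refine (h2 n).trans ?_
  apply Nat.mul_le_mul_left
  apply Nat.pow_le_pow_left
  exact h1 n

end Pool.Agent.Q11.FM
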