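import Pool.Agent.Q11.FM.GrCore

/-!
# Growth of a group and of a quotient of the triangle group (2, 3, 7)
-/

set_option autoImplicit false
set_option maxRecDepth 100000

namespace Pool.Agent.Q11.FM

open Wr

/-- classes of groups closed under subgroups, finite direct powers, finite extensions -/
structure Cls' (P : (G : Type) → [Group G] → Prop) : Prop where
  sub : ∀ (G H : Type) [Group G] [Group H] (f : H →* G), Function.Injective f → P G → P H
  pow : ∀ (G : Type) [Group G] (m : ℕ), P G → P (Fin m → G)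
  ext : ∀ (G : Type) [Group G] (N : Subgroup G), N.Normal → N.FiniteIndex → P N → P G

lemma Cls'.wr {P : (G : Type) → [Group G] → Prop} (hP : Cls' P) {G : Type} [Group G] (h : P G)
    (k : ℕ) (Γ : Subgroup (Wr G (Fin k))) : P Γ := by
  refine hP.sub _ _ Γ.subtype Γ.subtype_injective ?_
  let ρ : Wr G (Fin k) →* Equiv.Perm (Fin k) := SemidirectProduct.rightHom
  refine hP.ext _ ρ.ker inferInstance (Subgroup.finiteIndex_ker ρ) ?_
  let f : ρ.ker →* (Fin k → G) :=
    { toFun := fun γ => (γ : Wr G (Fin k)).left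
      map_one' := rfl
      map_mul' := by
        rintro ⟨γ, hγ⟩ ⟨δ, hδ⟩
        show (γ * δ).left = γ.left * δ.left
        rw [SemidirectProduct.mul_left, show γ.right = 1 from hγ, map_one]
        rfl }
  refine hP.sub _ _ f ?_ (hP.pow G k h)
  rintro ⟨γ, hγ⟩ ⟨δ, hδ⟩ hγδ
  apply Subtype.ext
  apply SemidirectProduct.ext
  · exact hγδ
  · rw [show γ.right = 1 from hγ, show δ.right = 1 from hδ]

section
variable {G : Type} [Group G] {X : Set G}

lemma exists_mem_ball (h : Subgroup.closure X = ⊤) (g : G) : ∃ n, g ∈ ball X n := by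
  have hg : g ∈ Subgroup.closure X := by rw [h]; trivial
  induction hg using Subgroup.closure_induction with
  | mem x hx => exact ⟨1, mem_ball_one hx⟩
  | one => exact ⟨0, one_mem_ball 0⟩
  | mul x y _ _ hx hy =>
    obtain ⟨m, hm⟩ := hx
    obtain ⟨n, hn⟩ := hy
    exact ⟨m + n, mul_mem_ball hm hn⟩
  | inv x _ hx =>
    obtain ⟨m, hm⟩ := hx
    exact ⟨m, inv_mem_ball hm⟩

/-- lower bounds for the growth from labels at a fixed point -/
lemma growth_low {k : ℕ} {Γ : Subgroup (Wr G (Fin k))} {Y : Set Γ} (hY : Y.Finite)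
    (hYt : Subgroup.closure Y = ⊤) (hX : X.Finite) (i : Fin k)
    (h : ∀ x ∈ X, ∃ γ ∈ Γ, γ.right i = i ∧ lab γ i = x) :
    ∃ C : ℕ, ∀ n, (ball X n).ncard ≤ (ball Y (C * n)).ncard := by
  have h1 : ∀ x ∈ X, ∃ c : ℕ, ∃ γ ∈ ball Y c, (γ : Wr G (Fin k)).right i = i ∧
      lab (γ : Wr G (Fin k)) i = x := by
    intro x hx
    obtain ⟨γ, h2, h3, h4⟩ := h x hx
    obtain ⟨c, hc⟩ := exists_mem_ball hYt (⟨γ, h2⟩ : Γ)
    exact ⟨c, _, hc, h3, h4⟩
  have h2 : ∃ C : ℕ, ∀ x ∈ X, ∃ γ ∈ ball Y C, (γ : Wr G (Fin k)).right i = i ∧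
      lab (γ : Wr G (Fin k)) i = x := by
    induction X, hX using Set.Finite.induction_on with
    | empty => exact ⟨0, fun x hx => hx.elim⟩
    | @insert a s _ _ ih =>
      obtain ⟨C, hC⟩ := ih (fun x hx => h x (Set.mem_insert_of_mem _ hx))
        (fun x hx => h1 x (Set.mem_insert_of_mem _ hx))
      obtain ⟨c, γ, h3, h4⟩ := h1 a (Set.mem_insert _ _)
      refine ⟨C + c, fun x hx => ?_⟩
      rcases hx with rfl | hx
      · exact ⟨γ, ball_mono (by omega) h3, h4⟩
      · obtain ⟨δ, h5, h6⟩ := hC x hx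
        exact ⟨δ, ball_mono (by omega) h5, h6⟩
  obtain ⟨C, hC⟩ := h2
  refine ⟨C, fun n => ?_⟩
  refine (Set.ncard_le_ncard ?_ ((ball_finite hY (C * n)).image
    fun γ : Γ => lab (γ : Wr G (Fin k)) i)).trans (Set.ncard_image_le (ball_finite hY (C * n)))
  rintro _ ⟨l, h1, h2, rfl⟩
  have h3 : ∀ x : G, (x ∈ X ∨ x⁻¹ ∈ X) → ∃ γ ∈ ball Y C, (γ : Wr G (Fin k)).right i = i ∧
      lab (γ : Wr G (Fin k)) i = x := by
    rintro x (hx | hx)
    · exact hC x hx
    · obtain ⟨γ, h4, h5, h6⟩ := hC _ hx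
      refine ⟨γ⁻¹, inv_mem_ball h4, ?_, ?_⟩
      · have := right_inv' (γ : Wr G (Fin k)) i
        rwa [h5] at this
      · have := lab_inv (γ : Wr G (Fin k)) i
        rw [h5, h6, inv_inv] at this
        exact this
  have h4 : ∀ l : List G, (∀ x ∈ l, x ∈ X ∨ x⁻¹ ∈ X) → ∃ γ ∈ ball Y (C * l.length),
      (γ : Wr G (Fin k)).right i = i ∧ lab (γ : Wr G (Fin k)) i = l.prod := by
    intro l
    induction l with
    | nil => intro _; exact ⟨1, one_mem_ball _, rfl, rfl⟩
    | cons a l ih =>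
      intro hl
      obtain ⟨γ, e1, e2, e3⟩ := ih fun x hx => hl x (List.mem_cons_of_mem _ hx)
      obtain ⟨δ, e4, e5, e6⟩ := h3 a (hl a List.mem_cons_self)
      refine ⟨δ * γ, ?_, ?_, ?_⟩
      · rw [List.length_cons, mul_add, mul_one, add_comm]
        exact mul_mem_ball e4 e1
      · show ((δ : Wr G (Fin k)) * (γ : Wr G (Fin k))).right i = i
        rw [right_mul', e2, e5]
      · show lab ((δ : Wr G (Fin k)) * (γ : Wr G (Fin k))) i = _
        rw [lab_mul, e2, e6, e3, List.prod_cons]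
  obtain ⟨γ, e1, -, e3⟩ := h4 l h2
  exact ⟨γ, ball_mono (Nat.mul_le_mul_left C h1) e1, e3⟩

end

namespace A14

def wa : List (Fin 3) := [1, 0, 1, 0, 1, 0, 2, 0, 2, 0, 2]
def wb : List (Fin 3) := [0, 1, 0, 1, 0, 2, 0]

lemma wa_spec : run s t t' wa 0 = 0 ∧ labs s t t' ls lt lt' wa 0 = [0] := by decide +kernel
lemma wb_spec : run s t t' wb 0 = 0 ∧ labs s t t' ls lt lt' wb 0 = [1] := by decide +kernel

/-- the labelled permutations of the pair, with the labels at a fixed point -/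
theorem pair' {G : Type} [Group G] (a b : G) (ha : a ^ 2 = 1) (hb : b ^ 3 = 1) :
    ∃ x y : Wr G (Fin 14), x ^ 2 = 1 ∧ y ^ 3 = 1 ∧ (x * y) ^ 7 = 1 ∧
      (∀ S : Set G, 1 ∈ S → a ∈ S → b ∈ S → b⁻¹ ∈ S → ∀ i, lab x i ∈ S ∧ lab y i ∈ S) ∧
      (∃ γ ∈ Subgroup.closure {x, y}, γ.right 0 = 0 ∧ lab γ 0 = a) ∧
      (∃ γ ∈ Subgroup.closure {x, y}, γ.right 0 = 0 ∧ lab γ 0 = b) := by
  have ha1 : a * a = 1 := by rw [← pow_two]; exact ha
  have hb1 : b * b * b = 1 := by rw [← pow_two, ← pow_succ]; exact hb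
  have hb2 : b * (b * b) = 1 := by rw [← mul_assoc]; exact hb1
  have hb3 : b⁻¹ * (b⁻¹ * b⁻¹) = 1 := by
    rw [← mul_inv_rev, ← mul_inv_rev, hb1, inv_one]
  let φ : Fin 3 → G := ![a, b, b⁻¹]
  let x : Wr G (Fin 14) := el (fun i => ((ls i).map φ).prod) σ
  let y : Wr G (Fin 14) := el (fun i => ((lt i).map φ).prod) τ
  have hs : ∀ i, x.right i = s i := fun i => rfl
  have ht : ∀ i, y.right i = t i := fun i => rfl
  have ht' : ∀ i, (y⁻¹).right i = t' i := fun i => rfl
  have ks : ∀ i, lab x i = ((ls i).map φ).prod := fun i => el_lab _ _ _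
  have kt : ∀ i, lab y i = ((lt i).map φ).prod := fun i => el_lab _ _ _
  have kt' : ∀ i, lab y⁻¹ i = ((lt' i).map φ).prod := by
    intro i
    rw [el_inv_lab]
    show (((lt (t' i)).map φ).prod)⁻¹ = _
    fin_cases i <;> simp [lt, lt', t', φ]
  have hx : x ^ 2 = 1 := by
    apply ext_iff'
    · intro i
      rw [pow_two, right_mul', hs, hs]
      revert i
      exact show ∀ i, s (s i) = i by decide +kernel
    · intro i
      rw [pow_two, lab_mul, hs, ks, ks]
      show _ = (1 : G)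
      fin_cases i <;> simp [ls, s, φ, ha1]
  have hy : y ^ 3 = 1 := by
    apply ext_iff'
    · intro i
      rw [pow_succ, pow_two, right_mul', right_mul', ht, ht, ht]
      revert i
      exact show ∀ i, t (t (t i)) = i by decide +kernel
    · intro i
      rw [pow_succ, pow_two, lab_mul, lab_mul, kt, kt, kt, ht, ht]
      show _ = (1 : G)
      fin_cases i <;> simp [lt, t, φ, hb2, hb3, mul_assoc]
  have hlab : ∀ q i, lab (ev x y q) i = ((labs s t t' ls lt lt' q i).map φ).prod :=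
    labs_spec φ hs ht ht' ks kt kt'
  have hrun : ∀ q i, (ev x y q).right i = run s t t' q i := run_spec hs ht ht'
  have hxy : (x * y) ^ 7 = ev x y w7 := by
    simp only [w7, ev, pow_succ, pow_zero, one_mul, mul_one, mul_assoc]
    rfl
  have hxy1 : (x * y) ^ 7 = 1 := by
    rw [hxy]
    apply ext_iff'
    · intro i
      rw [hrun, w7_run]; rfl
    · intro i
      rw [hlab]
      show _ = (1 : G)
      rcases w7_labs i with h | h | h <;> rw [h] <;> simp [φ, ha1]
  refine ⟨x, y, hx, hy, hxy1, ?_, ?_, ?_⟩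
  · intro S h1 h2 h3 h4 i
    refine ⟨?_, ?_⟩
    · rw [ks]
      fin_cases i <;> simp [ls, φ, h1, h2]
    · rw [kt]
      fin_cases i <;> simp [lt, φ, h1, h3, h4]
  · refine ⟨ev x y wa, ev_mem x y _, ?_, ?_⟩
    · rw [hrun]; exact wa_spec.1
    · rw [hlab, wa_spec.2]; simp [φ]
  · refine ⟨ev x y wb, ev_mem x y _, ?_, ?_⟩
    · rw [hrun]; exact wb_spec.1
    · rw [hlab, wb_spec.2]; simp [φ]

end A14

/-- one step of the reduction: the growth before and after -/
def Near {G H : Type} [Group G] [Group H] (X : Set G) (Y : Set H) : Prop :=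
  ∃ C : ℕ, (∀ n, (ball X n).ncard ≤ (ball Y (C * n)).ncard) ∧
    ∀ n, (ball Y n).ncard ≤ C * (ball X n).ncard ^ C

lemma one_le_ball {G : Type} [Group G] {X : Set G} (hX : X.Finite) (n : ℕ) :
    1 ≤ (ball X n).ncard := by
  rw [Nat.one_le_iff_ne_zero, ← Nat.pos_iff_ne_zero, Set.ncard_pos (ball_finite hX n)]
  exact ⟨1, one_mem_ball n⟩

lemma Near.mk' {G H : Type} [Group G] [Group H] {X : Set G} {Y : Set H} (hX : X.Finite)
    (hY : Y.Finite) (A B C : ℕ) (h1 : ∀ n, (ball X n).ncard ≤ (ball Y (A * n)).ncard)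
    (h2 : ∀ n, (ball Y n).ncard ≤ B * (ball X n).ncard ^ C) : Near X Y := by
  refine ⟨A + B + C, fun n => ?_, fun n => ?_⟩
  · refine (h1 n).trans (Set.ncard_le_ncard (ball_mono ?_) (ball_finite hY _))
    exact Nat.mul_le_mul_right n (by omega)
  · refine (h2 n).trans (Nat.mul_le_mul (by omega) ?_)
    exact Nat.pow_le_pow_right (one_le_ball hX n) (by omega)

lemma Near.trans {G H K : Type} [Group G] [Group H] [Group K] {X : Set G} {Y : Set H} {Z : Set K}
    (hX : X.Finite) (hZ : Z.Finite) (h1 : Near X Y) (h2 : Near Y Z) : Near X Z := by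
  obtain ⟨C, a1, a2⟩ := h1
  obtain ⟨D, b1, b2⟩ := h2
  refine Near.mk' hX hZ (D * C) (D * C ^ D) (C * D) (fun n => ?_) (fun n => ?_)
  · refine (a1 n).trans ((b1 _).trans (le_of_eq ?_))
    rw [mul_assoc]
  · refine (b2 n).trans ?_
    calc D * (ball Y n).ncard ^ D ≤ D * (C * (ball X n).ncard ^ C) ^ D :=
          Nat.mul_le_mul_left _ (Nat.pow_le_pow_left (a2 n) _)
      _ = D * C ^ D * (ball X n).ncard ^ (C * D) := by rw [mul_pow, ← pow_mul, mul_assoc]

lemma low1 {P : (G : Type) → [Group G] → Prop} (hP : Cls' P) {G : Type} [Group G] (hPG : P G)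
    (d : ℕ) (g : Fin d → G) (hg : Subgroup.closure (Set.range g) = ⊤) :
    ∃ (H : Type) (_ : Group H) (x y z : H), Subgroup.closure {x, y, z} = ⊤ ∧ P H ∧
      Near (Set.range g) ({x, y, z} : Set H) := by
  obtain ⟨x, y, z, hl1, hT1⟩ := three_pair d g hg
  have h01 : (1 : Fin (d + 2)) ≠ 0 := by
    intro h
    have := congrArg Fin.val h
    simp at this
  obtain ⟨x', y', z', hx', hy', hz', hgen1⟩ := closure_triple_top x y z
  obtain ⟨C, hC⟩ := growth_low (Y := {x', y', z'}) (Set.toFinite _) hgen1 (Set.finite_range g)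
    (0 : Fin (d + 2)) (by
      intro u _
      have : u ∈ T (Subgroup.closure {x, y, z}) 0 1 := by rw [hT1 0 1 h01]; trivial
      obtain ⟨γ, h1, h2, -, h3, -⟩ := this
      exact ⟨γ, h1, h2, h3⟩)
  refine ⟨Subgroup.closure {x, y, z}, inferInstance, x', y', z', hgen1, hP.wr hPG _ _,
    Near.mk' (Set.finite_range g) (Set.toFinite _) C (d + 2).factorial (d + 2) hC ?_⟩
  refine growth_sub (Set.toFinite _) (Set.finite_range g) ?_
  have hl := hl1 (ball (Set.range g) 1) (one_mem_ball 1)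
    (fun i => mem_ball_one (Set.mem_range_self i))
  rintro w (rfl | rfl | rfl) i
  · rw [hx']; exact (hl i).1
  · rw [hy']; exact (hl i).2.1
  · rw [hz']; exact (hl i).2.2

lemma low2 {P : (G : Type) → [Group G] → Prop} (hP : Cls' P) {G : Type} [Group G] (hPG : P G)
    (u v w : G) (hg : Subgroup.closure {u, v, w} = ⊤) :
    ∃ (H : Type) (_ : Group H) (x y : H), x ^ 2 = 1 ∧ y ^ 3 = 1 ∧
      Subgroup.closure {x, y} = ⊤ ∧ P H ∧ Near ({u, v, w} : Set G) ({x, y} : Set H) := by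
  obtain ⟨p, q, hp, hq, hl2, -, hT2⟩ := A18.pair u v w hg
  obtain ⟨p', q', hp', hq', hgen2⟩ := closure_pair_top p q
  obtain ⟨C, hC⟩ := growth_low (X := ({u, v, w} : Set G)) (Y := {p', q'}) (Set.toFinite _) hgen2
    (Set.toFinite _) (0 : Fin 18) (by
      intro r _
      have : r ∈ T (Subgroup.closure {p, q}) 0 1 := by rw [hT2]; trivial
      obtain ⟨γ, h1, h2, -, h3, -⟩ := this
      exact ⟨γ, h1, h2, h3⟩)
  refine ⟨Subgroup.closure {p, q}, inferInstance, p', q', ?_, ?_, hgen2,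
    hP.wr hPG _ _, Near.mk' (Set.toFinite _) (Set.toFinite _) C (Nat.factorial 18) 18 hC ?_⟩
  · apply Subtype.ext
    rw [Subgroup.coe_pow, hp', hp]; rfl
  · apply Subtype.ext
    rw [Subgroup.coe_pow, hq', hq]; rfl
  · refine growth_sub (Set.toFinite _) (Set.toFinite _) ?_
    have hl := hl2 (ball {u, v, w} 1) (one_mem_ball 1) (mem_ball_one (by simp))
      (inv_mem_ball (mem_ball_one (by simp))) (mem_ball_one (by simp))
      (inv_mem_ball (mem_ball_one (by simp))) (mem_ball_one (by simp))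
      (inv_mem_ball (mem_ball_one (by simp)))
    rintro w (rfl | rfl) i
    · rw [hp']; exact (hl i).1
    · rw [hq']; exact (hl i).2

lemma low3 {P : (G : Type) → [Group G] → Prop} (hP : Cls' P) {G : Type} [Group G] (hPG : P G)
    (p q : G) (hp : p ^ 2 = 1) (hq : q ^ 3 = 1) :
    ∃ (H : Type) (_ : Group H) (x y : H), x ^ 2 = 1 ∧ y ^ 3 = 1 ∧ (x * y) ^ 7 = 1 ∧
      Subgroup.closure {x, y} = ⊤ ∧ P H ∧ Near ({p, q} : Set G) ({x, y} : Set H) := by
  obtain ⟨a, b, ha, hb, hab, hl3, hA, hB⟩ := A14.pair' p q hp hq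
  obtain ⟨a', b', ha', hb', hgen3⟩ := closure_pair_top a b
  obtain ⟨C, hC⟩ := growth_low (X := ({p, q} : Set G)) (Y := {a', b'}) (Set.toFinite _) hgen3
    (Set.toFinite _) (0 : Fin 14) (by
      rintro r (rfl | rfl)
      · exact hA
      · exact hB)
  refine ⟨Subgroup.closure {a, b}, inferInstance, a', b', ?_, ?_, ?_, hgen3,
    hP.wr hPG _ _, Near.mk' (Set.toFinite _) (Set.toFinite _) C (Nat.factorial 14) 14 hC ?_⟩
  · apply Subtype.ext
    rw [Subgroup.coe_pow, ha', ha]; rfl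
  · apply Subtype.ext
    rw [Subgroup.coe_pow, hb', hb]; rfl
  · apply Subtype.ext
    rw [Subgroup.coe_pow, Subgroup.coe_mul, ha', hb', hab]; rfl
  · refine growth_sub (Set.toFinite _) (Set.toFinite _) ?_
    have hl := hl3 (ball {p, q} 1) (one_mem_ball 1) (mem_ball_one (by simp))
      (mem_ball_one (by simp)) (inv_mem_ball (mem_ball_one (by simp)))
    rintro w (rfl | rfl) i
    · rw [ha']; exact (hl i).1
    · rw [hb']; exact (hl i).2

/-- **Every finitely generated group has the growth of a quotient of the triangle group.** -/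
theorem low {P : (G : Type) → [Group G] → Prop} (hP : Cls' P) {G : Type} [Group G] (hPG : P G)
    {X : Set G} (hX : X.Finite) (hgen : Subgroup.closure X = ⊤) :
    ∃ (Q : Type) (_ : Group Q) (x y : Q), x ^ 2 = 1 ∧ y ^ 3 = 1 ∧ (x * y) ^ 7 = 1 ∧
      Subgroup.closure {x, y} = ⊤ ∧ P Q ∧ Near X ({x, y} : Set Q) := by
  obtain ⟨d, g, rfl⟩ : ∃ (d : ℕ) (g : Fin d → G), Set.range g = X := by
    have := hX.to_subtype
    obtain ⟨d, ⟨e⟩⟩ := Finite.exists_equiv_fin X
    refine ⟨d, fun i => (e.symm i : G), ?_⟩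
    rw [show (fun i => (e.symm i : G)) = Subtype.val ∘ e.symm from rfl,
      e.symm.surjective.range_comp]
    exact Subtype.range_coe
  obtain ⟨H1, _, x, y, z, hg1, hP1, h1⟩ := low1 hP hPG d g hgen
  obtain ⟨H2, _, p, q, hp, hq, hg2, hP2, h2⟩ := low2 hP hP1 x y z hg1
  obtain ⟨H3, _, a, b, ha, hb, hab, hg3, hP3, h3⟩ := low3 hP hP2 p q hp hq
  exact ⟨H3, inferInstance, a, b, ha, hb, hab, hg3, hP3,
    (h1.trans hX (Set.toFinite _) h2).trans hX (Set.toFinite _) h3⟩

end Pool.Agent.Q11.FM
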