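import Pool.Agent.Q11.FM.FinIdx

/-!
# Groups with finitely many conjugacy classes: reduction to simple groups
-/

set_option autoImplicit false

namespace Pool.Agent.Q11.FM

universe u v

/-- normal subgroups of a group with finitely many conjugacy classes are normal closures of finite
sets -/
lemma normally_fg {G : Type u} [Group G] [Finite (ConjClasses G)] (N : Subgroup G) [hN : N.Normal] :
    N.IsFinitelyNormallyGenerated := by
  classical
  let f : ConjClasses G → G := fun c => Quotient.out c
  have hf : ∀ c, ConjClasses.mk (f c) = c := fun c => Quotient.out_eq c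
  refine ⟨Set.range f ∩ N, (Set.finite_range f).inter_of_left _, le_antisymm ?_ ?_⟩
  · exact Subgroup.normalClosure_le_normal Set.inter_subset_right
  · intro x hx
    have h1 : IsConj (f (ConjClasses.mk x)) x := ConjClasses.mk_eq_mk_iff_isConj.1 (hf _)
    obtain ⟨c, hc⟩ := isConj_iff.1 h1
    have h2 : f (ConjClasses.mk x) ∈ N := by
      have : f (ConjClasses.mk x) = c⁻¹ * x * c⁻¹⁻¹ := by
        generalize f (ConjClasses.mk x) = y at hc
        rw [← hc]; group
      rw [this]
      exact hN.conj_mem x hx _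
    have h3 : f (ConjClasses.mk x) ∈ Subgroup.normalClosure (Set.range f ∩ N) :=
      Subgroup.subset_normalClosure ⟨⟨_, rfl⟩, h2⟩
    have h4 := (Subgroup.normalClosure_normal (s := Set.range f ∩ (N : Set G))).conj_mem _ h3 c
    rw [hc] at h4
    exact h4

/-- finitely many normal subgroups -/
lemma finite_normal {G : Type u} [Group G] [Finite (ConjClasses G)] :
    {N : Subgroup G | N.Normal}.Finite := by
  classical
  have hinj : Set.InjOn (fun N : Subgroup G => {c : ConjClasses G | ∃ x ∈ N, ConjClasses.mk x = c})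
      {N : Subgroup G | N.Normal} := by
    intro N hN M hM h
    have key : ∀ N M : Subgroup G, N.Normal → M.Normal →
        {c : ConjClasses G | ∃ x ∈ N, ConjClasses.mk x = c} =
          {c : ConjClasses G | ∃ x ∈ M, ConjClasses.mk x = c} → N ≤ M := by
      intro N M _ hM h x hx
      have h1 : ConjClasses.mk x ∈ {c : ConjClasses G | ∃ x ∈ M, ConjClasses.mk x = c} := by
        rw [← h]; exact ⟨x, hx, rfl⟩
      obtain ⟨y, hy, hxy⟩ := h1
      obtain ⟨c, hc⟩ := isConj_iff.1 (ConjClasses.mk_eq_mk_iff_isConj.1 hxy)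
      rw [← hc]
      exact hM.conj_mem y hy c
    exact le_antisymm (key N M hN hM h) (key M N hM hN h.symm)
  exact Set.Finite.of_finite_image (Set.toFinite _) hinj

/-- quotients -/
lemma finite_conj_quot {G : Type u} [Group G] [Finite (ConjClasses G)] (N : Subgroup G) [N.Normal] :
    Finite (ConjClasses (G ⧸ N)) := by
  apply Finite.of_surjective (ConjClasses.map (QuotientGroup.mk' N))
  intro c
  obtain ⟨q, rfl⟩ := ConjClasses.exists_rep c
  obtain ⟨g, rfl⟩ := QuotientGroup.mk_surjective q
  exact ⟨ConjClasses.mk g, rfl⟩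

/-- normal subgroups of finite index -/
lemma finite_conj_sub {G : Type u} [Group G] [Finite (ConjClasses G)] (N : Subgroup G)
    [hN : N.Normal] [N.FiniteIndex] : Finite (ConjClasses N) := by
  classical
  let rep : ConjClasses G → N := fun C =>
    if h : ∃ x : N, ConjClasses.mk (x : G) = C then h.choose else 1
  have hrep : ∀ x : N, IsConj ((rep (ConjClasses.mk (x : G)) : N) : G) x := by
    intro x
    have h : ∃ y : N, ConjClasses.mk (y : G) = ConjClasses.mk (x : G) := ⟨x, rfl⟩
    have h2 : rep (ConjClasses.mk (x : G)) = h.choose := dif_pos h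
    rw [h2]
    exact ConjClasses.mk_eq_mk_iff_isConj.1 h.choose_spec
  let F : ConjClasses G × (G ⧸ N) → ConjClasses N := fun p =>
    ConjClasses.mk ⟨p.2.out * rep p.1 * (p.2.out)⁻¹, hN.conj_mem _ (rep p.1).2 _⟩
  have hF : Function.Surjective F := by
    intro c
    obtain ⟨x, rfl⟩ := ConjClasses.exists_rep c
    obtain ⟨g, hg⟩ := isConj_iff.1 (hrep x)
    refine ⟨(ConjClasses.mk (x : G), (g : G ⧸ N)), ?_⟩
    apply ConjClasses.mk_eq_mk_iff_isConj.2
    rw [isConj_iff]
    have hq : g * ((g : G ⧸ N).out)⁻¹ ∈ N := by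
      have h1 : ((g : G ⧸ N).out : G ⧸ N) = (g : G ⧸ N) := Quotient.out_eq' _
      have h2 : ((g : G ⧸ N).out)⁻¹ * g ∈ N := QuotientGroup.eq.1 h1
      exact hN.mem_comm h2
    refine ⟨⟨_, hq⟩, ?_⟩
    apply Subtype.ext
    show g * ((g : G ⧸ N).out)⁻¹ * ((g : G ⧸ N).out * (rep (ConjClasses.mk (x : G)) : G) *
      ((g : G ⧸ N).out)⁻¹) * (g * ((g : G ⧸ N).out)⁻¹)⁻¹ = x
    generalize (rep (ConjClasses.mk (x : G)) : G) = y at hg
    rw [← hg]
    group
  exact Finite.of_surjective F hF

/-- **Reduction.** From an infinite finitely presented group with finitely many conjugacy classes to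
a simple one. -/
theorem simple_of_six {G : Type u} [Group G] [Infinite G] [Group.IsFinitelyPresented G]
    [Finite (ConjClasses G)] :
    ∃ (N : Subgroup G) (_ : N.FiniteIndex) (_ : N.Normal) (M : Subgroup N) (_ : M.Normal),
      IsSimpleGroup (N ⧸ M) ∧ Infinite (N ⧸ M) ∧ Group.IsFinitelyPresented (N ⧸ M) ∧
      Finite (ConjClasses (N ⧸ M)) := by
  classical
  -- the smallest normal subgroup of finite index
  have hfin : {N : Subgroup G | N.Normal ∧ N.FiniteIndex}.Finite :=
    finite_normal.subset (fun N hN => hN.1)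
  let R : Subgroup G := sInf {N : Subgroup G | N.Normal ∧ N.FiniteIndex}
  have hRn : R.Normal := by
    constructor
    intro x hx g
    rw [Subgroup.mem_sInf] at hx ⊢
    intro N hN
    exact hN.1.conj_mem x (hx N hN) g
  have hRf : R.FiniteIndex := by
    have : Finite {N : Subgroup G | N.Normal ∧ N.FiniteIndex} := hfin.to_subtype
    have h1 : R = ⨅ N : {N : Subgroup G | N.Normal ∧ N.FiniteIndex}, (N : Subgroup G) :=
      sInf_eq_iInf'  _
    rw [h1]
    exact Subgroup.finiteIndex_iInf (fun N => N.2.2)
  have hmin : ∀ M : Subgroup R, M.FiniteIndex → M = ⊤ := by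
    intro M hM
    have h1 : (M.map R.subtype).FiniteIndex := by
      refine ⟨?_⟩
      rw [Subgroup.index_map_subtype]
      exact mul_ne_zero hM.index_ne_zero hRf.index_ne_zero
    have h2 : R ≤ (M.map R.subtype).normalCore :=
      sInf_le ⟨Subgroup.normalCore_normal _, inferInstance⟩
    have h3 : R ≤ M.map R.subtype := h2.trans (Subgroup.normalCore_le _)
    rw [eq_top_iff]
    rintro ⟨x, hx⟩ -
    obtain ⟨y, hy, hyx⟩ := h3 hx
    have : y = ⟨x, hx⟩ := Subtype.ext hyx
    rwa [← this]
  have hRc : Finite (ConjClasses R) := finite_conj_sub R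
  have hRfp : Group.IsFinitelyPresented R := fp_of_index R
  have hRinf : Infinite R := by
    by_contra hf
    rw [not_infinite_iff_finite] at hf
    have : Finite (G ⧸ R) := inferInstance
    have h1 : Finite G := Finite.of_equiv _ (Subgroup.groupEquivQuotientProdSubgroup (s := R)).symm
    exact not_finite G
  -- a maximal proper normal subgroup
  have hne : {M : Subgroup R | M.Normal ∧ M ≠ ⊤}.Nonempty :=
    ⟨⊥, inferInstance, fun h => by
      have : Subsingleton R := Subgroup.subsingleton_iff.1 (subsingleton_of_bot_eq_top h)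
      exact not_finite R⟩
  have hfin2 : {M : Subgroup R | M.Normal ∧ M ≠ ⊤}.Finite :=
    finite_normal.subset (fun N hN => hN.1)
  obtain ⟨M, hM⟩ := hfin2.exists_maximal hne
  have hMn : M.Normal := hM.prop.1
  refine ⟨R, hRf, hRn, M, hMn, ?_, ?_, ?_, ?_⟩
  · have hnt : Nontrivial (R ⧸ M) := by
      rw [QuotientGroup.nontrivial_iff]
      exact hM.prop.2
    refine ⟨fun K hK => ?_⟩
    by_cases hK1 : K.comap (QuotientGroup.mk' M) = ⊤
    · right
      rw [eq_top_iff]
      intro x _
      obtain ⟨y, rfl⟩ := QuotientGroup.mk_surjective x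
      have : y ∈ K.comap (QuotientGroup.mk' M) := by rw [hK1]; exact Subgroup.mem_top _
      exact this
    · left
      have h1 : M ≤ K.comap (QuotientGroup.mk' M) := by
        intro x hx
        show QuotientGroup.mk' M x ∈ K
        rw [show QuotientGroup.mk' M x = 1 from (QuotientGroup.eq_one_iff x).2 hx]
        exact K.one_mem
      have h2 := hM.le_of_ge (show K.comap (QuotientGroup.mk' M) ∈ {M : Subgroup R | M.Normal ∧ M ≠ ⊤}
        from ⟨inferInstance, hK1⟩) h1
      rw [eq_bot_iff]
      intro x hx
      obtain ⟨y, rfl⟩ := QuotientGroup.mk_surjective x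
      exact (QuotientGroup.eq_one_iff y).2 (h2 hx)
  · by_contra hf
    rw [not_infinite_iff_finite] at hf
    have h1 : M.FiniteIndex := Subgroup.finiteIndex_of_finite_quotient
    exact hM.prop.2 (hmin M h1)
  · exact Group.IsFinitelyPresented.quotient M (normally_fg M)
  · exact finite_conj_quot M

end Pool.Agent.Q11.FM
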