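import Mathlib

/-!
# Infinite groups all of whose proper subgroups are cyclic
-/

set_option autoImplicit false

namespace Pool.Agent.Q11.FM

universe u v

/-- not cyclic, and all proper subgroups are cyclic -/
def T3 (G : Type u) [Group G] : Prop :=
  ¬ IsCyclic G ∧ ∀ H : Subgroup G, H ≠ ⊤ → IsCyclic H

section three

variable {G : Type u} [Group G]

/-- in an infinite cyclic group, elements of finite order are trivial -/
lemma cyc_torsion {P : Type u} [Group P] [IsCyclic P] [Infinite P] {x : P} (hx : IsOfFinOrder x) :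
    x = 1 := by
  obtain ⟨g, hg⟩ := IsCyclic.exists_generator (α := P)
  obtain ⟨n, rfl⟩ := Subgroup.mem_zpowers_iff.1 (hg x)
  have hgi : ¬ IsOfFinOrder g := by
    intro h
    have h1 : (Subgroup.zpowers g : Set P).Finite := h.finite_zpowers
    have h2 : (Subgroup.zpowers g : Set P) = Set.univ := by
      ext y; simp [hg y]
    rw [h2] at h1
    exact Set.infinite_univ h1
  by_cases hn : n = 0
  · rw [hn, zpow_zero]
  · exfalso
    apply hgi
    obtain ⟨k, hk, hk1⟩ := isOfFinOrder_iff_zpow_eq_one.1 hx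
    rw [← zpow_mul] at hk1
    exact isOfFinOrder_iff_zpow_eq_one.2 ⟨_, mul_ne_zero hn hk, hk1⟩

/-- no proper subgroups of finite index -/
theorem T3.no_index [Infinite G] (h : T3 G) (H : Subgroup G) [hH : H.FiniteIndex] : H = ⊤ := by
  classical
  by_contra hne
  -- the core
  set N : Subgroup G := H.normalCore with hN
  have hNn : N.Normal := H.normalCore_normal
  have hNf : N.FiniteIndex := inferInstance
  have hNt : N ≠ ⊤ := fun h1 => hne (top_le_iff.1 (h1 ▸ H.normalCore_le))
  have hNinf : Infinite N := by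
    by_contra hf
    rw [not_infinite_iff_finite] at hf
    have : Finite (G ⧸ N) := inferInstance
    have h1 : Finite G := Finite.of_equiv _ (Subgroup.groupEquivQuotientProdSubgroup (s := N)).symm
    exact not_finite G
  have hNc : IsCyclic N := h.2 N hNt
  obtain ⟨⟨z, hzN⟩, hz⟩ := IsCyclic.exists_generator (α := N)
  have hz' : ∀ y ∈ N, ∃ k : ℤ, z ^ k = y := by
    intro y hy
    obtain ⟨k, hk⟩ := Subgroup.mem_zpowers_iff.1 (hz ⟨y, hy⟩)
    exact ⟨k, by simpa using congrArg Subtype.val hk⟩
  have hzi : ¬ IsOfFinOrder z := by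
    intro hzf
    have h1 : IsOfFinOrder (⟨z, hzN⟩ : N) := by
      rw [← Submonoid.isOfFinOrder_coe]
      exact hzf
    have h2 := cyc_torsion h1
    have h3 : ∀ y : N, y = 1 := by
      intro y
      obtain ⟨k, hk⟩ := Subgroup.mem_zpowers_iff.1 (hz y)
      rw [← hk, h2, one_zpow]
    have : Subsingleton N := ⟨fun a b => by rw [h3 a, h3 b]⟩
    exact not_finite N
  have hzinj : ∀ {a b : ℤ}, z ^ a = z ^ b → a = b := by
    intro a b hab
    exact injective_zpow_iff_not_isOfFinOrder.2 hzi hab
  -- conjugation of a generator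
  have hconj : ∀ {C : Subgroup G} {c : G}, ¬ IsOfFinOrder c → (∀ y ∈ C, ∃ k : ℤ, c ^ k = y) →
      c ∈ C → ∀ g : G, (∀ y ∈ C, g * y * g⁻¹ ∈ C) → (∀ y ∈ C, g⁻¹ * y * g ∈ C) →
      g * c * g⁻¹ = c ∨ g * c * g⁻¹ = c⁻¹ := by
    intro C c hci hgen hcC g hg1 hg2
    obtain ⟨k, hk⟩ := hgen _ (hg1 c hcC)
    obtain ⟨l, hl⟩ := hgen _ (hg2 c hcC)
    have h1 : c ^ (k * l) = c ^ (1 : ℤ) := by
      rw [zpow_mul, hk, zpow_one, conj_zpow, hl]
      group
    have h2 : k * l = 1 := injective_zpow_iff_not_isOfFinOrder.2 hci h1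
    rcases Int.eq_one_or_neg_one_of_mul_eq_one h2 with h3 | h3
    · left; rw [← hk, h3, zpow_one]
    · right; rw [← hk, h3, zpow_neg, zpow_one]
  have hzc : ∀ g : G, g * z * g⁻¹ = z ∨ g * z * g⁻¹ = z⁻¹ := by
    intro g
    apply hconj hzi hz' hzN g (fun y hy => hNn.conj_mem y hy g)
    intro y hy
    have := hNn.conj_mem y hy g⁻¹
    rwa [inv_inv] at this
  by_cases hA : ∃ x : G, x * z * x⁻¹ = z⁻¹
  · -- Case A
    obtain ⟨x, hx⟩ := hA
    let C : Subgroup G := Subgroup.centralizer {z}
    have hC : ∀ g, g ∈ C ↔ g * z * g⁻¹ = z := by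
      intro g
      rw [Subgroup.mem_centralizer_singleton_iff, mul_inv_eq_iff_eq_mul]
    have hxz : z⁻¹ ≠ z := by
      intro h1
      have h2 : z ^ (-1 : ℤ) = z ^ (1 : ℤ) := by rw [zpow_neg, zpow_one, h1]
      have := hzinj h2
      omega
    have hxC : x ∉ C := by
      rw [hC, hx]
      exact hxz
    have hCt : C ≠ ⊤ := fun h1 => hxC (h1 ▸ Subgroup.mem_top x)
    have hCc : IsCyclic C := h.2 C hCt
    obtain ⟨⟨c, hcC⟩, hc⟩ := IsCyclic.exists_generator (α := C)
    have hc' : ∀ y ∈ C, ∃ k : ℤ, c ^ k = y := by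
      intro y hy
      obtain ⟨k, hk⟩ := Subgroup.mem_zpowers_iff.1 (hc ⟨y, hy⟩)
      exact ⟨k, by simpa using congrArg Subtype.val hk⟩
    have hzC : z ∈ C := by rw [hC]; group
    have hci : ¬ IsOfFinOrder c := by
      intro hcf
      obtain ⟨k, hk⟩ := hc' z hzC
      exact hzi (hk ▸ hcf.zpow)
    have hcinj : ∀ {a b : ℤ}, c ^ a = c ^ b → a = b := by
      intro a b hab
      exact injective_zpow_iff_not_isOfFinOrder.2 hci hab
    have hx' : x⁻¹ * z * x = z⁻¹ := by
      have h1 : x⁻¹ * z⁻¹ * x = z := by rw [← hx]; group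
      have h2 : x⁻¹ * z * x = (x⁻¹ * z⁻¹ * x)⁻¹ := by group
      rw [h2, h1]
    have hxi : x * z⁻¹ * x⁻¹ = z := by
      have h2 : x * z⁻¹ * x⁻¹ = (x * z * x⁻¹)⁻¹ := by group
      rw [h2, hx, inv_inv]
    have hxi' : x⁻¹ * z⁻¹ * x = z := by
      have h2 : x⁻¹ * z⁻¹ * x = (x⁻¹ * z * x)⁻¹ := by group
      rw [h2, hx', inv_inv]
    have hn1 : ∀ y ∈ C, x * y * x⁻¹ ∈ C := by
      intro y hy
      rw [hC] at hy ⊢
      have hy2 : y * z⁻¹ * y⁻¹ = z⁻¹ := by
        have h2 : y * z⁻¹ * y⁻¹ = (y * z * y⁻¹)⁻¹ := by group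
        rw [h2, hy]
      calc x * y * x⁻¹ * z * (x * y * x⁻¹)⁻¹ = x * (y * (x⁻¹ * z * x) * y⁻¹) * x⁻¹ := by group
        _ = z := by rw [hx', hy2, hxi]
    have hn2 : ∀ y ∈ C, x⁻¹ * y * x ∈ C := by
      intro y hy
      rw [hC] at hy ⊢
      have hy2 : y * z⁻¹ * y⁻¹ = z⁻¹ := by
        have h2 : y * z⁻¹ * y⁻¹ = (y * z * y⁻¹)⁻¹ := by group
        rw [h2, hy]
      calc x⁻¹ * y * x * z * (x⁻¹ * y * x)⁻¹ = x⁻¹ * (y * (x * z * x⁻¹) * y⁻¹) * x := by group
        _ = z := by rw [hx, hy2, hxi']
    have hxc : x * c * x⁻¹ = c⁻¹ := by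
      rcases hconj hci hc' hcC x hn1 hn2 with h1 | h1
      · exfalso
        apply hxC
        rw [hC]
        obtain ⟨k, hk⟩ := hc' z hzC
        rw [← hk, ← conj_zpow, h1]
      · exact h1
    have hxc' : ∀ k : ℤ, x * c ^ k = c ^ (-k) * x := by
      intro k
      have h1 : x * c ^ k * x⁻¹ = c ^ (-k) := by
        rw [← conj_zpow, hxc, inv_zpow, zpow_neg]
      rw [← h1]
      group
    have hxx : x * x = 1 := by
      have h1 : x * x ∈ C := by
        rw [hC]
        calc x * x * z * (x * x)⁻¹ = x * (x * z * x⁻¹) * x⁻¹ := by group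
          _ = z := by rw [hx, hxi]
      obtain ⟨k, hk⟩ := hc' _ h1
      have h2 : x * c ^ k = c ^ (-k) * x := hxc' k
      have h3 : c ^ k * x = c ^ (-k) * x := by
        rw [← h2, hk]
        group
      have h4 : k = -k := hcinj (mul_right_cancel h3)
      have h5 : k = 0 := by omega
      rw [← hk, h5, zpow_zero]
    -- the infinite dihedral subgroup
    let P : Subgroup G :=
      { carrier := {g | ∃ k : ℤ, g = c ^ (2 * k) ∨ g = x * c ^ (2 * k)}
        one_mem' := ⟨0, Or.inl (by simp)⟩
        mul_mem' := by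
          rintro a b ⟨k, hk⟩ ⟨l, hl⟩
          rcases hk with rfl | rfl <;> rcases hl with rfl | rfl
          · exact ⟨k + l, Or.inl (by rw [mul_add, zpow_add])⟩
          · refine ⟨-k + l, Or.inr ?_⟩
            have h1 := hxc' (2 * -k)
            have e : -(2 * -k) = 2 * k := by ring
            rw [e] at h1
            rw [← mul_assoc, ← h1, mul_add, zpow_add, mul_assoc]
          · refine ⟨k + l, Or.inr ?_⟩
            rw [mul_add, zpow_add, mul_assoc]
          · refine ⟨-k + l, Or.inl ?_⟩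
            have h1 := hxc' (2 * -k)
            have e : -(2 * -k) = 2 * k := by ring
            rw [e] at h1
            calc x * c ^ (2 * k) * (x * c ^ (2 * l)) = x * (c ^ (2 * k) * x) * c ^ (2 * l) := by
                  simp only [mul_assoc]
              _ = x * x * c ^ (2 * -k) * c ^ (2 * l) := by rw [← h1]; simp only [mul_assoc]
              _ = c ^ (2 * (-k + l)) := by rw [hxx, one_mul, mul_add, zpow_add]
        inv_mem' := by
          rintro a ⟨k, hk⟩
          rcases hk with rfl | rfl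
          · exact ⟨-k, Or.inl (by rw [mul_neg, zpow_neg])⟩
          · refine ⟨k, Or.inr ?_⟩
            have hxinv : x⁻¹ = x := by rw [inv_eq_iff_mul_eq_one, hxx]
            rw [mul_inv_rev, ← zpow_neg, hxinv, hxc'] }
    have hPt : P ≠ ⊤ := by
      intro h1
      have h2 : c ∈ P := h1 ▸ Subgroup.mem_top c
      obtain ⟨k, hk | hk⟩ := h2
      · have : (1 : ℤ) = 2 * k := hcinj (by rw [zpow_one]; exact hk)
        omega
      · apply hxC
        have h3 : x = c * (c ^ (2 * k))⁻¹ := by rw [eq_mul_inv_iff_mul_eq]; exact hk.symm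
        rw [h3]
        exact C.mul_mem hcC (C.inv_mem (C.zpow_mem hcC _))
    have hPc : IsCyclic P := h.2 P hPt
    have hxP : x ∈ P := ⟨0, Or.inr (by simp)⟩
    have hcP : c ^ (2 : ℤ) ∈ P := ⟨1, Or.inl (by simp)⟩
    have hcomm : (⟨x, hxP⟩ : P) * ⟨c ^ (2 : ℤ), hcP⟩ = ⟨c ^ (2 : ℤ), hcP⟩ * ⟨x, hxP⟩ := by
      have : IsMulCommutative P := inferInstance
      exact mul_comm' _ _
    have h1 : x * c ^ (2 : ℤ) = c ^ (2 : ℤ) * x := congrArg Subtype.val hcomm
    rw [hxc'] at h1
    have h2 := hcinj (mul_right_cancel h1)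
    omega
  · -- Case B
    push Not at hA
    have hzcen : ∀ g : G, g * z = z * g := by
      intro g
      have := (hzc g).resolve_right (hA g)
      rwa [mul_inv_eq_iff_eq_mul] at this
    -- torsion-free
    have htf : ∀ g : G, IsOfFinOrder g → g = 1 := by
      intro g hg
      by_contra hg1
      let P : Subgroup G := Subgroup.zpowers g ⊔ Subgroup.zpowers (z ^ (2 : ℤ))
      have hnor : (Subgroup.zpowers (z ^ (2 : ℤ))).Normal := by
        constructor
        rintro y ⟨k, rfl⟩ a
        refine ⟨k, ?_⟩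
        have h1 : Commute a z := hzcen a
        have h2 : Commute a ((z ^ (2 : ℤ)) ^ k) := (h1.zpow_right 2).zpow_right k
        show (z ^ (2 : ℤ)) ^ k = a * (z ^ (2 : ℤ)) ^ k * a⁻¹
        rw [h2.eq]
        group
      have hPt : P = ⊤ := by
        by_contra hPt
        have hPc : IsCyclic P := h.2 P hPt
        have hgP : g ∈ P := (le_sup_left : Subgroup.zpowers g ≤ P) (Subgroup.mem_zpowers g)
        have hzP : z ^ (2 : ℤ) ∈ P :=
          (le_sup_right : Subgroup.zpowers (z ^ (2 : ℤ)) ≤ P) (Subgroup.mem_zpowers _)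
        have hPinf : Infinite P := by
          refine Infinite.of_injective (fun n : ℤ => (⟨z ^ (2 : ℤ), hzP⟩ : P) ^ n) ?_
          intro a b hab
          have h1 : (z ^ (2 : ℤ)) ^ a = (z ^ (2 : ℤ)) ^ b := by
            simpa using congrArg Subtype.val hab
          rw [← zpow_mul, ← zpow_mul] at h1
          have := hzinj h1
          omega
        have h1 : IsOfFinOrder (⟨g, hgP⟩ : P) := by
          rw [← Submonoid.isOfFinOrder_coe]
          exact hg
        exact hg1 (congrArg Subtype.val (cyc_torsion h1))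
      have h2 : z ∈ P := hPt ▸ Subgroup.mem_top z
      obtain ⟨a, ha, b, hb, hab⟩ := Subgroup.mem_sup_of_normal_right.1 h2
      obtain ⟨k, rfl⟩ := Subgroup.mem_zpowers_iff.1 ha
      obtain ⟨l, rfl⟩ := Subgroup.mem_zpowers_iff.1 hb
      have h3 : g ^ k = z ^ (1 - 2 * l) := by
        rw [zpow_sub, zpow_one, zpow_mul, eq_mul_inv_iff_mul_eq]
        exact hab
      have h4 : IsOfFinOrder (z ^ (1 - 2 * l)) := h3 ▸ hg.zpow
      apply hzi
      obtain ⟨m, hm, hm1⟩ := isOfFinOrder_iff_zpow_eq_one.1 h4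
      rw [← zpow_mul] at hm1
      exact isOfFinOrder_iff_zpow_eq_one.2 ⟨_, mul_ne_zero (by omega) hm, hm1⟩
    -- commutative
    have hcf : (Subgroup.center G).FiniteIndex := by
      have : N ≤ Subgroup.center G := by
        intro y hy
        obtain ⟨k, rfl⟩ := hz' y hy
        rw [Subgroup.mem_center_iff]
        intro g
        exact ((show Commute g z from hzcen g).zpow_right k).eq
      exact Subgroup.finiteIndex_of_le this
    have hinj : Function.Injective (MonoidHom.transferCenterPow G) := by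
      rw [injective_iff_map_eq_one]
      intro g hg
      apply htf
      have h1 : g ^ (Subgroup.center G).index = 1 := by
        rw [← MonoidHom.transferCenterPow_apply, hg]
        rfl
      exact isOfFinOrder_iff_pow_eq_one.2 ⟨_, Nat.pos_of_ne_zero hcf.index_ne_zero, h1⟩
    have hcomm : ∀ a b : G, a * b = b * a := by
      intro a b
      apply hinj
      rw [map_mul, map_mul]
      apply Subtype.ext
      exact ((Subgroup.mem_center_iff.1 (MonoidHom.transferCenterPow G a).2) _).symm
    -- cyclic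
    let f : G →* N :=
      { toFun := fun g => ⟨g ^ N.index, N.pow_index_mem g⟩
        map_one' := Subtype.ext (one_pow _)
        map_mul' := fun a b => Subtype.ext ((show Commute a b from hcomm a b).mul_pow _) }
    have hf : Function.Injective f := by
      rw [injective_iff_map_eq_one]
      intro g hg
      apply htf
      exact isOfFinOrder_iff_pow_eq_one.2 ⟨_, Nat.pos_of_ne_zero hNf.index_ne_zero,
        congrArg Subtype.val hg⟩
    exact h.1 (isCyclic_of_injective f hf)

/-- proper normal subgroups are central -/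
theorem T3.le_center [Infinite G] (h : T3 G) (N : Subgroup G) [hN : N.Normal] (hNt : N ≠ ⊤) :
    N ≤ Subgroup.center G := by
  have hNc : IsCyclic N := h.2 N hNt
  have hfin : Finite (MulAut N) := by
    have h1 : Finite (ZMod (Nat.card N))ˣ := by
      rcases Nat.eq_zero_or_pos (Nat.card N) with h0 | h0
      · rw [h0]
        show Finite ℤˣ
        infer_instance
      · have : NeZero (Nat.card N) := ⟨h0.ne'⟩
        infer_instance
    exact Finite.of_equiv _ (IsCyclic.mulAutMulEquiv N).symm.toEquiv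
  have h1 : (MulAut.conjNormal (H := N)).ker.FiniteIndex := Subgroup.finiteIndex_ker _
  have h2 := h.no_index (MulAut.conjNormal (H := N)).ker
  intro y hy
  rw [Subgroup.mem_center_iff]
  intro g
  have h3 : g ∈ (MulAut.conjNormal (H := N)).ker := h2 ▸ Subgroup.mem_top g
  rw [MonoidHom.mem_ker] at h3
  have h4 : MulAut.conjNormal g (⟨y, hy⟩ : N) = ⟨y, hy⟩ := by rw [h3]; rfl
  have h5 := congrArg Subtype.val h4
  rw [MulAut.conjNormal_apply] at h5
  exact mul_inv_eq_iff_eq_mul.1 h5

/-- a nontrivial finitely generated group has a maximal subgroup -/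
lemma exists_coatom [hfg : Group.FG G] [Nontrivial G] : ∃ M : Subgroup G, IsCoatom M := by
  classical
  have hc : IsCompactElement (⊤ : Subgroup G) := by
    rw [CompleteLattice.isCompactElement_iff_le_of_directed_sSup_le]
    intro D hD hdir htop
    obtain ⟨S, hS⟩ := hfg.out
    have key : ∀ T : Finset G, ∃ d ∈ D, (T : Set G) ⊆ d := by
      intro T
      induction T using Finset.induction_on with
      | empty =>
        obtain ⟨d, hd⟩ := hD
        exact ⟨d, hd, by simp⟩
      | insert a T ha ih =>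
        obtain ⟨d, hd, hT⟩ := ih
        have h1 : a ∈ sSup D := htop (Subgroup.mem_top a)
        obtain ⟨e, he, hae⟩ := (Subgroup.mem_sSup_of_directedOn hD hdir).1 h1
        obtain ⟨f, hf, hdf, hef⟩ := hdir d hd e he
        refine ⟨f, hf, ?_⟩
        rw [Finset.coe_insert, Set.insert_subset_iff]
        exact ⟨hef hae, fun x hx => hdf (hT hx)⟩
    obtain ⟨d, hd, hSd⟩ := key S
    refine ⟨d, hd, ?_⟩
    rw [← hS, Subgroup.closure_le]
    exact hSd
  have h1 : IsCoatomic (Subgroup G) := CompleteLattice.coatomic_of_top_compact hc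
  rcases eq_top_or_exists_le_coatom (⊥ : Subgroup G) with h2 | ⟨M, hM, -⟩
  · exact absurd h2 bot_ne_top
  · exact ⟨M, hM⟩

theorem T3.center_ne_top [Infinite G] [Group.FG G] (h : T3 G) : Subgroup.center G ≠ ⊤ := by
  intro hc
  obtain ⟨M, hM⟩ := exists_coatom (G := G)
  have hMn : M.Normal := by
    constructor
    intro n hn g
    have h1 : g ∈ Subgroup.center G := hc ▸ Subgroup.mem_top g
    have h2 := Subgroup.mem_center_iff.1 h1 n
    rw [← h2]
    simpa using hn
  have hnt : Nontrivial (G ⧸ M) := by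
    rw [QuotientGroup.nontrivial_iff]
    exact hM.1
  have hs : IsSimpleGroup (G ⧸ M) := by
    refine ⟨fun K hK => ?_⟩
    have h1 : M ≤ K.comap (QuotientGroup.mk' M) := by
      intro x hx
      show QuotientGroup.mk' M x ∈ K
      rw [show QuotientGroup.mk' M x = 1 from (QuotientGroup.eq_one_iff x).2 hx]
      exact K.one_mem
    rcases hM.le_iff.1 h1 with h2 | h2
    · right
      rw [eq_top_iff]
      intro x _
      obtain ⟨y, rfl⟩ := QuotientGroup.mk_surjective x
      have : y ∈ K.comap (QuotientGroup.mk' M) := by rw [h2]; exact Subgroup.mem_top _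
      exact this
    · left
      rw [eq_bot_iff]
      intro x hx
      obtain ⟨y, rfl⟩ := QuotientGroup.mk_surjective x
      have h3 : y ∈ K.comap (QuotientGroup.mk' M) := hx
      rw [h2] at h3
      exact (QuotientGroup.eq_one_iff y).2 h3
  let _ : CommGroup (G ⧸ M) :=
    { (inferInstance : Group (G ⧸ M)) with
      mul_comm := by
        intro a b
        obtain ⟨x, rfl⟩ := QuotientGroup.mk_surjective a
        obtain ⟨y, rfl⟩ := QuotientGroup.mk_surjective b
        have h1 : y ∈ Subgroup.center G := hc ▸ Subgroup.mem_top y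
        have h2 := Subgroup.mem_center_iff.1 h1 x
        rw [← QuotientGroup.mk_mul, h2, QuotientGroup.mk_mul] }
  have hp := IsSimpleGroup.prime_card (α := G ⧸ M)
  have hf : Finite (G ⧸ M) := Nat.finite_of_card_ne_zero hp.ne_zero
  have hMf : M.FiniteIndex := Subgroup.finiteIndex_of_finite_quotient
  exact hM.1 (h.no_index M)

/-- **Reduction** for the groups of type (3) -/
theorem T3.quot [Infinite G] [Group.FG G] (h : T3 G) :
    IsCyclic (Subgroup.center G) ∧ IsSimpleGroup (G ⧸ Subgroup.center G) ∧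
      Infinite (G ⧸ Subgroup.center G) ∧ T3 (G ⧸ Subgroup.center G) := by
  have hZ := h.center_ne_top
  have hZc : IsCyclic (Subgroup.center G) := h.2 _ hZ
  have hnt : Nontrivial (G ⧸ Subgroup.center G) := by
    rw [QuotientGroup.nontrivial_iff]
    exact hZ
  refine ⟨hZc, ⟨fun K hK => ?_⟩, ?_, ?_, ?_⟩
  · by_cases h1 : K.comap (QuotientGroup.mk' (Subgroup.center G)) = ⊤
    · right
      rw [eq_top_iff]
      intro x _
      obtain ⟨y, rfl⟩ := QuotientGroup.mk_surjective x
      have : y ∈ K.comap (QuotientGroup.mk' (Subgroup.center G)) := by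
        rw [h1]; exact Subgroup.mem_top _
      exact this
    · left
      have h2 := h.le_center (K.comap (QuotientGroup.mk' (Subgroup.center G))) h1
      rw [eq_bot_iff]
      intro x hx
      obtain ⟨y, rfl⟩ := QuotientGroup.mk_surjective x
      exact (QuotientGroup.eq_one_iff y).2 (h2 hx)
  · by_contra hf
    rw [not_infinite_iff_finite] at hf
    have h1 : (Subgroup.center G).FiniteIndex := Subgroup.finiteIndex_of_finite_quotient
    exact hZ (h.no_index _)
  · intro hcyc
    have h1 : IsMulCommutative G := isMulCommutative_of_isCyclic_quotient_center_self G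
    apply hZ
    rw [eq_top_iff]
    intro x _
    rw [Subgroup.mem_center_iff]
    intro g
    exact mul_comm' _ _
  · intro K hK
    have h1 : K.comap (QuotientGroup.mk' (Subgroup.center G)) ≠ ⊤ := by
      intro h2
      apply hK
      rw [eq_top_iff]
      intro x _
      obtain ⟨y, rfl⟩ := QuotientGroup.mk_surjective x
      have : y ∈ K.comap (QuotientGroup.mk' (Subgroup.center G)) := by
        rw [h2]; exact Subgroup.mem_top _
      exact this
    have h2 := h.2 _ h1
    have hs : Function.Surjective ((QuotientGroup.mk' (Subgroup.center G)).subgroupComap K) := by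
      rintro ⟨x, hx⟩
      obtain ⟨y, rfl⟩ := QuotientGroup.mk_surjective x
      exact ⟨⟨y, hx⟩, rfl⟩
    exact isCyclic_of_surjective _ hs

/-- every nontrivial proper subgroup is cyclic of order `p`, for some prime `p` -/
def T4 (G : Type u) [Group G] : Prop :=
  ∃ p : ℕ, p.Prime ∧ ∀ H : Subgroup G, H ≠ ⊥ → H ≠ ⊤ → IsCyclic H ∧ Nat.card H = p

theorem T4.t3 [Infinite G] (h : T4 G) : T3 G := by
  obtain ⟨p, hp, h⟩ := h
  refine ⟨?_, ?_⟩
  · intro hc
    obtain ⟨g, hg⟩ := IsCyclic.exists_generator (α := G)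
    have hgi : ¬ IsOfFinOrder g := by
      intro hf
      have h1 : (Subgroup.zpowers g : Set G).Finite := hf.finite_zpowers
      have h2 : (Subgroup.zpowers g : Set G) = Set.univ := by
        ext y; simp [hg y]
      rw [h2] at h1
      exact Set.infinite_univ h1
    have hinj := injective_zpow_iff_not_isOfFinOrder.2 hgi
    have h1 : Subgroup.zpowers (g ^ (2 : ℤ)) ≠ ⊤ := by
      intro h2
      have h3 : g ∈ Subgroup.zpowers (g ^ (2 : ℤ)) := h2 ▸ Subgroup.mem_top g
      obtain ⟨k, hk⟩ := Subgroup.mem_zpowers_iff.1 h3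
      have h4 : (2 * k : ℤ) = 1 := hinj (by
        show g ^ (2 * k) = g ^ (1 : ℤ)
        rw [zpow_mul, hk, zpow_one])
      omega
    have h2 : Subgroup.zpowers (g ^ (2 : ℤ)) ≠ ⊥ := by
      rw [Subgroup.zpowers_ne_bot]
      intro h3
      have h4 : (2 : ℤ) = 0 := hinj (by
        show g ^ (2 : ℤ) = g ^ (0 : ℤ)
        rw [h3, zpow_zero])
      omega
    have h3 := (h _ h2 h1).2
    have h4 : Finite (Subgroup.zpowers (g ^ (2 : ℤ))) :=
      Nat.finite_of_card_ne_zero (by rw [h3]; exact hp.ne_zero)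
    have h5 : Infinite (Subgroup.zpowers (g ^ (2 : ℤ))) := by
      refine Infinite.of_injective (fun n : ℤ =>
        (⟨(g ^ (2 : ℤ)) ^ n, Subgroup.zpow_mem _ (Subgroup.mem_zpowers _) n⟩ :
          Subgroup.zpowers (g ^ (2 : ℤ)))) ?_
      intro a b hab
      have h6 : (g ^ (2 : ℤ)) ^ a = (g ^ (2 : ℤ)) ^ b := congrArg Subtype.val hab
      rw [← zpow_mul, ← zpow_mul] at h6
      have : 2 * a = 2 * b := hinj h6
      omega
    exact not_finite (Subgroup.zpowers (g ^ (2 : ℤ)))
  · intro H hH
    by_cases hb : H = ⊥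
    · rw [hb]; infer_instance
    · exact (h H hb hH).1

theorem T4.exponent [Infinite G] (h : T4 G) : ∃ n : ℕ, 1 ≤ n ∧ ∀ g : G, g ^ n = 1 := by
  have h3 := h.t3
  obtain ⟨p, hp, h⟩ := h
  refine ⟨p, hp.pos, fun g => ?_⟩
  have h1 : Subgroup.zpowers g ≠ ⊤ := by
    intro h1
    refine h3.1 ⟨g, fun x => ?_⟩
    have h5 : x ∈ Subgroup.zpowers g := h1 ▸ Subgroup.mem_top x
    exact h5
  by_cases h2 : g = 1
  · rw [h2, one_pow]
  · have h4 := (h _ (Subgroup.zpowers_ne_bot.2 h2) h1).2
    rw [Nat.card_zpowers] at h4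
    rw [← h4, pow_orderOf_eq_one]

theorem T4.simple [Infinite G] [Group.FG G] (h : T4 G) : IsSimpleGroup G := by
  have h3 := h.t3
  have hZ := h3.center_ne_top
  obtain ⟨p, hp, h⟩ := h
  refine ⟨fun N hN => ?_⟩
  by_contra hcon
  push Not at hcon
  obtain ⟨hb, ht⟩ := hcon
  have hc := h3.le_center N ht
  have hNp := (h N hb ht).2
  -- an element outside `N`
  obtain ⟨g, hg⟩ : ∃ g, g ∉ N := by
    by_contra hcon
    push Not at hcon
    exact ht (eq_top_iff.2 fun x _ => hcon x)
  have hP : Subgroup.zpowers g ⊔ N ≠ ⊤ := by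
    intro h1
    have hcomm : ∀ a b : G, a * b = b * a := by
      have hgen : ∀ a : G, ∃ k : ℤ, ∃ y ∈ N, a = g ^ k * y := by
        intro a
        have h2 : a ∈ Subgroup.zpowers g ⊔ N := h1 ▸ Subgroup.mem_top a
        obtain ⟨x, hx, y, hy, hxy⟩ := Subgroup.mem_sup_of_normal_right.1 h2
        obtain ⟨k, rfl⟩ := Subgroup.mem_zpowers_iff.1 hx
        exact ⟨k, y, hy, hxy.symm⟩
      intro a b
      obtain ⟨k, y, hy, rfl⟩ := hgen a
      obtain ⟨l, w, hw, rfl⟩ := hgen b
      have e1 := Subgroup.mem_center_iff.1 (hc hy)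
      have e2 := Subgroup.mem_center_iff.1 (hc hw)
      calc g ^ k * y * (g ^ l * w) = g ^ k * (y * g ^ l) * w := by simp only [mul_assoc]
        _ = g ^ k * (g ^ l * y) * w := by rw [e1]
        _ = g ^ (k + l) * (y * w) := by rw [zpow_add]; simp only [mul_assoc]
        _ = g ^ (l + k) * (w * y) := by rw [e2, add_comm]
        _ = g ^ l * (g ^ k * w) * y := by rw [zpow_add]; simp only [mul_assoc]
        _ = g ^ l * (w * g ^ k) * y := by rw [e2]
        _ = g ^ l * w * (g ^ k * y) := by simp only [mul_assoc]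
    apply hZ
    rw [eq_top_iff]
    intro x _
    rw [Subgroup.mem_center_iff]
    exact fun y => hcomm y x
  have hPb : Subgroup.zpowers g ⊔ N ≠ ⊥ := by
    intro h1
    exact hb (eq_bot_iff.2 (h1 ▸ le_sup_right))
  have hPp := (h _ hPb hP).2
  have hfin : Finite ↥(Subgroup.zpowers g ⊔ N) :=
    Nat.finite_of_card_ne_zero (by rw [hPp]; exact hp.ne_zero)
  have hEq : N = Subgroup.zpowers g ⊔ N :=
    Subgroup.eq_of_le_of_card_ge le_sup_right (by rw [hNp, hPp])
  apply hg
  rw [hEq]
  exact (le_sup_left : Subgroup.zpowers g ≤ _) (Subgroup.mem_zpowers g)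

end three

end Pool.Agent.Q11.FM
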