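import Mathlib

/-!
# Permutational wreath products with a finite symmetric group and their subgroups of finite index
-/

set_option autoImplicit false

namespace Pool.Agent.Q11.FM

open scoped commutatorElement

/-- the permutational wreath product of `G` with the symmetric group of `Ω` -/
abbrev Wr (G : Type) [Group G] (Ω : Type) : Type :=
  (Ω → G) ⋊[(mulAutArrow : Equiv.Perm Ω →* MulAut (Ω → G))] Equiv.Perm Ω

namespace Wr

variable {G : Type} [Group G] {Ω : Type}

/-- the cocycle: the label met by `γ` when it moves `i` -/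
def lab (γ : Wr G Ω) (i : Ω) : G := γ.left (γ.right i)

@[simp] lemma right_mul' (γ δ : Wr G Ω) (i : Ω) : (γ * δ).right i = γ.right (δ.right i) := rfl

@[simp] lemma right_one' (i : Ω) : (1 : Wr G Ω).right i = i := rfl

lemma lab_mul (γ δ : Wr G Ω) (i : Ω) : lab (γ * δ) i = lab γ (δ.right i) * lab δ i := by
  simp only [lab, SemidirectProduct.mul_left, Pi.mul_apply, right_mul']
  congr 1
  show δ.left ((γ.right⁻¹ : Equiv.Perm Ω) (γ.right (δ.right i))) = _
  simp

@[simp] lemma lab_one (i : Ω) : lab (1 : Wr G Ω) i = 1 := rfl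

lemma lab_inv (γ : Wr G Ω) (i : Ω) : lab γ⁻¹ (γ.right i) = (lab γ i)⁻¹ := by
  have h : lab (γ⁻¹ * γ) i = 1 := by rw [inv_mul_cancel]; rfl
  rw [lab_mul] at h
  exact eq_inv_of_mul_eq_one_left h

lemma right_inv' (γ : Wr G Ω) (i : Ω) : (γ⁻¹).right (γ.right i) = i := by
  rw [← right_mul', inv_mul_cancel]; rfl

lemma lab_inl (f : Ω → G) (i : Ω) : lab (SemidirectProduct.inl f : Wr G Ω) i = f i := rfl

lemma lab_inr (σ : Equiv.Perm Ω) (i : Ω) : lab (SemidirectProduct.inr σ : Wr G Ω) i = 1 := rfl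

lemma ext_iff' {γ δ : Wr G Ω} (h1 : ∀ i, γ.right i = δ.right i) (h2 : ∀ i, lab γ i = lab δ i) :
    γ = δ := by
  have h : γ.right = δ.right := Equiv.ext h1
  apply SemidirectProduct.ext _ h
  funext i
  have := h2 (γ.right⁻¹ i)
  simp only [lab] at this
  rw [← h] at this
  simpa using this

/-- the labels at `i` of the elements of `Γ` fixing `i` and `j` with label one at `j` -/
def T (Γ : Subgroup (Wr G Ω)) (i j : Ω) : Subgroup G where
  carrier := {g | ∃ γ ∈ Γ, γ.right i = i ∧ γ.right j = j ∧ lab γ i = g ∧ lab γ j = 1}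
  one_mem' := ⟨1, Γ.one_mem, rfl, rfl, rfl, rfl⟩
  mul_mem' := by
    rintro _ _ ⟨γ, h1, h2, h3, rfl, h4⟩ ⟨δ, k1, k2, k3, rfl, k4⟩
    refine ⟨γ * δ, Γ.mul_mem h1 k1, ?_, ?_, ?_, ?_⟩
    · rw [right_mul', k2, h2]
    · rw [right_mul', k3, h3]
    · rw [lab_mul, k2]
    · rw [lab_mul, k3, h4, k4, one_mul]
  inv_mem' := by
    rintro _ ⟨γ, h1, h2, h3, rfl, h4⟩
    have e1 : (γ⁻¹).right i = i := by
      have := right_inv' γ i
      rwa [h2] at this
    have e2 : (γ⁻¹).right j = j := by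
      have := right_inv' γ j
      rwa [h3] at this
    refine ⟨γ⁻¹, Γ.inv_mem h1, e1, e2, ?_, ?_⟩
    · have := lab_inv γ i
      rwa [h2] at this
    · have := lab_inv γ j
      rw [h3, h4, inv_one] at this
      exact this

lemma mem_T {Γ : Subgroup (Wr G Ω)} {i j : Ω} {g : G} : g ∈ T Γ i j ↔
    ∃ γ ∈ Γ, γ.right i = i ∧ γ.right j = j ∧ lab γ i = g ∧ lab γ j = 1 := Iff.rfl

/-- the coordinates at `i` of the elements of `Γ` in the base group with coordinates one in `J` -/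
def S (Γ : Subgroup (Wr G Ω)) (i : Ω) (J : Finset Ω) : Subgroup G where
  carrier := {g | ∃ f : Ω → G, (SemidirectProduct.inl f : Wr G Ω) ∈ Γ ∧ f i = g ∧ ∀ j ∈ J, f j = 1}
  one_mem' := ⟨1, by rw [map_one]; exact Γ.one_mem, rfl, fun _ _ => rfl⟩
  mul_mem' := by
    rintro _ _ ⟨f, h1, rfl, h2⟩ ⟨f', k1, rfl, k2⟩
    refine ⟨f * f', by rw [map_mul]; exact Γ.mul_mem h1 k1, rfl, fun j hj => ?_⟩
    rw [Pi.mul_apply, h2 j hj, k2 j hj, one_mul]
  inv_mem' := by
    rintro _ ⟨f, h1, rfl, h2⟩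
    refine ⟨f⁻¹, by rw [map_inv]; exact Γ.inv_mem h1, rfl, fun j hj => ?_⟩
    rw [Pi.inv_apply, h2 j hj, inv_one]

/-- all subgroups of finite index have finite abelianization -/
def FAb (G : Type) [Group G] : Prop :=
  ∀ A : Subgroup G, A.FiniteIndex → (⁅A, A⁆).FiniteIndex

lemma finiteIndex_of_le' {H : Type} [Group H] {A B : Subgroup H} (h : A ≤ B)
    (hA : A.FiniteIndex) : B.FiniteIndex := Subgroup.finiteIndex_of_le h

lemma S_single [Finite Ω] {Γ : Subgroup (Wr G Ω)} {i j : Ω} (h : (T Γ i j).FiniteIndex) :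
    (S Γ i {j}).FiniteIndex := by
  classical
  let U : Subgroup (Wr G Ω) :=
    { carrier := {γ | γ ∈ Γ ∧ γ.right i = i ∧ γ.right j = j ∧ lab γ j = 1}
      one_mem' := ⟨Γ.one_mem, rfl, rfl, rfl⟩
      mul_mem' := by
        rintro γ δ ⟨h1, h2, h3, h4⟩ ⟨k1, k2, k3, k4⟩
        refine ⟨Γ.mul_mem h1 k1, ?_, ?_, ?_⟩
        · rw [right_mul', k2, h2]
        · rw [right_mul', k3, h3]
        · rw [lab_mul, k3, h4, k4, one_mul]
      inv_mem' := by
        rintro γ ⟨h1, h2, h3, h4⟩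
        refine ⟨Γ.inv_mem h1, ?_, ?_, ?_⟩
        · have := right_inv' γ i
          rwa [h2] at this
        · have := right_inv' γ j
          rwa [h3] at this
        · have := lab_inv γ j
          rw [h3, h4, inv_one] at this
          exact this }
  let φ : U →* G :=
    { toFun := fun γ => lab (γ : Wr G Ω) i
      map_one' := rfl
      map_mul' := by
        rintro ⟨γ, hγ⟩ ⟨δ, hδ⟩
        show lab (γ * δ) i = _
        rw [lab_mul, hδ.2.1] }
  have hφ : φ.range = T Γ i j := by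
    ext g
    constructor
    · rintro ⟨⟨γ, h1, h2, h3, h4⟩, rfl⟩
      exact ⟨γ, h1, h2, h3, rfl, h4⟩
    · rintro ⟨γ, h1, h2, h3, rfl, h4⟩
      exact ⟨⟨γ, h1, h2, h3, h4⟩, rfl⟩
  let ρ : U →* Equiv.Perm Ω := SemidirectProduct.rightHom.comp U.subtype
  have hρ : ρ.ker.FiniteIndex := Subgroup.finiteIndex_ker ρ
  have h1 : (ρ.ker.map φ).FiniteIndex := by
    refine ⟨?_⟩
    rw [Subgroup.index_map]
    refine mul_ne_zero ?_ ?_
    · have : (ρ.ker ⊔ φ.ker).FiniteIndex := Subgroup.finiteIndex_of_le le_sup_left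
      exact this.index_ne_zero
    · rw [hφ]; exact h.index_ne_zero
  apply finiteIndex_of_le' _ h1
  rintro _ ⟨⟨γ, hγ⟩, hk, rfl⟩
  have hr : γ.right = 1 := hk
  have e : (SemidirectProduct.inl γ.left : Wr G Ω) = γ := by
    apply SemidirectProduct.ext
    · rfl
    · exact hr.symm
  refine ⟨γ.left, by rw [e]; exact hγ.1, ?_, ?_⟩
  · show γ.left i = γ.left (γ.right i)
    rw [hγ.2.1]
  · intro k hk'
    rw [Finset.mem_singleton] at hk'
    subst hk'
    have := hγ.2.2.2
    unfold lab at this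
    rwa [hγ.2.2.1] at this

lemma S_all [Finite Ω] (hG : FAb G) {Γ : Subgroup (Wr G Ω)} {i : Ω} (hi : ∃ j, j ≠ i)
    (h : ∀ j, j ≠ i → (T Γ i j).FiniteIndex) (J : Finset Ω) :
    i ∉ J → (S Γ i J).FiniteIndex := by
  classical
  induction J using Finset.induction_on with
  | empty =>
    intro _
    obtain ⟨j, hj⟩ := hi
    apply finiteIndex_of_le' _ (S_single (h j hj))
    rintro _ ⟨f, h1, rfl, h2⟩
    exact ⟨f, h1, rfl, fun j hj => absurd hj (Finset.notMem_empty j)⟩
  | insert j J hjJ ih =>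
    intro hi'
    rw [Finset.mem_insert, not_or] at hi'
    have hA : (S Γ i J).FiniteIndex := ih hi'.2
    have hB : (S Γ i {j}).FiniteIndex := S_single (h j (Ne.symm hi'.1))
    have hC : (S Γ i J ⊓ S Γ i {j}).FiniteIndex := inferInstance
    apply finiteIndex_of_le' _ (hG _ hC)
    rw [Subgroup.commutator_le]
    rintro a ⟨⟨f, f1, rfl, f2⟩, -⟩ b ⟨-, ⟨f', k1, rfl, k2⟩⟩
    refine ⟨⁅f, f'⁆, ?_, rfl, ?_⟩
    · rw [map_commutatorElement, commutatorElement_def]
      exact Γ.mul_mem (Γ.mul_mem (Γ.mul_mem f1 k1) (Γ.inv_mem f1)) (Γ.inv_mem k1)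
    · intro k hk
      show ⁅f k, f' k⁆ = 1
      rw [Finset.mem_insert] at hk
      rcases hk with rfl | hk
      · rw [k2 _ (Finset.mem_singleton_self _), commutatorElement_one_right]
      · rw [f2 _ hk, commutatorElement_one_left]

/-- **Subgroups of finite index of a wreath product from pairs of points.** -/
theorem finiteIndex_of_T [Finite Ω] [Nontrivial Ω] (hG : FAb G) {Γ : Subgroup (Wr G Ω)}
    (h : ∀ i j, j ≠ i → (T Γ i j).FiniteIndex) : Γ.FiniteIndex := by
  classical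
  have := Fintype.ofFinite Ω
  let Q : Subgroup (Ω → G) :=
    ⨅ i, (S Γ i (Finset.univ.erase i)).comap (Pi.evalMonoidHom _ i)
  have hQ : Q.FiniteIndex := by
    apply Subgroup.finiteIndex_iInf
    intro i
    have h1 : (S Γ i (Finset.univ.erase i)).FiniteIndex :=
      S_all hG (exists_ne i) (h i) _ (Finset.notMem_erase i _)
    refine ⟨?_⟩
    rw [Subgroup.index_comap_of_surjective _ (Function.surjective_eval i)]
    exact h1.index_ne_zero
  have hle : Q.map (SemidirectProduct.inl : (Ω → G) →* Wr G Ω) ≤ Γ := by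
    rw [Subgroup.map_le_iff_le_comap]
    intro f hf
    apply Subgroup.pi_mem_of_mulSingle_mem
    intro i
    rw [Subgroup.mem_iInf] at hf
    obtain ⟨f', h1, h2, h3⟩ := hf i
    have e : Pi.mulSingle i (f i) = f' := by
      funext k
      by_cases hk : k = i
      · subst hk
        rw [Pi.mulSingle_eq_same, h2]; rfl
      · rw [Pi.mulSingle_eq_of_ne hk, h3 k (Finset.mem_erase.2 ⟨hk, Finset.mem_univ k⟩)]
    rw [e]
    exact h1
  apply finiteIndex_of_le' hle
  refine ⟨?_⟩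
  rw [Subgroup.index_map_of_injective _ SemidirectProduct.inl_injective]
  refine mul_ne_zero hQ.index_ne_zero ?_
  rw [SemidirectProduct.range_inl_eq_ker_rightHom]
  exact (Subgroup.finiteIndex_ker _).index_ne_zero

/-- moving a pair of points -/
lemma T_conj {Γ : Subgroup (Wr G Ω)} {i j : Ω} (h : (T Γ i j).FiniteIndex) {γ : Wr G Ω}
    (hγ : γ ∈ Γ) : (T Γ (γ.right i) (γ.right j)).FiniteIndex := by
  have h1 : ((T Γ i j).map (MulAut.conj (lab γ i)).toMonoidHom).FiniteIndex := by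
    refine ⟨?_⟩
    rw [Subgroup.index_map_of_injective _ (MulAut.conj (lab γ i)).injective]
    refine mul_ne_zero h.index_ne_zero ?_
    rw [MonoidHom.range_eq_top.2 (MulAut.conj (lab γ i)).surjective, Subgroup.index_top]
    exact one_ne_zero
  apply finiteIndex_of_le' _ h1
  rintro _ ⟨g, ⟨δ, d1, d2, d3, rfl, d4⟩, rfl⟩
  refine ⟨γ * δ * γ⁻¹, Γ.mul_mem (Γ.mul_mem hγ d1) (Γ.inv_mem hγ), ?_, ?_, ?_, ?_⟩
  · rw [right_mul', right_mul', right_inv', d2]
  · rw [right_mul', right_mul', right_inv', d3]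
  · rw [lab_mul, lab_inv, right_inv', lab_mul, d2]
    rfl
  · rw [lab_mul, lab_inv, right_inv', lab_mul, d3, d4, mul_one, mul_inv_cancel]

/-- the case of a doubly transitive group -/
theorem finiteIndex_of_pair [Finite Ω] [Nontrivial Ω] (hG : FAb G) {Γ : Subgroup (Wr G Ω)} {i j : Ω}
    (h2 : ∀ a b : Ω, b ≠ a → ∃ γ ∈ Γ, γ.right i = a ∧ γ.right j = b)
    (h : (T Γ i j).FiniteIndex) : Γ.FiniteIndex := by
  apply finiteIndex_of_T hG
  intro a b hab
  obtain ⟨γ, hγ, rfl, rfl⟩ := h2 a b hab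
  exact T_conj h hγ

end Wr

end Pool.Agent.Q11.FM
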