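import Pool.Agent.Q11.FM.Wr

/-!
# Wreath products with finite symmetric groups are finitely presented
-/

set_option autoImplicit false

namespace Pool.Agent.Q11.FM

lemma fg_of_fp' (G : Type) [Group G] [h : Group.IsFinitelyPresented G] : Group.FG G := by
  obtain ⟨n, φ, hφ, _⟩ := h.out
  exact Group.fg_of_surjective hφ

open Monoid.Coprod in
/-- direct products -/
theorem fp_prod' (G H : Type) [Group G] [Group H] [Group.IsFinitelyPresented G]
    [Group.IsFinitelyPresented H] : Group.IsFinitelyPresented (G × H) := by
  obtain ⟨S, hS, hSf⟩ := Group.fg_iff.mp (fg_of_fp' G)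
  obtain ⟨U, hU, hUf⟩ := Group.fg_iff.mp (fg_of_fp' H)
  let R : Set (Monoid.Coprod G H) := (fun p : G × H =>
    (inl p.1 : Monoid.Coprod G H) * inr p.2 * (inl p.1)⁻¹ * (inr p.2)⁻¹) '' (S ×ˢ U)
  let K := Subgroup.normalClosure R
  have hcomm : ∀ (g : G) (h : H),
      Commute ((QuotientGroup.mk' K).comp inl g) ((QuotientGroup.mk' K).comp inr h) := by
    have h0 : ∀ g ∈ S, ∀ h ∈ U,
        Commute ((QuotientGroup.mk' K).comp inl g) ((QuotientGroup.mk' K).comp inr h) := by
      intro g hg h hh
      have h1 : QuotientGroup.mk' K ((inl g : Monoid.Coprod G H) * inr h * (inl g)⁻¹ *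
          (inr h)⁻¹) = 1 :=
        (QuotientGroup.eq_one_iff _).mpr
          (Subgroup.subset_normalClosure ⟨(g, h), ⟨hg, hh⟩, rfl⟩)
      rw [map_mul, map_mul, map_mul, map_inv, map_inv, mul_inv_eq_one,
        mul_inv_eq_iff_eq_mul] at h1
      exact h1
    have h1 : ∀ g, ∀ h ∈ U,
        Commute ((QuotientGroup.mk' K).comp inl g) ((QuotientGroup.mk' K).comp inr h) := by
      intro g h hh
      have hg : g ∈ Subgroup.closure S := by rw [hS]; trivial
      induction hg using Subgroup.closure_induction with
      | mem x hx => exact h0 x hx h hh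
      | one => rw [map_one]; exact Commute.one_left _
      | mul x y _ _ hx hy => rw [map_mul]; exact hx.mul_left hy
      | inv x _ hx => rw [map_inv]; exact hx.inv_left
    intro g h
    have hh : h ∈ Subgroup.closure U := by rw [hU]; trivial
    induction hh using Subgroup.closure_induction with
    | mem x hx => exact h1 g x hx
    | one => rw [map_one]; exact Commute.one_right _
    | mul x y _ _ hx hy => rw [map_mul]; exact hx.mul_right hy
    | inv x _ hx => rw [map_inv]; exact hx.inv_right
  let back : G × H →* Monoid.Coprod G H ⧸ K := MonoidHom.noncommCoprod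
    ((QuotientGroup.mk' K).comp inl) ((QuotientGroup.mk' K).comp inr) hcomm
  have hback : back.comp toProd = QuotientGroup.mk' K := by
    apply Monoid.Coprod.hom_ext
    · ext g; simp [back]
    · ext h; simp [back]
  refine Group.IsFinitelyPresented.of_surjective (toProd : Monoid.Coprod G H →* G × H)
    toProd_surjective ⟨R, (hSf.prod hUf).image _, ?_⟩
  apply le_antisymm
  · apply Subgroup.normalClosure_le_normal
    rintro _ ⟨⟨g, h⟩, _, rfl⟩
    change toProd _ = 1
    simp
  · intro x hx
    have h1 : back (toProd x) = 1 := by rw [MonoidHom.mem_ker.mp hx, map_one]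
    rw [← MonoidHom.comp_apply, hback] at h1
    exact (QuotientGroup.eq_one_iff x).mp h1

theorem fp_pi_fin' (K : Type) [Group K] [Group.IsFinitelyPresented K] (n : ℕ) :
    Group.IsFinitelyPresented (Fin n → K) := by
  induction n with
  | zero => infer_instance
  | succ n ih =>
    let e : (Fin (n + 1) → K) ≃* K × (Fin n → K) :=
      { toFun := fun c => (c 0, Fin.tail c)
        invFun := fun p => Fin.cons p.1 p.2
        left_inv := fun c => Fin.cons_self_tail c
        right_inv := fun p => by simp
        map_mul' := fun _ _ => rfl }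
    have := fp_prod' K (Fin n → K)
    exact Group.IsFinitelyPresented.equiv e.symm

open Monoid.Coprod in
/-- semidirect products with finite groups -/
theorem fp_semidirect (N H : Type) [Group N] [Group H] [Finite H] [Group.IsFinitelyPresented N]
    (φ : H →* MulAut N) : Group.IsFinitelyPresented (N ⋊[φ] H) := by
  obtain ⟨S, hS, hSf⟩ := Group.fg_iff.mp (fg_of_fp' N)
  let R : Set (Monoid.Coprod N H) := (fun p : N × H =>
    (inr p.2 : Monoid.Coprod N H) * inl p.1 * (inr p.2)⁻¹ * (inl (φ p.2 p.1))⁻¹) ''
      (S ×ˢ Set.univ)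
  let K := Subgroup.normalClosure R
  have hconj : ∀ (h : H), ((QuotientGroup.mk' K).comp inl).comp (φ h).toMonoidHom =
      (MulAut.conj ((QuotientGroup.mk' K).comp inr h)).toMonoidHom.comp
        ((QuotientGroup.mk' K).comp inl) := by
    intro h
    apply MonoidHom.eq_of_eqOn_dense hS
    intro s hs
    have h1 : QuotientGroup.mk' K ((inr h : Monoid.Coprod N H) * inl s * (inr h)⁻¹ *
          (inl (φ h s))⁻¹) = 1 :=
      (QuotientGroup.eq_one_iff _).mpr
        (Subgroup.subset_normalClosure ⟨(s, h), ⟨hs, Set.mem_univ _⟩, rfl⟩)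
    rw [map_mul, map_mul, map_mul, map_inv, map_inv, mul_inv_eq_one] at h1
    exact h1.symm
  let back : N ⋊[φ] H →* Monoid.Coprod N H ⧸ K := SemidirectProduct.lift
    ((QuotientGroup.mk' K).comp inl) ((QuotientGroup.mk' K).comp inr) hconj
  let fwd : Monoid.Coprod N H →* N ⋊[φ] H :=
    Monoid.Coprod.lift SemidirectProduct.inl SemidirectProduct.inr
  have hback : back.comp fwd = QuotientGroup.mk' K := by
    apply Monoid.Coprod.hom_ext
    · ext g; simp [back, fwd]
    · ext h; simp [back, fwd]
  have hsurj : Function.Surjective fwd := by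
    intro x
    refine ⟨inl x.left * inr x.right, ?_⟩
    simp [fwd]
  refine Group.IsFinitelyPresented.of_surjective fwd hsurj
    ⟨R, (hSf.prod Set.finite_univ).image _, ?_⟩
  apply le_antisymm
  · apply Subgroup.normalClosure_le_normal
    rintro _ ⟨⟨g, h⟩, _, rfl⟩
    change fwd _ = 1
    simp only [fwd, map_mul, map_inv, Monoid.Coprod.lift_apply_inl, Monoid.Coprod.lift_apply_inr]
    rw [mul_inv_eq_one, SemidirectProduct.inl_aut, map_inv]
  · intro x hx
    have h1 : back (fwd x) = 1 := by rw [MonoidHom.mem_ker.mp hx, map_one]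
    rw [← MonoidHom.comp_apply, hback] at h1
    exact (QuotientGroup.eq_one_iff x).mp h1

theorem fp_wr (G : Type) [Group G] [Group.IsFinitelyPresented G] (n : ℕ) :
    Group.IsFinitelyPresented (Wr G (Fin n)) := by
  have := fp_pi_fin' G n
  exact fp_semidirect _ _ _

end Pool.Agent.Q11.FM
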