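import Pool.Agent.Q11.FM.Wr

/-!
# Conjugacy classes of wreath products and of subgroups of finite index
-/

set_option autoImplicit false

namespace Pool.Agent.Q11.FM

open Wr

lemma lab_pow_succ {G : Type} [Group G] {Ω : Type} (γ : Wr G Ω) (k : ℕ) (i : Ω) :
    lab (γ ^ (k + 1)) i = lab γ ((γ.right ^ k) i) * lab (γ ^ k) i := by
  rw [pow_succ', lab_mul]
  congr 2
  have : (γ ^ k).right = γ.right ^ k := map_pow SemidirectProduct.rightHom γ k
  rw [this]

/-- a wreath product of a group with finitely many conjugacy classes -/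
theorem finite_conj_wr (G : Type) [Group G] [Finite (ConjClasses G)] (n : ℕ) :
    Finite (ConjClasses (Wr G (Fin n))) := by
  classical
  let rc : ConjClasses G → G := fun c => Quotient.out c
  have hrc : ∀ c, ConjClasses.mk (rc c) = c := fun c => Quotient.out_eq c
  let lb : Option (ConjClasses G) → G := fun o => o.elim 1 rc
  let mk' : (Fin n → Option (ConjClasses G)) × Equiv.Perm (Fin n) → Wr G (Fin n) := fun p =>
    ⟨fun j => lb (p.1 (p.2⁻¹ j)), p.2⟩
  have hmk : ∀ p i, lab (mk' p) i = lb (p.1 i) := by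
    intro p i
    show lb (p.1 (p.2⁻¹ (p.2 i))) = _
    simp
  apply Finite.of_surjective (fun p => ConjClasses.mk (mk' p))
  intro c
  obtain ⟨γ, rfl⟩ := ConjClasses.exists_rep c
  set σ : Equiv.Perm (Fin n) := γ.right with hσ
  -- representatives of cycles
  let sc : Setoid (Fin n) := Equiv.Perm.SameCycle.setoid σ
  let rep : Fin n → Fin n := fun i => (Quotient.mk sc i).out
  have hrep : ∀ i, σ.SameCycle (rep i) i := fun i => Quotient.exact (Quotient.out_eq (Quotient.mk sc i))
  have hrepσ : ∀ i, rep (σ i) = rep i := by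
    intro i
    have : Quotient.mk sc (σ i) = Quotient.mk sc i :=
      Quotient.sound (show σ.SameCycle (σ i) i from (Equiv.Perm.sameCycle_apply_left).2
        (Equiv.Perm.SameCycle.refl σ i))
    show (Quotient.mk sc (σ i)).out = (Quotient.mk sc i).out
    rw [this]
  have hex : ∀ i, ∃ k : ℕ, (σ ^ k) (rep i) = i := by
    intro i
    obtain ⟨k, -, hk⟩ := (hrep i).exists_pow_eq'
    exact ⟨k, hk⟩
  let e : Fin n → ℕ := fun i => Nat.find (hex i)
  have he : ∀ i, (σ ^ e i) (rep i) = i := fun i => Nat.find_spec (hex i)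
  have hemin : ∀ i k, (σ ^ k) (rep i) = i → e i ≤ k := fun i k h => Nat.find_min' (hex i) h
  have he0 : ∀ i, e (rep i) = 0 := by
    intro i
    have h1 : rep (rep i) = rep i := by
      have : Quotient.mk sc (rep i) = Quotient.mk sc i := Quotient.out_eq _
      show (Quotient.mk sc (rep i)).out = (Quotient.mk sc i).out
      rw [this]
    have := hemin (rep i) 0 (by rw [h1]; rfl)
    omega
  have hrr : ∀ i, rep (rep i) = rep i := by
    intro i
    have : Quotient.mk sc (rep i) = Quotient.mk sc i := Quotient.out_eq _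
    show (Quotient.mk sc (rep i)).out = (Quotient.mk sc i).out
    rw [this]
  have hsucc : ∀ i, σ i ≠ rep i → e (σ i) = e i + 1 := by
    intro i hi
    apply le_antisymm
    · apply hemin
      rw [hrepσ, pow_succ', Equiv.Perm.mul_apply, he]
    · rcases Nat.eq_zero_or_pos (e (σ i)) with h0 | h0
      · exfalso
        have := he (σ i)
        rw [h0, hrepσ] at this
        exact hi this.symm
      · obtain ⟨k, hk⟩ := Nat.exists_eq_succ_of_ne_zero h0.ne'
        have h1 := he (σ i)
        rw [hk, hrepσ, pow_succ', Equiv.Perm.mul_apply] at h1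
        have h2 := hemin i k (σ.injective h1)
        omega
  -- the product around the cycle of `i`, based at its representative
  let last : Fin n → Fin n := fun r => σ⁻¹ r
  let P : Fin n → G := fun r => lab (γ ^ (e (σ⁻¹ r) + 1)) r
  have hP : ∀ r, ∃ w : G, w * P r * w⁻¹ = rc (ConjClasses.mk (P r)) := by
    intro r
    have h1 : IsConj (P r) (rc (ConjClasses.mk (P r))) :=
      ConjClasses.mk_eq_mk_iff_isConj.1 (hrc _).symm
    exact isConj_iff.1 h1
  choose w hw using hP
  let z : Fin n → G := fun i => w (rep i) * (lab (γ ^ e i) (rep i))⁻¹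
  let a : Fin n → Option (ConjClasses G) := fun i =>
    if σ i = rep i then some (ConjClasses.mk (P (rep i))) else none
  refine ⟨(a, σ), ?_⟩
  apply ConjClasses.mk_eq_mk_iff_isConj.2
  apply IsConj.symm
  rw [isConj_iff]
  refine ⟨(SemidirectProduct.inl z : Wr G (Fin n)), ?_⟩
  apply ext_iff'
  · intro i
    rfl
  · intro i
    rw [hmk]
    have hl : lab ((SemidirectProduct.inl z : Wr G (Fin n)) * γ * (SemidirectProduct.inl z)⁻¹) i =
        z (σ i) * lab γ i * (z i)⁻¹ := by
      rw [lab_mul, lab_mul]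
      have h1 : lab ((SemidirectProduct.inl z : Wr G (Fin n))⁻¹) i = (z i)⁻¹ :=
        lab_inv (SemidirectProduct.inl z : Wr G (Fin n)) i
      rw [h1]
      rfl
    rw [hl]
    show z (σ i) * lab γ i * (z i)⁻¹ = lb (a i)
    have hpow : lab (γ ^ (e i + 1)) (rep i) = lab γ i * lab (γ ^ e i) (rep i) := by
      rw [lab_pow_succ, ← hσ, he]
    by_cases hi : σ i = rep i
    · have e1 : a i = some (ConjClasses.mk (P (rep i))) := if_pos hi
      rw [e1]
      show _ = rc _
      rw [← hw]
      have e2 : z (σ i) = w (rep i) := by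
        show w (rep (σ i)) * (lab (γ ^ e (σ i)) (rep (σ i)))⁻¹ = _
        rw [hrepσ, hi, he0, pow_zero, lab_one, inv_one, mul_one]
      have e3 : P (rep i) = lab (γ ^ (e i + 1)) (rep i) := by
        show lab (γ ^ (e (σ⁻¹ (rep i)) + 1)) (rep i) = _
        rw [show σ⁻¹ (rep i) = i from by rw [← hi]; exact σ.symm_apply_apply i]
      rw [e2, e3, hpow]
      show w (rep i) * lab γ i * (w (rep i) * (lab (γ ^ e i) (rep i))⁻¹)⁻¹ = _
      group
    · have e1 : a i = none := if_neg hi
      rw [e1]
      show _ = (1 : G)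
      show w (rep (σ i)) * (lab (γ ^ e (σ i)) (rep (σ i)))⁻¹ * lab γ i *
        (w (rep i) * (lab (γ ^ e i) (rep i))⁻¹)⁻¹ = 1
      rw [hrepσ, hsucc i hi, hpow]
      group

/-- subgroups of finite index -/
lemma finite_conj_sub' {G : Type} [Group G] [Finite (ConjClasses G)] (N : Subgroup G)
    [N.FiniteIndex] : Finite (ConjClasses N) := by
  classical
  let rep : ConjClasses G → N := fun C =>
    if h : ∃ x : N, ConjClasses.mk (x : G) = C then h.choose else 1
  have hrep : ∀ x : N, IsConj ((rep (ConjClasses.mk (x : G)) : N) : G) x := by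
    intro x
    have h : ∃ y : N, ConjClasses.mk (y : G) = ConjClasses.mk (x : G) := ⟨x, rfl⟩
    have h2 : rep (ConjClasses.mk (x : G)) = h.choose := dif_pos h
    rw [h2]
    exact ConjClasses.mk_eq_mk_iff_isConj.1 h.choose_spec
  let F : ConjClasses G × (G ⧸ N) → ConjClasses N := fun p =>
    if h : (p.2.out)⁻¹ * (rep p.1 : G) * p.2.out ∈ N then ConjClasses.mk ⟨_, h⟩ else
      ConjClasses.mk 1
  have hF : Function.Surjective F := by
    intro c
    obtain ⟨x, rfl⟩ := ConjClasses.exists_rep c
    obtain ⟨g, hg⟩ := isConj_iff.1 (hrep x)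
    refine ⟨(ConjClasses.mk (x : G), ((g⁻¹ : G) : G ⧸ N)), ?_⟩
    set q : G := ((g⁻¹ : G) : G ⧸ N).out with hq
    have hn : g * q ∈ N := by
      have h1 : ((q : G) : G ⧸ N) = ((g⁻¹ : G) : G ⧸ N) := Quotient.out_eq' _
      have h2 := QuotientGroup.eq.1 h1.symm
      rwa [inv_inv] at h2
    have hx : q⁻¹ * (rep (ConjClasses.mk (x : G)) : G) * q = (g * q)⁻¹ * x * (g * q) := by
      generalize (rep (ConjClasses.mk (x : G)) : G) = y at hg
      rw [← hg]; group
    have hm : q⁻¹ * (rep (ConjClasses.mk (x : G)) : G) * q ∈ N := by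
      rw [hx]
      exact N.mul_mem (N.mul_mem (N.inv_mem hn) x.2) hn
    show (if h : q⁻¹ * (rep (ConjClasses.mk (x : G)) : G) * q ∈ N then
      ConjClasses.mk (⟨_, h⟩ : N) else ConjClasses.mk 1) = _
    rw [dif_pos hm]
    apply ConjClasses.mk_eq_mk_iff_isConj.2
    rw [isConj_iff]
    refine ⟨⟨_, hn⟩, ?_⟩
    apply Subtype.ext
    show (g * q) * (q⁻¹ * (rep (ConjClasses.mk (x : G)) : G) * q) * (g * q)⁻¹ = x
    rw [hx]
    group
  exact Finite.of_surjective F hF

end Pool.Agent.Q11.FM
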