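import Pool.Agent.Q11.FM.Six
import Pool.Agent.Q11.FM.WrFp
import Pool.Agent.Q11.FM.WrSix
import Pool.Agent.Q11.FM.WrA
import Pool.Agent.Q11.FM.WrB
import Pool.Agent.Q11.FM.WrC

/-!
# Finitely presented monsters as Hurwitz groups
-/

set_option autoImplicit false

namespace Pool.Agent.Q11.FM

open Wr
open scoped commutatorElement

/-- properties of groups that pass to wreath products and to subgroups of finite index and force
finite abelianizations -/
structure Good (P : ∀ (G : Type) [Group G], Prop) : Prop where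
  fab : ∀ (G : Type) [Group G], Group.FG G → P G → FAb G
  wr : ∀ (G : Type) [Group G], P G → ∀ n : ℕ, P (Wr G (Fin (n + 1)))
  sub : ∀ (G : Type) [Group G], P G → ∀ N : Subgroup G, N.FiniteIndex → P N

/-- the derived subgroup of a subgroup -/
lemma comm_index {G : Type} [Group G] (A : Subgroup G) (hA : A.FiniteIndex)
    (h : Finite (Abelianization A)) : (⁅A, A⁆).FiniteIndex := by
  have h1 : Subgroup.map A.subtype (commutator A) = ⁅A, A⁆ := by
    rw [commutator_def, Subgroup.map_commutator, ← MonoidHom.range_eq_map, Subgroup.range_subtype]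
  rw [← h1]
  refine ⟨?_⟩
  rw [Subgroup.index_map_subtype]
  refine mul_ne_zero ?_ hA.index_ne_zero
  have h2 : (commutator A).FiniteIndex := by
    have : Finite (A ⧸ commutator A) := h
    exact Subgroup.finiteIndex_of_finite_quotient
  exact h2.index_ne_zero

/-- torsion groups -/
def Tor (G : Type) [Group G] : Prop := ∀ g : G, ∃ n : ℕ, 1 ≤ n ∧ g ^ n = 1

lemma torsion_fab (G : Type) [Group G] (hfg : Group.FG G) (hG : Tor G) : FAb G := by
  intro A hA
  apply comm_index A hA
  have h1 : Group.FG A := inferInstance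
  have h2 : Group.FG (Abelianization A) :=
    Group.fg_of_surjective (f := QuotientGroup.mk' (commutator A)) (QuotientGroup.mk'_surjective _)
  apply CommGroup.finite_of_fg_isMulTorsion
  intro z
  obtain ⟨a, rfl⟩ := QuotientGroup.mk_surjective z
  obtain ⟨n, hn, h⟩ := hG a
  refine isOfFinOrder_iff_pow_eq_one.2 ⟨n, hn, ?_⟩
  have h3 : a ^ n = 1 := Subtype.ext h
  have h4 : (QuotientGroup.mk' (commutator A)) (a ^ n) = 1 := by rw [h3, map_one]
  rw [map_pow] at h4
  exact h4

/-- a power of every element of the wreath product is in the base -/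
lemma wr_pow {G : Type} [Group G] (n : ℕ) (γ : Wr G (Fin n)) :
    ∃ f : Fin n → G, γ ^ (Nat.card (Equiv.Perm (Fin n))) = SemidirectProduct.inl f := by
  have h : (γ ^ (Nat.card (Equiv.Perm (Fin n)))).right = 1 := by
    have h1 : (γ ^ (Nat.card (Equiv.Perm (Fin n)))).right =
        γ.right ^ (Nat.card (Equiv.Perm (Fin n))) := map_pow SemidirectProduct.rightHom γ _
    rw [h1]
    exact pow_card_eq_one'
  refine ⟨(γ ^ (Nat.card (Equiv.Perm (Fin n)))).left, ?_⟩
  apply SemidirectProduct.ext
  · rfl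
  · exact h

theorem good_torsion : Good (fun G _ => Tor G) where
  fab := torsion_fab
  wr := by
    intro G _ hG n γ
    obtain ⟨f, hf⟩ := wr_pow (n + 1) γ
    have hpos : 0 < Nat.card (Equiv.Perm (Fin (n + 1))) := Nat.card_pos
    have h1 : ∀ i, ∃ m, 1 ≤ m ∧ f i ^ m = 1 := fun i => hG (f i)
    choose m hm using h1
    refine ⟨Nat.card (Equiv.Perm (Fin (n + 1))) * ∏ i, m i,
      Nat.mul_pos hpos (Finset.prod_pos (fun i _ => (hm i).1)), ?_⟩
    rw [pow_mul, hf, ← map_pow]
    have : f ^ (∏ i, m i) = 1 := by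
      funext i
      rw [Pi.pow_apply, Pi.one_apply]
      obtain ⟨c, hc⟩ := Finset.dvd_prod_of_mem m (Finset.mem_univ i)
      rw [hc, pow_mul, (hm i).2, one_pow]
    rw [this, map_one]
  sub := by
    intro G _ hG N _ g
    obtain ⟨n, hn, h⟩ := hG g
    exact ⟨n, hn, Subtype.ext h⟩

/-- bounded exponent -/
def BExp (G : Type) [Group G] : Prop := ∃ n : ℕ, 1 ≤ n ∧ ∀ g : G, g ^ n = 1

lemma BExp.torsion {G : Type} [Group G] (h : BExp G) : Tor G := by
  obtain ⟨n, hn, h⟩ := h
  exact fun g => ⟨n, hn, h g⟩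

theorem good_exp : Good (fun G _ => BExp G) where
  fab := fun G _ hfg h => torsion_fab G hfg h.torsion
  wr := by
    rintro G _ ⟨m, hm, h⟩ n
    have hpos : 0 < Nat.card (Equiv.Perm (Fin (n + 1))) := Nat.card_pos
    refine ⟨Nat.card (Equiv.Perm (Fin (n + 1))) * m, Nat.mul_pos hpos hm, fun γ => ?_⟩
    obtain ⟨f, hf⟩ := wr_pow (n + 1) γ
    rw [pow_mul, hf, ← map_pow]
    have : f ^ m = 1 := by
      funext i
      exact h (f i)
    rw [this, map_one]
  sub := by
    rintro G _ ⟨m, hm, h⟩ N _
    exact ⟨m, hm, fun g => Subtype.ext (h g)⟩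

theorem good_six : Good (fun G _ => Finite (ConjClasses G)) where
  fab := by
    intro G _ _ hG A hA
    apply comm_index A hA
    have h0 : Finite (ConjClasses G) := hG
    have h1 : Finite (ConjClasses A) := finite_conj_sub' A
    have h2 : Finite (ConjClasses (A ⧸ commutator A)) := finite_conj_quot _
    have h3 : Finite (ConjClasses (Abelianization A)) := h2
    have h4 : Function.Injective (ConjClasses.mk : Abelianization A → _) :=
      ConjClasses.mk_bijective.1
    exact Finite.of_injective _ h4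
  wr := by
    intro G _ hG n
    have h0 : Finite (ConjClasses G) := hG
    exact finite_conj_wr G (n + 1)
  sub := by
    intro G _ hG N hN
    have h0 : Finite (ConjClasses G) := hG
    exact finite_conj_sub' N

/-- subgroups of finite index -/
lemma FAb.of_injective {X K : Type} [Group X] [Group K] (hX : FAb X) (f : K →* X)
    (hf : Function.Injective f) (hr : f.range.FiniteIndex) : FAb K := by
  intro A hA
  have h1 : (A.map f).FiniteIndex := by
    refine ⟨?_⟩
    rw [Subgroup.index_map_of_injective _ hf]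
    exact mul_ne_zero hA.index_ne_zero hr.index_ne_zero
  have h2 := hX _ h1
  rw [← Subgroup.map_commutator] at h2
  refine ⟨?_⟩
  have h3 := h2.index_ne_zero
  rw [Subgroup.index_map_of_injective _ hf] at h3
  exact left_ne_zero_of_mul h3

/-- overgroups of finite index -/
lemma FAb.over {H : Type} [Group H] (A : Subgroup H) (hA : A.FiniteIndex) (h : FAb A) : FAb H := by
  intro C hC
  have h1 : (C.subgroupOf A).FiniteIndex := inferInstance
  have h2 := h _ h1
  have h3 : (Subgroup.map A.subtype ⁅C.subgroupOf A, C.subgroupOf A⁆).FiniteIndex := by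
    refine ⟨?_⟩
    rw [Subgroup.index_map_subtype]
    exact mul_ne_zero h2.index_ne_zero hA.index_ne_zero
  apply finiteIndex_of_le' _ h3
  rw [Subgroup.map_commutator]
  apply Subgroup.commutator_mono <;>
  · rintro _ ⟨x, hx, rfl⟩
    exact hx

lemma comap_finiteIndex {X K : Type} [Group X] [Group K] (f : K →* X) (A : Subgroup X)
    (hA : A.FiniteIndex) : (A.comap f).FiniteIndex := by
  have h1 : ((QuotientGroup.mk' A.normalCore).comp f).ker.FiniteIndex := Subgroup.finiteIndex_ker _
  apply finiteIndex_of_le' _ h1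
  intro x hx
  have h2 : QuotientGroup.mk' A.normalCore (f x) = 1 := hx
  exact A.normalCore_le ((QuotientGroup.eq_one_iff _).1 h2)

/-- direct powers -/
lemma FAb.pi {G : Type} [Group G] (h : FAb G) (k : ℕ) : FAb (Fin k → G) := by
  intro A hA
  let B : Fin k → Subgroup G := fun i => A.comap (MonoidHom.mulSingle (fun _ => G) i)
  have hB : ∀ i, (B i).FiniteIndex := fun i => comap_finiteIndex _ A hA
  let Q : Subgroup (Fin k → G) := ⨅ i, (⁅B i, B i⁆).comap (Pi.evalMonoidHom _ i)
  have hQ : Q.FiniteIndex := by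
    apply Subgroup.finiteIndex_iInf
    intro i
    refine ⟨?_⟩
    rw [Subgroup.index_comap_of_surjective _ (Function.surjective_eval i)]
    exact (h _ (hB i)).index_ne_zero
  apply finiteIndex_of_le' _ hQ
  intro f hf
  apply Subgroup.pi_mem_of_mulSingle_mem
  intro i
  rw [Subgroup.mem_iInf] at hf
  have h1 : f i ∈ ⁅B i, B i⁆ := hf i
  have h2 : (MonoidHom.mulSingle (fun _ => G) i) (f i) ∈
      Subgroup.map (MonoidHom.mulSingle (fun _ => G) i) ⁅B i, B i⁆ := ⟨_, h1, rfl⟩
  rw [Subgroup.map_commutator] at h2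
  have h3 : Subgroup.map (MonoidHom.mulSingle (fun _ => G) i) (B i) ≤ A :=
    Subgroup.map_comap_le _ _
  exact Subgroup.commutator_mono h3 h3 h2

/-- `H` has a subgroup of finite index isomorphic to one of a direct power of `G` -/
def PowComm (G H : Type) [Group G] [Group H] : Prop :=
  ∃ k : ℕ, 1 ≤ k ∧ ∃ A : Subgroup H, A.FiniteIndex ∧
    ∃ f : A →* (Fin k → G), Function.Injective f ∧ f.range.FiniteIndex

lemma PowComm.refl (G : Type) [Group G] : PowComm G G := by
  refine ⟨1, le_refl _, ⊤, inferInstance, ?_⟩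
  let f : (⊤ : Subgroup G) →* (Fin 1 → G) :=
    { toFun := fun g _ => g
      map_one' := rfl
      map_mul' := fun _ _ => rfl }
  refine ⟨f, ?_, ?_⟩
  · intro a b hab
    exact Subtype.ext (congrFun hab 0)
  · have : f.range = ⊤ := by
      rw [MonoidHom.range_eq_top]
      intro h
      refine ⟨⟨h 0, trivial⟩, ?_⟩
      funext i
      rw [Subsingleton.elim i 0]
      rfl
    rw [this]
    infer_instance

lemma PowComm.fab {G H : Type} [Group G] [Group H] (hG : FAb G) (h : PowComm G H) : FAb H := by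
  obtain ⟨k, -, A, hA, f, hf, hr⟩ := h
  exact FAb.over A hA (FAb.of_injective (FAb.pi hG k) f hf hr)

lemma PowComm.sub {G H : Type} [Group G] [Group H] (h : PowComm G H) (N : Subgroup H)
    (hN : N.FiniteIndex) : PowComm G N := by
  obtain ⟨k, hk, A, hA, f, hf, hr⟩ := h
  refine ⟨k, hk, A.subgroupOf N, inferInstance, ?_⟩
  let j : A.subgroupOf N →* A :=
    { toFun := fun x => ⟨((x : N) : H), x.2⟩
      map_one' := rfl
      map_mul' := fun _ _ => rfl }
  have hj : Function.Injective j := by
    intro x y hxy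
    apply Subtype.ext
    apply Subtype.ext
    have h1 := congrArg (fun z : A => (z : H)) hxy
    exact h1
  have hjr : j.range = N.subgroupOf A := by
    ext x
    constructor
    · rintro ⟨y, rfl⟩
      exact (y : N).2
    · intro hx
      exact ⟨⟨⟨(x : H), hx⟩, x.2⟩, rfl⟩
  refine ⟨f.comp j, hf.comp hj, ?_⟩
  refine ⟨?_⟩
  rw [MonoidHom.range_comp, Subgroup.index_map_of_injective _ hf, hjr]
  have h1 : (N.subgroupOf A).FiniteIndex := inferInstance
  exact mul_ne_zero h1.index_ne_zero hr.index_ne_zero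

lemma PowComm.wr {G H : Type} [Group G] [Group H] (h : PowComm G H) (n : ℕ) :
    PowComm G (Wr H (Fin (n + 1))) := by
  classical
  obtain ⟨k, hk, A, hA, f, hf, hr⟩ := h
  let A' : Subgroup (Wr H (Fin (n + 1))) :=
    { carrier := {γ | γ.right = 1 ∧ ∀ i, γ.left i ∈ A}
      one_mem' := ⟨rfl, fun i => A.one_mem⟩
      mul_mem' := by
        rintro γ δ ⟨h1, h2⟩ ⟨k1, k2⟩
        refine ⟨?_, fun i => ?_⟩
        · rw [SemidirectProduct.mul_right, h1, k1, one_mul]
        · rw [SemidirectProduct.mul_left, h1, map_one]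
          exact A.mul_mem (h2 i) (k2 i)
      inv_mem' := by
        rintro γ ⟨h1, h2⟩
        refine ⟨?_, fun i => ?_⟩
        · rw [SemidirectProduct.inv_right, h1, inv_one]
        · rw [SemidirectProduct.inv_left, h1, inv_one, map_one]
          exact A.inv_mem (h2 i) }
  have hA' : A'.FiniteIndex := by
    let Q : Subgroup (Fin (n + 1) → H) := ⨅ i, A.comap (Pi.evalMonoidHom _ i)
    have hQ : Q.FiniteIndex := by
      apply Subgroup.finiteIndex_iInf
      intro i
      refine ⟨?_⟩
      rw [Subgroup.index_comap_of_surjective _ (Function.surjective_eval i)]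
      exact hA.index_ne_zero
    have h1 : (Q.map (SemidirectProduct.inl : _ →* Wr H (Fin (n + 1)))).FiniteIndex := by
      refine ⟨?_⟩
      rw [Subgroup.index_map_of_injective _ SemidirectProduct.inl_injective]
      refine mul_ne_zero hQ.index_ne_zero ?_
      rw [SemidirectProduct.range_inl_eq_ker_rightHom]
      exact (Subgroup.finiteIndex_ker _).index_ne_zero
    apply finiteIndex_of_le' _ h1
    rintro _ ⟨q, hq, rfl⟩
    refine ⟨rfl, fun i => ?_⟩
    have := (Subgroup.mem_iInf.1 hq) i
    exact this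
  have hfin : (1 : ℕ) ≤ (n + 1) * k := Nat.mul_pos (Nat.succ_pos n) hk
  let e : Fin (n + 1) × Fin k ≃ Fin ((n + 1) * k) := finProdFinEquiv
  let F : A' →* (Fin ((n + 1) * k) → G) :=
    { toFun := fun γ p => f ⟨(γ : Wr H (Fin (n + 1))).left (e.symm p).1, γ.2.2 _⟩ (e.symm p).2
      map_one' := by
        funext p
        show f 1 _ = 1
        rw [map_one]; rfl
      map_mul' := by
        rintro ⟨γ, h1, h2⟩ ⟨δ, k1, k2⟩
        funext p
        have e1 : (γ * δ).left (e.symm p).1 = γ.left (e.symm p).1 * δ.left (e.symm p).1 := by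
          rw [SemidirectProduct.mul_left, h1, map_one]
          rfl
        show f ⟨(γ * δ).left (e.symm p).1, _⟩ (e.symm p).2 = f ⟨γ.left (e.symm p).1, _⟩ (e.symm p).2 *
          f ⟨δ.left (e.symm p).1, _⟩ (e.symm p).2
        have e2 : (⟨(γ * δ).left (e.symm p).1, (A'.mul_mem ⟨h1, h2⟩ ⟨k1, k2⟩).2 _⟩ : A) =
            ⟨γ.left (e.symm p).1, h2 _⟩ * ⟨δ.left (e.symm p).1, k2 _⟩ := Subtype.ext e1
        rw [← Pi.mul_apply, ← map_mul, ← e2] }
  refine ⟨(n + 1) * k, hfin, A', hA', F, ?_, ?_⟩
  · intro γ δ hγδ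
    apply Subtype.ext
    apply SemidirectProduct.ext
    · funext i
      have h1 : f ⟨(γ : Wr H (Fin (n + 1))).left i, γ.2.2 _⟩ =
          f ⟨(δ : Wr H (Fin (n + 1))).left i, δ.2.2 _⟩ := by
        funext j
        have := congrFun hγδ (e (i, j))
        have e2 : e.symm (e (i, j)) = (i, j) := e.symm_apply_apply _
        simp only [F, MonoidHom.coe_mk, OneHom.coe_mk] at this
        rw [e2] at this
        exact this
      exact congrArg Subtype.val (hf h1)
    · rw [γ.2.1, δ.2.1]
  · let R : Fin (n + 1) → ((Fin ((n + 1) * k) → G) →* (Fin k → G)) := fun i =>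
      { toFun := fun h j => h (e (i, j))
        map_one' := rfl
        map_mul' := fun _ _ => rfl }
    have hR : ∀ i, Function.Surjective (R i) := by
      intro i h
      refine ⟨fun p => h (e.symm p).2, ?_⟩
      funext j
      show h (e.symm (e (i, j))).2 = h j
      rw [e.symm_apply_apply]
    let Q : Subgroup (Fin ((n + 1) * k) → G) := ⨅ i, f.range.comap (R i)
    have hQ : Q.FiniteIndex := by
      apply Subgroup.finiteIndex_iInf
      intro i
      refine ⟨?_⟩
      rw [Subgroup.index_comap_of_surjective _ (hR i)]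
      exact hr.index_ne_zero
    apply finiteIndex_of_le' _ hQ
    intro h hh
    rw [Subgroup.mem_iInf] at hh
    have h1 : ∀ i, ∃ a : A, f a = R i h := fun i => hh i
    choose a ha using h1
    refine ⟨⟨⟨fun i => a i, 1⟩, rfl, fun i => (a i).2⟩, ?_⟩
    funext p
    show f ⟨(a (e.symm p).1 : H), _⟩ (e.symm p).2 = h p
    have h2 : (⟨(a (e.symm p).1 : H), (a (e.symm p).1).2⟩ : A) = a (e.symm p).1 := rfl
    have h3 := congrFun (ha (e.symm p).1) (e.symm p).2
    have h4 : R (e.symm p).1 h (e.symm p).2 = h p := by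
      show h (e ((e.symm p).1, (e.symm p).2)) = h p
      rw [Prod.mk.eta, e.apply_symm_apply]
    rw [h4] at h3
    exact h3

theorem good_comm (G : Type) [Group G] (hG : FAb G) : Good (fun H _ => PowComm G H) where
  fab := fun _ _ _ h => h.fab hG
  wr := fun _ _ h n => h.wr n
  sub := fun _ _ h N hN => h.sub N hN

/-- groups with all the properties of `P` and the standing assumptions -/
structure Mon (P : ∀ (G : Type) [Group G], Prop) (G : Type) [Group G] : Prop where
  inf : Infinite G
  fp : Group.IsFinitelyPresented G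
  prop : P G

lemma Mon.fab {P : ∀ (G : Type) [Group G], Prop} (hP : Good P) {G : Type} [Group G]
    (h : Mon P G) : FAb G := by
  have := h.fp
  exact hP.fab G (fg_of_fp' G) h.prop

/-- passing to a subgroup of finite index of a wreath product -/
lemma Mon.step {P : ∀ (G : Type) [Group G], Prop} (hP : Good P) {G : Type} [Group G]
    (h : Mon P G) (n : ℕ) (Γ : Subgroup (Wr G (Fin (n + 1)))) (hΓ : Γ.FiniteIndex) :
    Mon P Γ := by
  have := h.fp
  have hG := h.inf
  have h1 : Group.IsFinitelyPresented (Wr G (Fin (n + 1))) := fp_wr G _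
  refine ⟨?_, fp_of_index Γ, hP.sub _ (hP.wr G h.prop _) Γ hΓ⟩
  have h2 : Infinite (Wr G (Fin (n + 1))) := by
    have h3 : Function.Injective (fun g : G =>
        (SemidirectProduct.inl (fun _ : Fin (n + 1) => g) : Wr G (Fin (n + 1)))) := by
      intro g g' hgg
      have := SemidirectProduct.inl_injective hgg
      exact congrFun this 0
    exact Infinite.of_injective _ h3
  by_contra hf
  rw [not_infinite_iff_finite] at hf
  have h4 : Finite (Wr G (Fin (n + 1)) ⧸ Γ) := inferInstance
  have h5 : Finite (Wr G (Fin (n + 1))) :=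
    Finite.of_equiv _ (Subgroup.groupEquivQuotientProdSubgroup (s := Γ)).symm
  exact not_finite (Wr G (Fin (n + 1)))

/-- **From any finite number of generators to three.** -/
theorem three_gen {G : Type} [Group G] (hG : FAb G) (n : ℕ) (g : Fin n → G)
    (hg : Subgroup.closure (Set.range g) = ⊤) :
    ∃ x y z : Wr G (Fin (n + 2)), (Subgroup.closure {x, y, z}).FiniteIndex := by
  obtain ⟨x, y, z, -, hT⟩ := three_pair n g hg
  refine ⟨x, y, z, finiteIndex_of_T hG fun i j hij => ?_⟩
  rw [hT i j hij]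
  infer_instance

/-- quotients of the triangle group (2, 3, 7) -/
def Hur (G : Type) [Group G] : Prop :=
  ∃ x y : G, x ^ 2 = 1 ∧ y ^ 3 = 1 ∧ (x * y) ^ 7 = 1 ∧ Subgroup.closure {x, y} = ⊤

/-- three generators -/
lemma red_three {P : ∀ (G : Type) [Group G], Prop} (hP : Good P) (G : Type) [Group G]
    (h : Mon P G) : ∃ (Q : Type) (_ : Group Q), Mon P Q ∧
      ∃ x y z : Q, Subgroup.closure {x, y, z} = ⊤ := by
  obtain ⟨n, φ, hφ, -⟩ := h.fp.out
  have hg : Subgroup.closure (Set.range (fun i => φ (FreeGroup.of i))) = ⊤ := by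
    have h1 : Set.range (fun i => φ (FreeGroup.of i)) = φ '' Set.range FreeGroup.of := by
      rw [← Set.range_comp]; rfl
    rw [h1, ← MonoidHom.map_closure, FreeGroup.closure_range_of, ← MonoidHom.range_eq_map,
      MonoidHom.range_eq_top]
    exact hφ
  obtain ⟨x, y, z, hf⟩ := three_gen (h.fab hP) n _ hg
  have hM1 := h.step hP (n + 1) _ hf
  obtain ⟨x', y', z', -, -, -, h3⟩ := closure_triple_top x y z
  exact ⟨Subgroup.closure {x, y, z}, inferInstance, hM1, x', y', z', h3⟩

/-- generators of orders two and three -/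
lemma red_two {P : ∀ (G : Type) [Group G], Prop} (hP : Good P) (G : Type) [Group G]
    (h : Mon P G) (x y z : G) (hg : Subgroup.closure {x, y, z} = ⊤) :
    ∃ (Q : Type) (_ : Group Q), Mon P Q ∧
      ∃ p q : Q, p ^ 2 = 1 ∧ q ^ 3 = 1 ∧ Subgroup.closure {p, q} = ⊤ := by
  obtain ⟨p, q, hp, hq, hf2⟩ := A18.step (h.fab hP) x y z hg
  have hM2 := h.step hP 17 _ hf2
  obtain ⟨p', q', hp', hq', h4⟩ := closure_pair_top p q
  refine ⟨Subgroup.closure {p, q}, inferInstance, hM2, p', q', ?_, ?_, h4⟩
  · apply Subtype.ext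
    rw [Subgroup.coe_pow, hp', hp]; rfl
  · apply Subtype.ext
    rw [Subgroup.coe_pow, hq', hq]; rfl

/-- a Hurwitz pair -/
lemma red_hur {P : ∀ (G : Type) [Group G], Prop} (hP : Good P) (G : Type) [Group G]
    (h : Mon P G) (p q : G) (hp : p ^ 2 = 1) (hq : q ^ 3 = 1)
    (hg : Subgroup.closure {p, q} = ⊤) :
    ∃ (Q : Type) (_ : Group Q), Mon P Q ∧ Hur Q := by
  obtain ⟨a, b, ha, hb, hab, hf3⟩ := A14.step (h.fab hP) p q hp hq hg
  have hM3 := h.step hP 13 _ hf3
  obtain ⟨a', b', ha', hb', h5⟩ := closure_pair_top a b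
  refine ⟨Subgroup.closure {a, b}, inferInstance, hM3, a', b', ?_, ?_, ?_, h5⟩
  · apply Subtype.ext
    rw [Subgroup.coe_pow, ha', ha]; rfl
  · apply Subtype.ext
    rw [Subgroup.coe_pow, hb', hb]; rfl
  · apply Subtype.ext
    rw [Subgroup.coe_pow, Subgroup.coe_mul, ha', hb', hab]; rfl

/-- **Reduction to Hurwitz groups.** -/
theorem exists_hurwitz {P : ∀ (G : Type) [Group G], Prop} (hP : Good P) (G : Type) [Group G]
    (h : Mon P G) : ∃ (Q : Type) (_ : Group Q), Mon P Q ∧ Hur Q := by
  obtain ⟨Q1, _, h1, x, y, z, hg1⟩ := red_three hP G h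
  obtain ⟨Q2, _, h2, p, q, hp, hq, hg2⟩ := red_two hP Q1 h1 x y z hg1
  exact red_hur hP Q2 h2 p q hp hq hg2

end Pool.Agent.Q11.FM
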