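import Pool.Agent.Q11.FM.Wr

/-!
# Evaluation of words in labelled permutations
-/

set_option autoImplicit false

namespace Pool.Agent.Q11.FM

open Wr

variable {G : Type} [Group G] {Ω : Type}

/-- the labelled permutation with permutation `σ` and labels `L` -/
def el (L : Ω → G) (σ : Equiv.Perm Ω) : Wr G Ω := ⟨fun j => L (σ⁻¹ j), σ⟩

@[simp] lemma el_right (L : Ω → G) (σ : Equiv.Perm Ω) (i : Ω) : (el L σ).right i = σ i := rfl

lemma el_lab (L : Ω → G) (σ : Equiv.Perm Ω) (i : Ω) : lab (el L σ) i = L i := by
  show L (σ⁻¹ (σ i)) = L i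
  rw [show σ⁻¹ (σ i) = i from σ.symm_apply_apply i]

/-- the value of a word; the letters 0, 1, 2 stand for `x`, `y`, `y⁻¹` -/
def ev {H : Type} [Group H] (x y : H) : List (Fin 3) → H
  | [] => 1
  | a :: w => (if a = 0 then x else if a = 1 then y else y⁻¹) * ev x y w

lemma ev_mem {H : Type} [Group H] (x y : H) (w : List (Fin 3)) :
    ev x y w ∈ Subgroup.closure {x, y} := by
  have hx : x ∈ Subgroup.closure {x, y} := Subgroup.subset_closure (by simp)
  have hy : y ∈ Subgroup.closure {x, y} := Subgroup.subset_closure (by simp)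
  induction w with
  | nil => exact Subgroup.one_mem _
  | cons a w ih =>
    show (if a = 0 then x else if a = 1 then y else y⁻¹) * ev x y w ∈ _
    apply Subgroup.mul_mem _ _ ih
    split_ifs
    · exact hx
    · exact hy
    · exact Subgroup.inv_mem _ hy

/-- the end point of a word -/
def run (s t t' : Ω → Ω) : List (Fin 3) → Ω → Ω
  | [], i => i
  | a :: w, i => (if a = 0 then s else if a = 1 then t else t') (run s t t' w i)

/-- the list of labels met by a word -/
def labs {L : Type} (s t t' : Ω → Ω) (ls lt lt' : Ω → List L) : List (Fin 3) → Ω → List L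
  | [], _ => []
  | a :: w, i => (if a = 0 then ls else if a = 1 then lt else lt') (run s t t' w i) ++
      labs s t t' ls lt lt' w i

lemma run_spec {x y : Wr G Ω} {s t t' : Ω → Ω} (hs : ∀ i, x.right i = s i)
    (ht : ∀ i, y.right i = t i) (ht' : ∀ i, (y⁻¹).right i = t' i) (w : List (Fin 3)) (i : Ω) :
    (ev x y w).right i = run s t t' w i := by
  induction w with
  | nil => rfl
  | cons a w ih =>
    show ((if a = 0 then x else if a = 1 then y else y⁻¹) * ev x y w).right i =
      (if a = 0 then s else if a = 1 then t else t') (run s t t' w i)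
    rw [right_mul', ih]
    split_ifs
    · exact hs _
    · exact ht _
    · exact ht' _

lemma labs_spec {L : Type} (φ : L → G) {x y : Wr G Ω} {s t t' : Ω → Ω} {ls lt lt' : Ω → List L}
    (hs : ∀ i, x.right i = s i)
    (ht : ∀ i, y.right i = t i) (ht' : ∀ i, (y⁻¹).right i = t' i)
    (ks : ∀ i, lab x i = ((ls i).map φ).prod) (kt : ∀ i, lab y i = ((lt i).map φ).prod)
    (kt' : ∀ i, lab y⁻¹ i = ((lt' i).map φ).prod) (w : List (Fin 3)) (i : Ω) :
    lab (ev x y w) i = ((labs s t t' ls lt lt' w i).map φ).prod := by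
  induction w with
  | nil => rfl
  | cons a w ih =>
    show lab ((if a = 0 then x else if a = 1 then y else y⁻¹) * ev x y w) i =
      (((if a = 0 then ls else if a = 1 then lt else lt') (run s t t' w i) ++
      labs s t t' ls lt lt' w i).map φ).prod
    rw [lab_mul, ih, List.map_append, List.prod_append, run_spec hs ht ht']
    congr 1
    split_ifs
    · exact ks _
    · exact kt _
    · exact kt' _

/-- the inverse of a labelled permutation -/
lemma el_inv_right (L : Ω → G) (σ : Equiv.Perm Ω) (i : Ω) : ((el L σ)⁻¹).right i = σ.symm i := rfl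

lemma el_inv_lab (L : Ω → G) (σ : Equiv.Perm Ω) (i : Ω) :
    lab ((el L σ)⁻¹) i = (L (σ.symm i))⁻¹ := by
  have h := lab_inv (el L σ) (σ.symm i)
  rw [el_right, Equiv.apply_symm_apply, el_lab] at h
  exact h

end Pool.Agent.Q11.FM
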